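import Pool.Agent.H3.FH.Model

set_option autoImplicit false

namespace Pool.Agent.H3.FH

open Finset

/-- bound for the hat mass of `w n` -/
noncomputable def Cb (n : ℕ) : ℝ := 2 ^ (n ^ 2)
/-- bound for the norms of the orbit of `w n` -/
noncomputable def Wb (n : ℕ) : ℝ := H n / 2 ^ (n + 5)

theorem H_pos (n : ℕ) : 0 < H n := by rw [H_def]; positivity
theorem one_le_H (n : ℕ) : 1 ≤ H n := by rw [H_def]; exact one_le_pow₀ (by norm_num)
theorem Cb_pos (n : ℕ) : 0 < Cb n := by unfold Cb; positivity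
theorem Wb_pos (n : ℕ) : 0 < Wb n := by unfold Wb; have := H_pos n; positivity
theorem Wb_le_H (n : ℕ) : Wb n ≤ H n := by
  unfold Wb
  exact div_le_self (H_pos n).le (one_le_pow₀ (by norm_num))
theorem Wb_mul (n : ℕ) : Wb n * 2 ^ (n + 5) = H n := by
  unfold Wb; field_simp

theorem ee_mono {m n : ℕ} (h : m ≤ n) : ee m ≤ ee n := by
  rw [ee_def, ee_def]; exact Nat.pow_le_pow_left (by omega) 3

theorem ee_succ (k : ℕ) : ee k + (k + 1) ^ 2 + (k + 1) + 6 ≤ ee (k + 1) := by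
  rw [ee_def, ee_def]; nlinarith [sq_nonneg k]

theorem H_mono {m n : ℕ} (h : m ≤ n) : H m ≤ H n := by
  rw [H_def, H_def]; exact pow_le_pow_right₀ (by norm_num) (ee_mono h)

theorem ll_mono {m n : ℕ} (h : m ≤ n) : ll m ≤ ll n := by
  rw [ll_def, ll_def]; exact Nat.pow_le_pow_left (by omega) 2

theorem ll_succ (k : ℕ) : ll (k + 1) = ll k + 2 * k + 21 := by
  rw [ll_def, ll_def]; ring

theorem rr_eq (n : ℕ) : rr n + (n + 6) = ll n := by
  rw [rr_def, ll_def]
  have : n + 6 ≤ (n + 10) ^ 2 := by nlinarith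
  omega

theorem ll_le_rr {m n : ℕ} (h : m < n) : ll m ≤ rr n := by
  obtain ⟨k, rfl⟩ : ∃ k, n = k + 1 := ⟨n - 1, by omega⟩
  have h1 := ll_mono (show m ≤ k by omega)
  have h2 := rr_eq (k + 1)
  have h3 := ll_succ k
  omega

theorem ll_pos (n : ℕ) : 1 ≤ ll n := by rw [ll_def]; exact Nat.one_le_pow _ _ (by omega)

theorem hundred_le_ll (n : ℕ) : n + 100 ≤ ll n := by rw [ll_def]; nlinarith

theorem L_dvd {m n : ℕ} (h : m ≤ n) : L m ∣ L n := by
  rw [L_def, L_def]; exact pow_dvd_pow 2 (ll_mono h)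

theorem L_dvd_N {m n : ℕ} (h : m < n) : L m ∣ N n := by
  rw [L_def, N_def]; apply pow_dvd_pow
  have := ll_le_rr h; have := rr_eq n; omega

theorem L_dvd_Q {m n : ℕ} (h : m < n) : L m ∣ Q n := by
  rw [L_def, Q_def]; exact pow_dvd_pow 2 (ll_le_rr h)

theorem L_dvd_Z_odd {m n : ℕ} (h : m < n) (hn : n % 2 = 1) : L m ∣ Z n := by
  rw [L_def, Z_def]; apply pow_dvd_pow
  have := ll_le_rr h; have := rr_eq n; rw [ss_def, if_pos hn]; omega

theorem Q_lt_N (n : ℕ) : Q n < N n := by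
  rw [Q_def, N_def]; apply Nat.pow_lt_pow_right (by norm_num)
  have := rr_eq n; omega

theorem ss_ge (n : ℕ) : 2 ≤ ss n := by rw [ss_def]; split_ifs <;> omega

theorem ss_le (n : ℕ) : ss n ≤ n + 2 := by
  rw [ss_def]; split_ifs with h
  · omega
  · omega

theorem two_Z_le_N (n : ℕ) : 2 * Z n ≤ N n := by
  rw [Z_def, N_def]
  have h1 := ss_ge n; have h2 := ss_le n; have h3 := hundred_le_ll n
  calc 2 * 2 ^ (ll n - ss n) = 2 ^ (ll n - ss n + 1) := by ring
    _ ≤ 2 ^ (ll n - 1) := Nat.pow_le_pow_right (by norm_num) (by omega)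

theorem Z_pos (n : ℕ) : 0 < Z n := by rw [Z_def]; positivity

theorem Z_lt_N (n : ℕ) : Z n < N n := by have := two_Z_le_N n; have := Z_pos n; omega

theorem L_lt {m n : ℕ} (h : m < n) : 64 * L m ≤ L n := by
  obtain ⟨k, rfl⟩ : ∃ k, n = k + 1 := ⟨n - 1, by omega⟩
  rw [L_def, L_def]
  have h1 := ll_mono (show m ≤ k by omega)
  have h3 := ll_succ k
  calc 64 * 2 ^ ll m = 2 ^ (ll m + 6) := by ring
    _ ≤ 2 ^ ll (k + 1) := Nat.pow_le_pow_right (by norm_num) (by omega)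

/-- (R1) -/
theorem Cb_step {m n : ℕ} (h : m < n) : (n : ℝ) * (1 + Cb m) ≤ Cb n := by
  obtain ⟨k, rfl⟩ : ∃ k, n = k + 1 := ⟨n - 1, by omega⟩
  unfold Cb
  have h1 : ((k + 1 : ℕ) : ℝ) ≤ 2 ^ k := by
    have : k + 1 ≤ 2 ^ k := Nat.succ_le_of_lt k.lt_two_pow_self
    exact_mod_cast this
  have h2 : (2 : ℝ) ^ (m ^ 2) ≤ 2 ^ (k ^ 2) :=
    pow_le_pow_right₀ (by norm_num) (Nat.pow_le_pow_left (by omega) 2)
  have h3 : (1 : ℝ) ≤ 2 ^ (k ^ 2) := one_le_pow₀ (by norm_num)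
  calc ((k + 1 : ℕ) : ℝ) * (1 + 2 ^ (m ^ 2)) ≤ 2 ^ k * (2 ^ (k ^ 2) + 2 ^ (k ^ 2)) := by
        apply mul_le_mul h1 (by linarith) (by positivity) (by positivity)
    _ = 2 ^ (k ^ 2 + k + 1) := by ring
    _ ≤ 2 ^ ((k + 1) ^ 2) := pow_le_pow_right₀ (by norm_num) (by nlinarith)

/-- (R2) -/
theorem Wb_step {m n : ℕ} (h : m < n) : Cb n * (H m + Wb m) ≤ Wb n := by
  obtain ⟨k, rfl⟩ : ∃ k, n = k + 1 := ⟨n - 1, by omega⟩
  have h1 : H m + Wb m ≤ 2 * H k := by
    have := Wb_le_H m; have := H_mono (show m ≤ k by omega); linarith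
  have h2 : Cb (k + 1) * (2 * H k) * 2 ^ (k + 1 + 5) ≤ H (k + 1) := by
    rw [H_def, H_def, Cb]
    calc (2 : ℝ) ^ ((k + 1) ^ 2) * (2 * 2 ^ ee k) * 2 ^ (k + 1 + 5)
        = 2 ^ ((k + 1) ^ 2 + (ee k + 1) + (k + 1 + 5)) := by ring
      _ ≤ 2 ^ ee (k + 1) := pow_le_pow_right₀ (by norm_num) (by have := ee_succ k; omega)
  have h3 := Wb_mul (k + 1)
  have h4 : (0 : ℝ) < 2 ^ (k + 1 + 5) := by positivity
  have h5 : Cb (k + 1) * (H m + Wb m) ≤ Cb (k + 1) * (2 * H k) :=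
    mul_le_mul_of_nonneg_left h1 (Cb_pos _).le
  have h6 : Cb (k + 1) * (2 * H k) ≤ Wb (k + 1) := by
    rw [← mul_le_mul_iff_left₀ h4]; linarith
  linarith

theorem Cb_mul_H_le {m n : ℕ} (h : m < n) : Cb n * H m * 2 ^ (n + 5) ≤ H n := by
  have h1 := Wb_step h
  have h2 := Wb_mul n
  have h3 : Cb n * H m ≤ Wb n := by
    have := mul_nonneg (Cb_pos n).le (Wb_pos m).le
    nlinarith
  have h4 : (0 : ℝ) < 2 ^ (n + 5) := by positivity
  calc Cb n * H m * 2 ^ (n + 5) ≤ Wb n * 2 ^ (n + 5) := mul_le_mul_of_nonneg_right h3 h4.le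
    _ = H n := h2

/-! ### Zones -/

theorem val_lt (n : ℕ) (i : ZMod (L n)) : i.val < 2 * N n := by
  rw [← L_eq_two_mul_N]; exact ZMod.val_lt i

theorem of_lt (n : ℕ) (i : ZMod (L n)) : of n i < N n := Nat.mod_lt _ (N_pos n)

/-- the shifted position in `[0, 2 N n)` -/
def qq (n : ℕ) (i : ZMod (L n)) : ℕ := (i + (Q n : ZMod (L n))).val

theorem qq_lt (n : ℕ) (i : ZMod (L n)) : qq n i < 2 * N n := val_lt n _

theorem of_eq (n : ℕ) (i : ZMod (L n)) : of n i = qq n i % N n := rfl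
theorem o_eq (n : ℕ) (i : ZMod (L n)) : o n i = if N n ≤ qq n i then 1 else 0 := rfl

theorem qq_add (n : ℕ) (i : ZMod (L n)) (d : ℕ) :
    qq n (i + d) = (qq n i + d) % (2 * N n) := by
  unfold qq
  have : i + (d : ZMod (L n)) + (Q n : ZMod (L n)) = (i + (Q n : ZMod (L n))) + (d : ZMod (L n)) := by ring
  rw [this, ZMod.val_add, ZMod.val_natCast, Nat.add_mod_mod]
  exact congrArg (fun z => ((i + (Q n : ZMod (L n))).val + d) % z) (L_eq_two_mul_N n)

theorem of_add (n : ℕ) (i : ZMod (L n)) (d : ℕ) : of n (i + d) = (of n i + d) % N n := by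
  rw [of_eq, of_eq, qq_add, Nat.mod_mul_left_mod, Nat.mod_add_mod]

/-- relation between `qq n i` and `qq n (i - r)` for `r ≤ N n`. -/
theorem qq_sub (n : ℕ) (i : ZMod (L n)) (r : ℕ) (hr : r ≤ N n) :
    (r ≤ qq n i ∧ qq n (i - r) = qq n i - r) ∨
    (qq n i < r ∧ qq n (i - r) = qq n i + 2 * N n - r) := by
  have h1 := qq_add n (i - r) r
  rw [sub_add_cancel] at h1
  have h2 := qq_lt n (i - r)
  have h3 := qq_lt n i
  have hN := N_pos n
  rcases lt_or_ge (qq n (i - r) + r) (2 * N n) with h | h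
  · rw [Nat.mod_eq_of_lt h] at h1
    left; omega
  · rw [Nat.mod_eq_sub_mod h, Nat.mod_eq_of_lt (by omega)] at h1
    right; omega

theorem o_zero (n : ℕ) : o n 0 = 0 := by
  have h : qq n 0 = Q n := by
    unfold qq
    rw [zero_add, ZMod.val_natCast, Nat.mod_eq_of_lt]
    rw [L_eq_two_mul_N]; have := Q_lt_N n; omega
  rw [o_eq, h, if_neg (by have := Q_lt_N n; omega)]

theorem of_of_lt {n : ℕ} {i : ZMod (L n)} (h : qq n i < N n) : of n i = qq n i :=
  Nat.mod_eq_of_lt h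

theorem of_of_ge {n : ℕ} {i : ZMod (L n)} (h : N n ≤ qq n i) : of n i = qq n i - N n := by
  rw [of_eq, Nat.mod_eq_sub_mod h, Nat.mod_eq_of_lt (by have := qq_lt n i; omega)]

/-- If `i` and `i - r` are in the same zone then `r ≤ of n i`. -/
theorem le_of_of_same {n : ℕ} {i : ZMod (L n)} {r : ℕ} (hr : r < N n) (h : o n (i - r) = o n i) :
    r ≤ of n i := by
  have h1 := qq_sub n i r hr.le
  have h3 := qq_lt n i
  rw [o_eq, o_eq] at h
  rcases h1 with ⟨h1, h2⟩ | ⟨h1, h2⟩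
  · by_cases hq : N n ≤ qq n i
    · by_cases hq2 : N n ≤ qq n (i - r)
      · rw [of_of_ge hq]; omega
      · rw [if_neg hq2, if_pos hq] at h; simp at h
    · rw [of_of_lt (by omega)]; exact h1
  · rw [if_pos (show N n ≤ qq n (i - r) by omega), if_neg (by omega)] at h; simp at h

/-- If `i` and `i - r` are in different zones then `i - r` is close to the end of its zone. -/
theorem of_sub_of_ne {n : ℕ} {i : ZMod (L n)} {r : ℕ} (hr : r ≤ N n) (h : o n (i - r) ≠ o n i) :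
    N n - r ≤ of n (i - r) := by
  have h1 := qq_sub n i r hr
  have h3 := qq_lt n i
  rw [o_eq, o_eq] at h
  rcases h1 with ⟨h1, h2⟩ | ⟨h1, h2⟩
  · by_cases hq : N n ≤ qq n i
    · by_cases hq2 : N n ≤ qq n (i - r)
      · rw [if_pos hq2, if_pos hq] at h; simp at h
      · rw [of_of_lt (by omega)]; omega
    · rw [if_neg (show ¬ N n ≤ qq n (i - r) by omega), if_neg hq] at h; simp at h
  · by_cases hq : N n ≤ qq n i
    · omega
    · rw [of_of_ge (show N n ≤ qq n (i - r) by omega)]; omega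

theorem al_eq_H {n p : ℕ} (h : Z n ≤ p) : al n p = H n := by
  unfold al
  apply min_eq_left
  apply le_max_of_le_right
  apply le_max_of_le_right
  rw [le_div_iff₀ (by positivity)]
  exact mul_le_mul_of_nonneg_left (pow_le_pow_right₀ (by norm_num) h) (H_pos n).le

theorem al_le_H (n p : ℕ) : al n p ≤ H n := min_le_left _ _

theorem a_le_H (n : ℕ) (i : ZMod (L n)) : a n i ≤ H n := al_le_H _ _

theorem al_pos (n p : ℕ) : 0 < al n p := by
  unfold al
  apply lt_min (H_pos n)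
  apply lt_max_of_lt_left
  have := H_pos n
  positivity

theorem a_pos (n : ℕ) (i : ZMod (L n)) : 0 < a n i := al_pos _ _

theorem a_eq_H {n : ℕ} {i : ZMod (L n)} (h : Z n ≤ of n i) : a n i = H n := al_eq_H h

/-- crossing positions carry the large weight -/
theorem a_sub_of_ne {n : ℕ} {i : ZMod (L n)} {r : ℕ} (hr : r + Z n ≤ N n) (h : o n (i - r) ≠ o n i) :
    a n (i - r) = H n := by
  apply a_eq_H
  have := of_sub_of_ne (by omega) h
  omega

theorem al_ge (n p : ℕ) : min 1 (((p : ℝ) + 1) / L n) ≤ al n p := by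
  unfold al
  apply min_le_min (one_le_H n)
  apply le_max_of_le_right
  exact le_max_left _ _

/-- if `o` changes between `i` and `i + 1` then `i + 1` is a multiple of all lower periods -/
theorem dvd_of_seam {n : ℕ} {i : ZMod (L n)} (h : o n (i + 1) ≠ o n i) {m : ℕ} (hm : m < n) :
    L m ∣ (i + 1).val := by
  have hN := N_pos n
  have h1 := qq_add n i 1
  rw [Nat.cast_one] at h1
  have h3 := qq_lt n i
  have hq : qq n (i + 1) = 0 ∨ qq n (i + 1) = N n := by
    rw [o_eq, o_eq] at h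
    rcases lt_or_ge (qq n i + 1) (2 * N n) with hl | hl
    · rw [Nat.mod_eq_of_lt hl] at h1
      by_cases hq : N n ≤ qq n i
      · rw [if_pos hq, if_pos (by omega)] at h; simp at h
      · by_cases hq2 : N n ≤ qq n (i + 1)
        · right; omega
        · rw [if_neg hq, if_neg hq2] at h; simp at h
    · left
      rw [h1, show qq n i + 1 = 2 * N n by omega, Nat.mod_self]
  have hv : ((i + 1).val + Q n) % L n = qq n (i + 1) := by
    unfold qq
    rw [ZMod.val_add (i + 1), ZMod.val_natCast, Nat.add_mod_mod]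
  have hd : L m ∣ qq n (i + 1) := by
    rcases hq with hq | hq
    · rw [hq]; exact dvd_zero _
    · rw [hq]; exact L_dvd_N hm
  rw [← hv] at hd
  have hd2 : L m ∣ (i + 1).val + Q n := (Nat.dvd_mod_iff (L_dvd hm.le)).1 hd
  exact (Nat.dvd_add_left (L_dvd_Q hm)).1 hd2

end Pool.Agent.H3.FH
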