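import Pool.Agent.H3.FH.Hat

set_option autoImplicit false

namespace Pool.Agent.H3.FH

open Finset

variable {X : Type} [NormedAddCommGroup X] [NormedSpace ℂ X] (M : Model X)

/-- weighted norm of the block `n` part -/
noncomputable def bn (n : ℕ) (v : X) : ℝ := ∑ i, a n i * ‖M.h n i v‖

theorem bn_le (n : ℕ) (v : X) : bn M n v ≤ ‖v‖ := M.sum_h_le n v

theorem bn_nonneg (n : ℕ) (v : X) : 0 ≤ bn M n v :=
  sum_nonneg fun i _ => mul_nonneg (a_pos n i).le (norm_nonneg _)

theorem bn_add (n : ℕ) (v v' : X) : bn M n (v + v') ≤ bn M n v + bn M n v' := by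
  unfold bn
  rw [← sum_add_distrib]
  refine sum_le_sum fun i _ => ?_
  rw [map_add, ← mul_add]
  exact mul_le_mul_of_nonneg_left (norm_add_le _ _) (a_pos n i).le

theorem bn_smul (n : ℕ) (z : ℂ) (v : X) : bn M n (z • v) = ‖z‖ * bn M n v := by
  unfold bn
  rw [mul_sum]
  refine sum_congr rfl fun i _ => ?_
  rw [map_smul, smul_eq_mul, norm_mul]; ring

theorem bn_neg (n : ℕ) (v : X) : bn M n (-v) = bn M n v := by
  have := bn_smul M n (-1) v
  simpa using this

theorem bn_zero (n : ℕ) : bn M n 0 = 0 := by simp [bn]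

theorem bn_sum {ι : Type} (n : ℕ) (s : Finset ι) (v : ι → X) :
    bn M n (∑ i ∈ s, v i) ≤ ∑ i ∈ s, bn M n (v i) := by
  classical
  induction s using Finset.induction_on with
  | empty => simp [bn_zero]
  | insert a s ha ih =>
    rw [sum_insert ha, sum_insert ha]
    exact (bn_add M n _ _).trans (by linarith)

/-- coordinates of `Tw` vanish at high blocks -/
theorem h_Tw (n k : ℕ) (hk : n ≤ k) (i : ZMod (L n)) (j : ZMod (L k)) : M.h k j (Tw M n i) = 0 := by
  induction n using Nat.strong_induction_on generalizing k with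
  | _ n ih =>
  obtain ⟨c, h1, -⟩ := hm_Tw M n i
  rw [h1, map_sum]
  refine sum_eq_zero fun m hm => ?_
  have hm := mem_range.1 hm
  rw [map_sum]
  refine sum_eq_zero fun i' _ => ?_
  rw [map_smul]
  unfold F
  rw [map_add, map_smul, ih m hm k (by omega) i' j, M.h_f_ne k m j i' (by omega)]
  simp

theorem h_F_ne (m k : ℕ) (hk : m < k) (i : ZMod (L m)) (j : ZMod (L k)) :
    M.h k j (F M m i) = 0 := by
  unfold F
  rw [map_add, map_smul, h_Tw M m k hk.le, M.h_f_ne k m j i (by omega)]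
  simp

theorem h_F_same (k : ℕ) (i j : ZMod (L k)) : M.h k j (F M k i) = if j = i then 1 else 0 := by
  unfold F
  rw [map_add, map_smul, h_Tw M k k le_rfl, M.h_f_same]
  simp

/-- projection of basis vectors -/
theorem Pr_f_lt (k m : ℕ) (h : m < k) (i : ZMod (L m)) : M.Pr k (M.f m i) = M.f m i := by
  rw [M.Pr_eq, sum_eq_single m]
  · rw [sum_eq_single i]
    · rw [M.h_f_same]; simp
    · intro b _ hb; rw [M.h_f_same, if_neg hb, zero_smul]
    · simp
  · intro b _ hb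
    exact sum_eq_zero fun j _ => by rw [M.h_f_ne b m j i hb, zero_smul]
  · intro hb; exact absurd (mem_range.2 h) hb

theorem Pr_f_ge (k m : ℕ) (h : k ≤ m) (i : ZMod (L m)) : M.Pr k (M.f m i) = 0 := by
  rw [M.Pr_eq]
  refine sum_eq_zero fun b hb => sum_eq_zero fun j _ => ?_
  rw [M.h_f_ne b m j i (by have := mem_range.1 hb; omega), zero_smul]

theorem Pr_Tw (n k : ℕ) (hk : n ≤ k) (i : ZMod (L n)) : M.Pr k (Tw M n i) = Tw M n i := by
  induction n using Nat.strong_induction_on generalizing k with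
  | _ n ih =>
  obtain ⟨c, h1, -⟩ := hm_Tw M n i
  rw [h1, map_sum]
  refine sum_congr rfl fun m hm => ?_
  have hm := mem_range.1 hm
  rw [map_sum]
  refine sum_congr rfl fun i' _ => ?_
  rw [map_smul]
  unfold F
  rw [map_add, map_smul, ih m hm k (by omega) i', Pr_f_lt M k m (by omega)]

theorem Pr_F (k m : ℕ) (h : m < k) (i : ZMod (L m)) : M.Pr k (F M m i) = F M m i := by
  unfold F
  rw [map_add, map_smul, Pr_Tw M m k h.le, Pr_f_lt M k m h]

theorem norm_Pr_Tw_le (b n : ℕ) (i : ZMod (L n)) : ‖M.Pr b (Tw M n i)‖ ≤ Wb n :=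
  (M.norm_Pr_le _ _).trans (norm_Tw_le M n i)

/-- vectors given by hat coordinates in blocks `< k` -/
noncomputable def vec (k : ℕ) (c : (m : ℕ) → ZMod (L m) → ℂ) : X :=
  ∑ m ∈ range k, ∑ i, c m i • F M m i

theorem vec_succ (k : ℕ) (c : (m : ℕ) → ZMod (L m) → ℂ) :
    vec M (k + 1) c = vec M k c + ∑ i, c k i • F M k i := by
  unfold vec; rw [sum_range_succ]

theorem iter_S_vec (t k : ℕ) (c : (m : ℕ) → ZMod (L m) → ℂ) :
    (⇑M.T.symm)^[t] (vec M k c) = ∑ m ∈ range k, ∑ i, c m i • F M m (i - t) := by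
  unfold vec
  rw [iter_S_sum]
  refine sum_congr rfl fun m _ => ?_
  rw [iter_S_sum]
  exact sum_congr rfl fun i _ => by rw [iter_S_smul, iter_S_F]

/-- Projection of the orbit of a vector to lower blocks -/
theorem Pr_iter_S_vec (t k : ℕ) (c : (m : ℕ) → ZMod (L m) → ℂ) :
    M.Pr k ((⇑M.T.symm)^[t] (vec M (k + 1) c)) =
      (⇑M.T.symm)^[t] (vec M k c) + ∑ i, (o k (i - t) * c k i) • Tw M k (i - t) := by
  rw [iter_S_vec, iter_S_vec, sum_range_succ, map_add, map_sum, map_sum]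
  congr 1
  · refine sum_congr rfl fun m hm => ?_
    rw [map_sum]
    exact sum_congr rfl fun i _ => by rw [map_smul, Pr_F M k m (mem_range.1 hm)]
  · refine sum_congr rfl fun i _ => ?_
    unfold F
    rw [map_smul, map_add, map_smul, Pr_f_ge M k k le_rfl, Pr_Tw M k k le_rfl, zero_add, smul_smul,
      mul_comm]

/-- top coordinates of the orbit -/
theorem h_iter_S_vec (t k : ℕ) (c : (m : ℕ) → ZMod (L m) → ℂ) (j : ZMod (L k)) :
    M.h k j ((⇑M.T.symm)^[t] (vec M (k + 1) c)) = c k (j + t) := by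
  rw [iter_S_vec, sum_range_succ, map_add, map_sum, map_sum]
  have h1 : ∑ m ∈ range k, M.h k j (∑ i, c m i • F M m (i - t)) = 0 := by
    refine sum_eq_zero fun m hm => ?_
    rw [map_sum]
    exact sum_eq_zero fun i _ => by
      rw [map_smul, h_F_ne M m k (mem_range.1 hm), smul_zero]
  rw [h1, zero_add, sum_eq_single (j + t)]
  · rw [map_smul, h_F_same]; simp
  · intro b _ hb
    rw [map_smul, h_F_same, if_neg (fun h => hb (by rw [h]; ring)), smul_zero]
  · simp

theorem bn_iter_S_vec (t k : ℕ) (c : (m : ℕ) → ZMod (L m) → ℂ) :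
    bn M k ((⇑M.T.symm)^[t] (vec M (k + 1) c)) = ∑ i, a k (i - t) * ‖c k i‖ := by
  unfold bn
  refine Fintype.sum_equiv (Equiv.addRight (t : ZMod (L k))) _ _ fun j => ?_
  rw [h_iter_S_vec]
  simp

theorem topnorm (t k : ℕ) (c : (m : ℕ) → ZMod (L m) → ℂ) :
    ∑ i, a k (i - t) * ‖c k i‖ ≤ ‖(⇑M.T.symm)^[t] (vec M (k + 1) c)‖ := by
  rw [← bn_iter_S_vec M t k c]; exact bn_le M _ _

/-- total mass -/
noncomputable def mass {n : ℕ} (φ : ZMod (L n) → ℂ) : ℝ := ∑ i, ‖φ i‖

theorem mass_nonneg {n : ℕ} (φ : ZMod (L n) → ℂ) : 0 ≤ mass φ := sum_nonneg fun _ _ => norm_nonneg _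

theorem norm_o_le (n : ℕ) (i : ZMod (L n)) : ‖o n i‖ ≤ 1 := by
  rw [o_eq]; split_ifs <;> simp

theorem norm_o_sub_le (n : ℕ) (i j : ZMod (L n)) : ‖o n i - o n j‖ ≤ 1 := by
  rw [o_eq, o_eq]; split_ifs <;> simp

/-- ignoring a light top block -/
theorem inactive_norm (t k : ℕ) (c : (m : ℕ) → ZMod (L m) → ℂ) :
    ‖(⇑M.T.symm)^[t] (vec M k c)‖ ≤ ‖(⇑M.T.symm)^[t] (vec M (k + 1) c)‖ + mass (c k) * Wb k := by
  have h1 := Pr_iter_S_vec M t k c
  have h2 : ‖∑ i, (o k (i - t) * c k i) • Tw M k (i - t)‖ ≤ mass (c k) * Wb k := by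
    unfold mass
    rw [sum_mul]
    refine (norm_sum_le _ _).trans (sum_le_sum fun i _ => ?_)
    rw [norm_smul, norm_mul]
    have := norm_o_le k (i - t)
    have h3 : ‖o k (i - t)‖ * ‖c k i‖ ≤ ‖c k i‖ := by
      have := norm_nonneg (c k i); nlinarith
    exact mul_le_mul h3 (norm_Tw_le M k _) (norm_nonneg _) (norm_nonneg _)
  have h3 : (⇑M.T.symm)^[t] (vec M k c) = M.Pr k ((⇑M.T.symm)^[t] (vec M (k + 1) c)) -
      ∑ i, (o k (i - t) * c k i) • Tw M k (i - t) := by rw [h1]; abel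
  rw [h3]
  refine (norm_sub_le _ _).trans (add_le_add (M.norm_Pr_le _ _) h2)

/-- comparison of the true orbit with the orbit started at an intermediate time -/
theorem compare_norm (s r k : ℕ) (c : (m : ℕ) → ZMod (L m) → ℂ) (hr : r + Z k ≤ N k) :
    ‖(⇑M.T.symm)^[r] (M.Pr k ((⇑M.T.symm)^[s] (vec M (k + 1) c)))‖ ≤
      ‖(⇑M.T.symm)^[s + r] (vec M (k + 1) c)‖ * (1 + Wb k / H k) := by
  have hH := H_pos k
  have hW := Wb_pos k
  have h1 : (⇑M.T.symm)^[r] (M.Pr k ((⇑M.T.symm)^[s] (vec M (k + 1) c))) =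
      M.Pr k ((⇑M.T.symm)^[s + r] (vec M (k + 1) c)) -
        ∑ i, ((o k (i - (s + r : ℕ)) - o k (i - s)) * c k i) • Tw M k (i - (s + r : ℕ)) := by
    rw [Pr_iter_S_vec, Pr_iter_S_vec, iter_S_add, iter_S_sum]
    have h2 : (⇑M.T.symm)^[r] ((⇑M.T.symm)^[s] (vec M k c)) = (⇑M.T.symm)^[s + r] (vec M k c) := by
      rw [← Function.iterate_add_apply, add_comm]
    rw [h2, add_sub_assoc, ← sum_sub_distrib]
    congr 1
    refine sum_congr rfl fun i _ => ?_
    rw [iter_S_smul, iter_S_Tw, ← sub_smul]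
    have h3 : i - (s : ZMod (L k)) - (r : ZMod (L k)) = i - ((s + r : ℕ) : ZMod (L k)) := by
      push_cast; ring
    rw [h3]
    congr 1
    ring
  have h2 : ‖∑ i, ((o k (i - (s + r : ℕ)) - o k (i - s)) * c k i) • Tw M k (i - (s + r : ℕ))‖ ≤
      (Wb k / H k) * ‖(⇑M.T.symm)^[s + r] (vec M (k + 1) c)‖ := by
    have h3 : ‖∑ i, ((o k (i - (s + r : ℕ)) - o k (i - s)) * c k i) • Tw M k (i - (s + r : ℕ))‖ ≤
        ∑ i, (Wb k / H k) * (a k (i - (s + r : ℕ)) * ‖c k i‖) := by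
      refine (norm_sum_le _ _).trans (sum_le_sum fun i _ => ?_)
      rw [norm_smul, norm_mul]
      by_cases ho : o k (i - (s + r : ℕ)) = o k (i - s)
      · rw [ho, sub_self, norm_zero, zero_mul, zero_mul]
        have := a_pos k (i - (s + r : ℕ))
        positivity
      · have h4 : i - ((s + r : ℕ) : ZMod (L k)) = (i - (s : ZMod (L k))) - (r : ZMod (L k)) := by
          push_cast; ring
        have h5 : a k (i - (s + r : ℕ)) = H k := by
          rw [h4]
          exact a_sub_of_ne hr (by rw [← h4]; exact ho)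
        rw [h5]
        have h6 := norm_o_sub_le k (i - (s + r : ℕ)) (i - s)
        have h7 := norm_Tw_le M k (i - (s + r : ℕ))
        have h8 : (Wb k / H k) * (H k * ‖c k i‖) = ‖c k i‖ * Wb k := by field_simp
        rw [h8]
        have h9 : ‖o k (i - (s + r : ℕ)) - o k (i - s)‖ * ‖c k i‖ ≤ ‖c k i‖ := by
          have := norm_nonneg (c k i); nlinarith
        exact mul_le_mul h9 h7 (norm_nonneg _) (norm_nonneg _)
    rw [← mul_sum] at h3
    refine h3.trans (mul_le_mul_of_nonneg_left (topnorm M _ _ _) (by positivity))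
  rw [h1]
  refine (norm_sub_le _ _).trans ?_
  have h3 := M.norm_Pr_le k ((⇑M.T.symm)^[s + r] (vec M (k + 1) c))
  nlinarith

end Pool.Agent.H3.FH
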