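import Pool.Agent.H3.FH.BwdA

set_option autoImplicit false

namespace Pool.Agent.H3.FH

open Finset

/-- splitting a sum over a multiple of the period -/
theorem sum_range_mul {β : Type} [AddCommMonoid β] (q P : ℕ) (g : ℕ → β) :
    ∑ t ∈ range (q * P), g t = ∑ u ∈ range q, ∑ r ∈ range P, g (u * P + r) := by
  induction q with
  | zero => simp
  | succ q ih => rw [Nat.succ_mul, sum_range_add, ih, sum_range_succ]

/-- sums over a period of a function on `ZMod` -/
theorem sum_range_zmod (n : ℕ) (g : ZMod (L n) → ℝ) :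
    ∑ t ∈ range (L n), g (t : ZMod (L n)) = ∑ i, g i := by
  refine sum_bij' (fun t _ => (t : ZMod (L n))) (fun i _ => i.val) (fun _ _ => mem_univ _)
    (fun i _ => mem_range.2 (ZMod.val_lt i)) (fun t ht => ?_) (fun i _ => ?_) (fun _ _ => rfl)
  · rw [ZMod.val_natCast, Nat.mod_eq_of_lt (mem_range.1 ht)]
  · exact ZMod.natCast_zmod_val i

/-- number of positions with small offset -/
theorem card_of_lt (n K : ℕ) : (univ.filter fun s : ZMod (L n) => of n s < K).card ≤ 2 * K := by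
  classical
  have h1 : (univ.filter fun s : ZMod (L n) => of n s < K).card =
      ((univ.filter fun s : ZMod (L n) => of n s < K).image (qq n)).card := by
    rw [card_image_of_injective]
    intro x y hxy
    unfold qq at hxy
    exact add_right_cancel (ZMod.val_injective _ hxy)
  have h2 : (univ.filter fun s : ZMod (L n) => of n s < K).image (qq n) ⊆
      range K ∪ (range K).image (fun x => x + N n) := by
    intro q hq
    obtain ⟨s, hs, rfl⟩ := mem_image.1 hq
    have hs := (mem_filter.1 hs).2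
    rw [mem_union, mem_range, mem_image]
    by_cases h : N n ≤ qq n s
    · right
      rw [of_of_ge h] at hs
      exact ⟨qq n s - N n, mem_range.2 hs, by omega⟩
    · left
      rwa [of_of_lt (by omega)] at hs
  rw [h1]
  refine (card_le_card h2).trans ((card_union_le _ _).trans ?_)
  have := card_image_le (s := range K) (f := fun x => x + N n)
  rw [card_range] at *
  omega

variable {X : Type} [NormedAddCommGroup X] [NormedSpace ℂ X] (M : Model X)

open Classical in
/-- number of good times in a period -/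
noncomputable def Cnt (k : ℕ) (y : X) (ρ : ℝ) : ℕ :=
  ((range (L k)).filter fun t => ‖(⇑M.T.symm)^[t] y‖ ≤ ρ).card

theorem Cnt_le (k : ℕ) (y : X) (ρ : ℝ) : Cnt M k y ρ ≤ L k := by
  unfold Cnt
  exact (card_filter_le _ _).trans (by rw [card_range])

theorem Cnt_mono (k : ℕ) (y : X) {ρ ρ' : ℝ} (h : ρ ≤ ρ') : Cnt M k y ρ ≤ Cnt M k y ρ' := by
  unfold Cnt
  refine card_le_card fun t ht => ?_
  rw [mem_filter] at *
  exact ⟨ht.1, ht.2.trans h⟩

/-- periodicity of orbits -/
theorem iter_S_vec_add (k s r : ℕ) (c : (m : ℕ) → ZMod (L m) → ℂ) (hs : ∀ m < k, L m ∣ s) :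
    (⇑M.T.symm)^[s + r] (vec M k c) = (⇑M.T.symm)^[r] (vec M k c) := by
  rw [iter_S_vec, iter_S_vec]
  refine sum_congr rfl fun m hm => sum_congr rfl fun i _ => ?_
  have : ((s + r : ℕ) : ZMod (L m)) = (r : ZMod (L m)) := by
    push_cast
    rw [(ZMod.natCast_eq_zero_iff _ _).2 (hs m (mem_range.1 hm)), zero_add]
  rw [this]

theorem L_eq_mul (k : ℕ) : ∃ q, 0 < q ∧ L (k + 1) = q * L k := by
  obtain ⟨q, hq⟩ := L_dvd (show k ≤ k + 1 by omega)
  refine ⟨q, ?_, by rw [hq, mul_comm]⟩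
  rcases Nat.eq_zero_or_pos q with h | h
  · rw [h, mul_zero] at hq
    exact absurd hq (L_pos _).ne'
  · exact h

/-- The inactive step. -/
theorem inactive_step (k : ℕ) (c : (m : ℕ) → ZMod (L m) → ℂ) (ρ β : ℝ)
    (hβ : (Cnt M k (vec M (k + 1) c) (ρ + mass (c (k + 1)) * Wb (k + 1)) : ℝ) ≤ β * L k) :
    (Cnt M (k + 1) (vec M (k + 2) c) ρ : ℝ) ≤ β * L (k + 1) := by
  classical
  obtain ⟨q, hq0, hq⟩ := L_eq_mul k
  have h1 : Cnt M (k + 1) (vec M (k + 2) c) ρ ≤
      q * Cnt M k (vec M (k + 1) c) (ρ + mass (c (k + 1)) * Wb (k + 1)) := by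
    unfold Cnt
    rw [card_filter, card_filter, hq, sum_range_mul, ← smul_eq_mul (a := q)]
    calc _ ≤ ∑ u ∈ range q, ∑ r ∈ range (L k),
        (if ‖(⇑M.T.symm)^[r] (vec M (k + 1) c)‖ ≤ ρ + mass (c (k + 1)) * Wb (k + 1) then 1 else 0) := by
          refine sum_le_sum fun u _ => sum_le_sum fun r _ => ?_
          split_ifs with h2 h3
          · exact le_rfl
          · exfalso; apply h3
            have h4 := inactive_norm M (u * L k + r) (k + 1) c
            rw [iter_S_vec_add M (k + 1) (u * L k) r c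
              (fun m hm => (L_dvd (by omega)).trans (dvd_mul_left _ _))] at h4
            linarith
          · exact Nat.zero_le _
          · exact le_rfl
      _ = _ := by rw [sum_const, card_range]
  calc (Cnt M (k + 1) (vec M (k + 2) c) ρ : ℝ) ≤
      ((q * Cnt M k (vec M (k + 1) c) (ρ + mass (c (k + 1)) * Wb (k + 1)) : ℕ) : ℝ) := by
        exact_mod_cast h1
    _ = q * (Cnt M k (vec M (k + 1) c) (ρ + mass (c (k + 1)) * Wb (k + 1)) : ℝ) := by push_cast; ring
    _ ≤ q * (β * L k) := mul_le_mul_of_nonneg_left hβ (by positivity)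
    _ = β * L (k + 1) := by rw [hq]; push_cast; ring

/-- mass at small offsets -/
noncomputable def G (k : ℕ) (φ : ZMod (L k) → ℂ) (K : ℕ) (s : ZMod (L k)) : ℝ :=
  ∑ i, ‖φ i‖ * (if of k (i - s) < K then 1 else 0)

theorem sum_G_le (k : ℕ) (φ : ZMod (L k) → ℂ) (K : ℕ) (d : ZMod (L k)) :
    ∑ t ∈ range (L k), G k φ K ((t : ZMod (L k)) - d) ≤ 2 * K * mass φ := by
  classical
  unfold G
  rw [sum_comm]
  unfold mass
  rw [mul_sum]
  refine sum_le_sum fun i _ => ?_
  rw [← mul_sum, mul_comm]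
  refine mul_le_mul_of_nonneg_right ?_ (norm_nonneg _)
  have h1 := sum_range_zmod k (fun t => if of k (i - (t - d)) < K then (1 : ℝ) else 0)
  rw [h1]
  have h2 : ∑ t : ZMod (L k), (if of k (i - (t - d)) < K then (1 : ℝ) else 0) =
      ∑ s : ZMod (L k), (if of k s < K then (1 : ℝ) else 0) := by
    refine Fintype.sum_equiv (Equiv.subLeft (i + d)) _ _ fun t => ?_
    rw [Equiv.subLeft_apply, show i - (t - d) = i + d - t by ring]
  rw [h2, ← sum_filter, sum_const, nsmul_eq_mul, mul_one]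
  exact_mod_cast card_of_lt k K

/-- at a good time most of the mass sits at small offsets -/
theorem G_ge (t k : ℕ) (c : (m : ℕ) → ZMod (L m) → ℂ)
    (hA : 8 / H k ≤ mass (c k)) (ht : ‖(⇑M.T.symm)^[t] (vec M (k + 1) c)‖ ≤ 2) :
    3 / 4 * mass (c k) ≤ G k (c k) (Z k) (t : ZMod (L k)) := by
  have hH := H_pos k
  have h1 := (topnorm M t k c).trans ht
  have h2 : mass (c k) - G k (c k) (Z k) (t : ZMod (L k)) ≤ 2 / H k := by
    rw [le_div_iff₀ hH]
    refine le_trans ?_ h1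
    unfold mass G
    rw [← sum_sub_distrib, sum_mul]
    refine sum_le_sum fun i _ => ?_
    split_ifs with h
    · have := a_pos k (i - t)
      rw [mul_one, sub_self, zero_mul]; positivity
    · rw [mul_zero, sub_zero, a_eq_H (by omega), mul_comm]
  have h3 : 2 / H k = (8 / H k) / 4 := by ring
  linarith

theorem G_window (k P t t' : ℕ) (φ : ZMod (L k) → ℂ) (h1 : t < t' + P) (h2 : t' < t + P) :
    G k φ (Z k) (t : ZMod (L k)) ≤ G k φ (Z k + 2 * P) ((t' : ZMod (L k)) - (P : ZMod (L k))) := by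
  unfold G
  refine sum_le_sum fun i _ => mul_le_mul_of_nonneg_left ?_ (norm_nonneg _)
  by_cases h : of k (i - t) < Z k
  · rw [if_pos h, if_pos]
    obtain ⟨d, hd⟩ : ∃ d : ℕ, d + t' = t + P := ⟨t + P - t', by omega⟩
    have h3 : i - ((t' : ZMod (L k)) - (P : ZMod (L k))) = (i - t) + (d : ZMod (L k)) := by
      have : ((d + t' : ℕ) : ZMod (L k)) = ((t + P : ℕ) : ZMod (L k)) := by rw [hd]
      push_cast at this
      have h4 : (d : ZMod (L k)) = t + P - t' := by rw [← this]; ring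
      rw [h4]; ring
    rw [h3, of_add]
    refine lt_of_le_of_lt (Nat.mod_le _ _) ?_
    omega
  · rw [if_neg h]; split_ifs <;> norm_num

/-- The active step. -/
theorem active_step (k : ℕ) (c : (m : ℕ) → ZMod (L m) → ℂ) (ρ β : ℝ) (hρ : ρ ≤ 2) (hβ0 : 0 ≤ β)
    (hA : 8 / H (k + 1) ≤ mass (c (k + 1)))
    (hβ : ∀ u : ℕ, (Cnt M k (M.Pr (k + 1) ((⇑M.T.symm)^[u * L k] (vec M (k + 2) c)))
      (ρ * (1 + Wb (k + 1) / H (k + 1))) : ℝ) ≤ β * L k) :
    (Cnt M (k + 1) (vec M (k + 2) c) ρ : ℝ) ≤ 8 / 3 * (Z (k + 1) + 2 * L k) * β := by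
  classical
  obtain ⟨q, hq0, hq⟩ := L_eq_mul k
  have hH := H_pos (k + 1)
  have hP := L_pos k
  have hmass : 0 < mass (c (k + 1)) := lt_of_lt_of_le (by positivity) hA
  set y := vec M (k + 2) c with hy
  set 𝒰 := (range q).filter fun u => ∃ r < L k, ‖(⇑M.T.symm)^[u * L k + r] y‖ ≤ ρ with h𝒰
  -- bound of 𝒰
  have hU : ((𝒰.card : ℝ)) * L k ≤ 8 / 3 * (Z (k + 1) + 2 * L k) := by
    have h1 : ∀ u ∈ 𝒰, ∀ r ∈ range (L k), 3 / 4 * mass (c (k + 1)) ≤
        G (k + 1) (c (k + 1)) (Z (k + 1) + 2 * L k)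
          (((u * L k + r : ℕ) : ZMod (L (k + 1))) - ((L k : ℕ) : ZMod (L (k + 1)))) := by
      intro u hu r' hr'
      obtain ⟨r, hr, hr2⟩ := (mem_filter.1 hu).2
      have hr' := mem_range.1 hr'
      exact (G_ge M _ (k + 1) c hA (hr2.trans hρ)).trans
        (G_window (k + 1) (L k) (u * L k + r) (u * L k + r') _ (by omega) (by omega))
    have h2 : ((𝒰.card : ℝ)) * L k * (3 / 4 * mass (c (k + 1))) ≤
        ∑ u ∈ 𝒰, ∑ r ∈ range (L k), G (k + 1) (c (k + 1)) (Z (k + 1) + 2 * L k)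
          (((u * L k + r : ℕ) : ZMod (L (k + 1))) - ((L k : ℕ) : ZMod (L (k + 1)))) := by
      calc ((𝒰.card : ℝ)) * L k * (3 / 4 * mass (c (k + 1))) =
          ∑ u ∈ 𝒰, ∑ r ∈ range (L k), 3 / 4 * mass (c (k + 1)) := by
            rw [sum_const, sum_const, card_range, nsmul_eq_mul, nsmul_eq_mul]; ring
        _ ≤ _ := sum_le_sum fun u hu => sum_le_sum fun r hr => h1 u hu r hr
    have h3 : ∑ u ∈ 𝒰, ∑ r ∈ range (L k), G (k + 1) (c (k + 1)) (Z (k + 1) + 2 * L k)
          (((u * L k + r : ℕ) : ZMod (L (k + 1))) - ((L k : ℕ) : ZMod (L (k + 1)))) ≤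
        2 * ((Z (k + 1) + 2 * L k : ℕ) : ℝ) * mass (c (k + 1)) := by
      refine le_trans ?_ (sum_G_le (k + 1) (c (k + 1)) (Z (k + 1) + 2 * L k) ((L k : ℕ) : ZMod (L (k + 1))))
      rw [congrArg range hq, sum_range_mul]
      refine sum_le_sum_of_subset_of_nonneg (filter_subset _ _) fun u _ _ => sum_nonneg fun r _ => ?_
      unfold G
      refine sum_nonneg fun i _ => mul_nonneg (norm_nonneg _) ?_
      split_ifs <;> norm_num
    have h4 := h2.trans h3
    push_cast at h4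
    have h5 : ((𝒰.card : ℝ)) * L k * (3 / 4) ≤ 2 * (Z (k + 1) + 2 * L k) := by
      rw [← mul_le_mul_iff_left₀ hmass]
      linarith
    linarith
  have h6 : (Cnt M (k + 1) y ρ : ℝ) ≤ 𝒰.card * (β * L k) := by
    have h7 : Cnt M (k + 1) y ρ ≤ ∑ u ∈ 𝒰, Cnt M k (M.Pr (k + 1) ((⇑M.T.symm)^[u * L k] y))
        (ρ * (1 + Wb (k + 1) / H (k + 1))) := by
      have h8 : Cnt M (k + 1) y ρ = ∑ u ∈ range q, ∑ r ∈ range (L k),
          (if ‖(⇑M.T.symm)^[u * L k + r] y‖ ≤ ρ then 1 else 0) := by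
        unfold Cnt
        rw [card_filter, hq, sum_range_mul]
      rw [h8, ← sum_filter_add_sum_filter_not (range q) (fun u => ∃ r < L k, ‖(⇑M.T.symm)^[u * L k + r] y‖ ≤ ρ)]
      rw [← h𝒰]
      have h9 : ∑ u ∈ (range q).filter (fun u => ¬ ∃ r < L k, ‖(⇑M.T.symm)^[u * L k + r] y‖ ≤ ρ),
          ∑ r ∈ range (L k), (if ‖(⇑M.T.symm)^[u * L k + r] y‖ ≤ ρ then 1 else 0) = 0 := by
        refine sum_eq_zero fun u hu => sum_eq_zero fun r hr => ?_
        rw [if_neg]
        intro hh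
        exact (mem_filter.1 hu).2 ⟨r, mem_range.1 hr, hh⟩
      rw [h9, add_zero]
      refine sum_le_sum fun u _ => ?_
      unfold Cnt
      rw [card_filter]
      refine sum_le_sum fun r hr => ?_
      split_ifs with ha hb
      · exact le_rfl
      · exfalso; apply hb
        have hr := mem_range.1 hr
        have hZ : r + Z (k + 1) ≤ N (k + 1) := by
          have := two_Z_le_N (k + 1)
          have h10 := L_lt (show k < k + 1 by omega)
          rw [L_eq_two_mul_N (k + 1)] at h10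
          omega
        refine (compare_norm M (u * L k) r (k + 1) c hZ).trans ?_
        have := Wb_pos (k + 1)
        exact mul_le_mul_of_nonneg_right ha (by positivity)
      · exact Nat.zero_le _
      · exact le_rfl
    calc (Cnt M (k + 1) y ρ : ℝ) ≤ ((∑ u ∈ 𝒰, Cnt M k (M.Pr (k + 1) ((⇑M.T.symm)^[u * L k] y))
        (ρ * (1 + Wb (k + 1) / H (k + 1))) : ℕ) : ℝ) := by exact_mod_cast h7
      _ = ∑ u ∈ 𝒰, (Cnt M k (M.Pr (k + 1) ((⇑M.T.symm)^[u * L k] y))
        (ρ * (1 + Wb (k + 1) / H (k + 1))) : ℝ) := by push_cast; rfl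
      _ ≤ ∑ u ∈ 𝒰, β * L k := sum_le_sum fun u _ => hβ u
      _ = 𝒰.card * (β * L k) := by rw [sum_const, nsmul_eq_mul]
  calc (Cnt M (k + 1) y ρ : ℝ) ≤ 𝒰.card * (β * L k) := h6
    _ = (𝒰.card * L k) * β := by ring
    _ ≤ 8 / 3 * (Z (k + 1) + 2 * L k) * β := mul_le_mul_of_nonneg_right hU hβ0

end Pool.Agent.H3.FH
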