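import Pool.Agent.H3.FH.BwdB

set_option autoImplicit false

namespace Pool.Agent.H3.FH

open Finset

/-- push-forward of a function on the cycle `k` to the cycle `m` -/
noncomputable def push (m k : ℕ) (φ : ZMod (L k) → ℂ) (j : ZMod (L m)) : ℂ :=
  ∑ i, φ i * (if ((i.val : ℕ) : ZMod (L m)) = j then 1 else 0)

theorem push_add (m k : ℕ) (φ ψ : ZMod (L k) → ℂ) (j : ZMod (L m)) :
    push m k (fun i => φ i + ψ i) j = push m k φ j + push m k ψ j := by
  unfold push; rw [← sum_add_distrib]; exact sum_congr rfl fun i _ => by ring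

theorem push_sub (m k : ℕ) (φ ψ : ZMod (L k) → ℂ) (j : ZMod (L m)) :
    push m k (fun i => φ i - ψ i) j = push m k φ j - push m k ψ j := by
  unfold push; rw [← sum_sub_distrib]; exact sum_congr rfl fun i _ => by ring

theorem push_neg (m k : ℕ) (φ : ZMod (L k) → ℂ) (j : ZMod (L m)) :
    push m k (fun i => - φ i) j = - push m k φ j := by
  unfold push; rw [← sum_neg_distrib]; exact sum_congr rfl fun i _ => by ring

theorem push_sum {ι : Type} (s : Finset ι) (m k : ℕ) (φ : ι → ZMod (L k) → ℂ) (j : ZMod (L m)) :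
    push m k (fun i => ∑ x ∈ s, φ x i) j = ∑ x ∈ s, push m k (φ x) j := by
  unfold push; rw [sum_comm]; exact sum_congr rfl fun i _ => by rw [sum_mul]

theorem push_push (m m' k : ℕ) (hm : m ≤ m') (φ : ZMod (L k) → ℂ) :
    push m m' (push m' k φ) = push m k φ := by
  funext j
  unfold push
  simp_rw [sum_mul]
  rw [sum_comm]
  refine sum_congr rfl fun i _ => ?_
  rw [sum_eq_single ((i.val : ℕ) : ZMod (L m'))]
  · rw [if_pos rfl, mul_one]
    have : (((((i.val : ℕ) : ZMod (L m'))).val : ℕ) : ZMod (L m)) = ((i.val : ℕ) : ZMod (L m)) := by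
      rw [ZMod.val_natCast, ZMod.natCast_eq_natCast_iff]
      exact (Nat.mod_modEq _ _).of_dvd (L_dvd hm)
    rw [this]
  · intro b _ hb
    rw [if_neg (fun h => hb h.symm)]; ring
  · simp

theorem mass_push_le (m k : ℕ) (φ : ZMod (L k) → ℂ) : mass (push m k φ) ≤ mass φ := by
  unfold mass push
  calc ∑ j, ‖∑ i, φ i * (if ((i.val : ℕ) : ZMod (L m)) = j then 1 else 0)‖ ≤
      ∑ j : ZMod (L m), ∑ i, ‖φ i‖ * (if ((i.val : ℕ) : ZMod (L m)) = j then 1 else 0) := by
        refine sum_le_sum fun j _ => (norm_sum_le _ _).trans (sum_le_sum fun i _ => ?_)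
        rw [norm_mul]
        split_ifs <;> simp
    _ = ∑ i, ‖φ i‖ := by
        rw [sum_comm]
        refine sum_congr rfl fun i _ => ?_
        rw [← mul_sum]; simp

theorem mass_add_le {n : ℕ} (φ ψ : ZMod (L n) → ℂ) : mass (fun j => φ j + ψ j) ≤ mass φ + mass ψ := by
  unfold mass; rw [← sum_add_distrib]; exact sum_le_sum fun i _ => norm_add_le _ _

theorem mass_sub_le {n : ℕ} (φ ψ : ZMod (L n) → ℂ) : mass (fun j => φ j - ψ j) ≤ mass φ + mass ψ := by
  unfold mass; rw [← sum_add_distrib]; exact sum_le_sum fun i _ => norm_sub_le _ _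

theorem mass_neg {n : ℕ} (φ : ZMod (L n) → ℂ) : mass (fun j => - φ j) = mass φ := by
  unfold mass; exact sum_congr rfl fun i _ => norm_neg _

theorem mass_mul_le {n : ℕ} (φ ψ : ZMod (L n) → ℂ) (h : ∀ j, ‖ψ j‖ ≤ 1) :
    mass (fun j => ψ j * φ j) ≤ mass φ := by
  unfold mass
  refine sum_le_sum fun i _ => ?_
  rw [norm_mul]
  have := norm_nonneg (φ i)
  have := h i
  nlinarith

theorem mass_sum_le {ι : Type} {n : ℕ} (s : Finset ι) (φ : ι → ZMod (L n) → ℂ) :
    mass (fun j => ∑ x ∈ s, φ x j) ≤ ∑ x ∈ s, mass (φ x) := by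
  unfold mass
  rw [sum_comm]
  exact sum_le_sum fun i _ => norm_sum_le _ _

variable {X : Type} [NormedAddCommGroup X] [NormedSpace ℂ X] (M : Model X)

/-- iterates of `T` on differences -/
theorem iter_T_sub (t : ℕ) (v v' : X) :
    (⇑M.T)^[t] (v - v') = (⇑M.T)^[t] v - (⇑M.T)^[t] v' := by
  induction t with
  | zero => simp
  | succ t ih => rw [Function.iterate_succ_apply', ih, map_sub, Function.iterate_succ_apply',
      Function.iterate_succ_apply']

theorem nu_le (i : ℕ) : padicValNat 2 (i + 1) ≤ i := by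
  have h1 : 2 ^ padicValNat 2 (i + 1) ≤ i + 1 := Nat.le_of_dvd (by omega) pow_padicValNat_dvd
  have h2 : padicValNat 2 (i + 1) < 2 ^ padicValNat 2 (i + 1) := Nat.lt_two_pow_self
  omega

/-- explicit expansion of the seam vectors of odd blocks -/
theorem w_odd_F (i : ℕ) : M.w (2 * i + 1) =
    F M (2 * padicValNat 2 (i + 1)) 0 - ∑ m ∈ range i, F M (2 * m + 1) 0 := by
  rw [M.w_odd, F_zero]
  congr 1
  exact sum_congr rfl fun m _ => (F_zero M _).symm

/-- hat coordinates of the seam vectors -/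
theorem exists_omega (n : ℕ) : ∃ ω : (m : ℕ) → ZMod (L m) → ℂ,
    M.w n = ∑ m ∈ range n, ∑ j, ω m j • F M m j ∧
    ∑ m ∈ range n, ∑ j, ‖ω m j‖ ≤ Cb n ∧
    (n % 2 = 1 → ∀ m < n, m % 2 = 1 → ∀ j, ω m j = - (if j = 0 then 1 else 0)) := by
  classical
  rcases Nat.even_or_odd' n with ⟨i, rfl | rfl⟩
  · obtain ⟨c, h1, h2⟩ := hm_w M (2 * i)
    exact ⟨c, h1, h2, fun h => by omega⟩
  · set g := 2 * padicValNat 2 (i + 1) with hg
    have hgi : g ≤ 2 * i := by have := nu_le i; omega
    refine ⟨fun m j => if j = 0 then (if m = g then 1 else if m % 2 = 1 then -1 else 0) else 0, ?_, ?_, ?_⟩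
    · rw [w_odd_F]
      have h1 : ∀ m ∈ range (2 * i + 1), ∑ j : ZMod (L m), ((if j = 0 then (if m = g then (1 : ℂ)
          else if m % 2 = 1 then -1 else 0) else 0)) • F M m j =
          (if m = g then F M m 0 else 0) + (if m % 2 = 1 then - F M m 0 else 0) := by
        intro m _
        rw [sum_eq_single (0 : ZMod (L m))]
        · rw [if_pos rfl]
          by_cases h2 : m = g
          · have h3 : ¬ m % 2 = 1 := by omega
            rw [if_pos h2, if_pos h2, if_neg h3, one_smul, add_zero]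
          · rw [if_neg h2, if_neg h2, zero_add]
            split_ifs <;> simp
        · intro b _ hb; rw [if_neg hb, zero_smul]
        · simp
      rw [sum_congr rfl h1, sum_add_distrib, sum_ite_eq' (range (2 * i + 1)) g,
        if_pos (mem_range.2 (by omega)), sub_eq_add_neg]
      congr 1
      have h4 : ∀ i : ℕ, ∑ m ∈ range (2 * i + 1), (if m % 2 = 1 then - F M m 0 else 0) =
          - ∑ m ∈ range i, F M (2 * m + 1) 0 := by
        intro i
        induction i with
        | zero => simp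
        | succ i ih =>
          rw [show 2 * (i + 1) + 1 = (2 * i + 1) + 1 + 1 by ring, sum_range_succ, sum_range_succ, ih,
            sum_range_succ, if_pos (by omega), if_neg (by omega)]
          abel
      rw [h4]
    · have h1 : ∀ m ∈ range (2 * i + 1), ∑ j : ZMod (L m), ‖(if j = 0 then (if m = g then (1 : ℂ)
          else if m % 2 = 1 then -1 else 0) else 0)‖ ≤ 1 := by
        intro m _
        rw [sum_eq_single (0 : ZMod (L m))]
        · rw [if_pos rfl]; split_ifs <;> simp
        · intro b _ hb; rw [if_neg hb, norm_zero]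
        · simp
      refine (sum_le_sum h1).trans ?_
      rw [sum_const, card_range, nsmul_eq_mul, mul_one]
      unfold Cb
      have h5 : 2 * i + 1 ≤ (2 * i + 1) ^ 2 := by nlinarith
      have h6 : (2 * i + 1) ^ 2 < 2 ^ ((2 * i + 1) ^ 2) := Nat.lt_two_pow_self
      exact_mod_cast (h5.trans h6.le)
    · intro _ m _ hm j
      have : m ≠ g := by omega
      simp only [this, if_false, hm, if_true]
      split_ifs <;> simp

/-- chosen hat coordinates of the seam vectors -/
noncomputable def om (n : ℕ) : (m : ℕ) → ZMod (L m) → ℂ := (exists_omega M n).choose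

theorem om_spec (n : ℕ) : M.w n = ∑ m ∈ range n, ∑ j, om M n m j • F M m j :=
  (exists_omega M n).choose_spec.1

theorem om_mass (n : ℕ) : ∑ m ∈ range n, ∑ j, ‖om M n m j‖ ≤ Cb n :=
  (exists_omega M n).choose_spec.2.1

theorem om_odd (n : ℕ) (hn : n % 2 = 1) (m : ℕ) (hm : m < n) (hm2 : m % 2 = 1) (j : ZMod (L m)) :
    om M n m j = - (if j = 0 then 1 else 0) :=
  (exists_omega M n).choose_spec.2.2 hn m hm hm2 j

theorem om_mass_single (n m : ℕ) (hm : m < n) : mass (om M n m) ≤ Cb n := by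
  refine le_trans ?_ (om_mass M n)
  exact single_le_sum (f := fun m => ∑ j, ‖om M n m j‖) (fun m _ => sum_nonneg fun _ _ => norm_nonneg _)
    (mem_range.2 hm)

/-- hat coordinates in block `m` of `∑ φ i • Tw n i` -/
noncomputable def cv (n m : ℕ) (φ : ZMod (L n) → ℂ) (j : ZMod (L m)) : ℂ :=
  ∑ i, φ i * om M n m (j - ((i.val : ℕ) : ZMod (L m)))

theorem Tw_expand (n : ℕ) (i : ZMod (L n)) : Tw M n i =
    ∑ m ∈ range n, ∑ j, om M n m (j - ((i.val : ℕ) : ZMod (L m))) • F M m j := by
  unfold Tw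
  conv_lhs => rw [om_spec M n]
  rw [iter_sum']
  refine sum_congr rfl fun m _ => ?_
  rw [iter_sum]
  refine Fintype.sum_equiv (Equiv.addRight ((i.val : ℕ) : ZMod (L m))) _ _ fun j => ?_
  rw [iter_T_F]
  simp

theorem sum_Tw (n : ℕ) (φ : ZMod (L n) → ℂ) :
    ∑ i, φ i • Tw M n i = ∑ m ∈ range n, ∑ j, cv M n m φ j • F M m j := by
  have h1 : ∀ i ∈ (univ : Finset (ZMod (L n))), φ i • Tw M n i =
      ∑ m ∈ range n, ∑ j, (φ i * om M n m (j - ((i.val : ℕ) : ZMod (L m)))) • F M m j := by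
    intro i _
    rw [Tw_expand, smul_sum]
    refine sum_congr rfl fun m _ => ?_
    rw [smul_sum]
    exact sum_congr rfl fun j _ => by rw [smul_smul]
  rw [sum_congr rfl h1, sum_comm]
  refine sum_congr rfl fun m _ => ?_
  rw [sum_comm]
  refine sum_congr rfl fun j _ => ?_
  rw [← sum_smul]; rfl

theorem cv_odd (n m : ℕ) (hn : n % 2 = 1) (hm : m < n) (hm2 : m % 2 = 1) (φ : ZMod (L n) → ℂ)
    (j : ZMod (L m)) : cv M n m φ j = - push m n φ j := by
  unfold cv push
  rw [← sum_neg_distrib]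
  refine sum_congr rfl fun i _ => ?_
  rw [om_odd M n hn m hm hm2, mul_neg]
  congr 2
  by_cases h : ((i.val : ℕ) : ZMod (L m)) = j
  · rw [if_pos h, if_pos (by rw [h, sub_self])]
  · rw [if_neg h, if_neg (fun h' => h (sub_eq_zero.1 h').symm)]

theorem mass_cv_le (n m : ℕ) (hm : m < n) (φ : ZMod (L n) → ℂ) :
    mass (cv M n m φ) ≤ mass φ * Cb n := by
  unfold cv
  calc mass (fun j => ∑ i, φ i * om M n m (j - ((i.val : ℕ) : ZMod (L m)))) ≤
      ∑ i : ZMod (L n), mass (fun j : ZMod (L m) => φ i * om M n m (j - ((i.val : ℕ) : ZMod (L m)))) :=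
        mass_sum_le univ _
    _ = ∑ i, ‖φ i‖ * mass (om M n m) := by
        refine sum_congr rfl fun i _ => ?_
        unfold mass
        rw [mul_sum]
        refine Fintype.sum_equiv (Equiv.subRight ((i.val : ℕ) : ZMod (L m))) _ _ fun j => ?_
        rw [norm_mul]; rfl
    _ = mass φ * mass (om M n m) := by unfold mass; rw [sum_mul]
    _ ≤ mass φ * Cb n := mul_le_mul_of_nonneg_left (om_mass_single M n m hm) (mass_nonneg φ)

/-- The projected orbit at a sampling time. -/
theorem Pr_sample (u k : ℕ) (c : (m : ℕ) → ZMod (L m) → ℂ) :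
    M.Pr (k + 1) ((⇑M.T.symm)^[u * L k] (vec M (k + 2) c)) =
      vec M (k + 1) (fun m j => c m j + cv M (k + 1) m
        (fun i => o (k + 1) (i - ((u * L k : ℕ) : ZMod (L (k + 1)))) * c (k + 1) i) j) := by
  rw [Pr_iter_S_vec]
  have h1 : (⇑M.T.symm)^[u * L k] (vec M (k + 1) c) = vec M (k + 1) c := by
    have := iter_S_vec_add M (k + 1) (u * L k) 0 c
      (fun m hm => (L_dvd (show m ≤ k by omega)).trans (dvd_mul_left _ _))
    simpa using this
  have h2 : ∀ i : ZMod (L (k + 1)), Tw M (k + 1) (i - ((u * L k : ℕ) : ZMod (L (k + 1)))) =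
      Tw M (k + 1) i := by
    intro i
    have h3 : (⇑M.T)^[u * L k] (Tw M (k + 1) (i - ((u * L k : ℕ) : ZMod (L (k + 1))))) =
        Tw M (k + 1) (i - ((u * L k : ℕ) : ZMod (L (k + 1)))) :=
      iter_period M (hm_Tw M (k + 1) _) _
        (fun m hm => (L_dvd (show m ≤ k by omega)).trans (dvd_mul_left _ _))
    rw [iter_T_Tw, sub_add_cancel] at h3
    exact h3.symm
  rw [h1, sum_congr rfl (fun i _ => by rw [h2 i]), sum_Tw]
  unfold vec
  rw [← sum_add_distrib]
  refine sum_congr rfl fun m _ => ?_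
  rw [← sum_add_distrib]
  exact sum_congr rfl fun j _ => by rw [add_smul]

end Pool.Agent.H3.FH
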