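import Pool.Agent.H3.FH.BwdC

set_option autoImplicit false

namespace Pool.Agent.H3.FH

open Finset

/-- difference of the hat coordinates of two consecutive odd blocks -/
noncomputable def Dd (l : ℕ) (c : (m : ℕ) → ZMod (L m) → ℂ) (j : ZMod (L (2 * l + 1))) : ℂ :=
  c (2 * l + 1) j - push (2 * l + 1) (2 * l + 3) (c (2 * l + 3)) j

theorem mass_Dd_le (l : ℕ) (c : (m : ℕ) → ZMod (L m) → ℂ) :
    mass (Dd l c) ≤ mass (c (2 * l + 1)) + mass (c (2 * l + 3)) :=
  (mass_sub_le _ _).trans (add_le_add le_rfl (mass_push_le _ _ _))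

open Classical in
/-- the potential -/
noncomputable def Vv (i₀ i : ℕ) (c : (m : ℕ) → ZMod (L m) → ℂ) : ℕ :=
  ((Ico i₀ i).filter fun l => 16 / H (2 * l + 1) ≤ mass (Dd l c)).card +
    (if i₀ ≤ i ∧ 8 / H (2 * i + 1) ≤ mass (c (2 * i + 1)) then 1 else 0)

theorem Vv_of_lt {i₀ i : ℕ} (h : i < i₀) (c : (m : ℕ) → ZMod (L m) → ℂ) : Vv i₀ i c = 0 := by
  unfold Vv
  rw [Ico_eq_empty (by omega), filter_empty, card_empty, if_neg (by omega)]

/-- the inactive chain step does not decrease the potential -/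
theorem Vv_inactive {i₀ i : ℕ} (c : (m : ℕ) → ZMod (L m) → ℂ)
    (h : mass (c (2 * i + 3)) < 8 / H (2 * i + 3)) : Vv i₀ (i + 1) c ≤ Vv i₀ i c := by
  classical
  unfold Vv
  rw [show 2 * (i + 1) + 1 = 2 * i + 3 by ring]
  rw [if_neg (show ¬ (i₀ ≤ i + 1 ∧ 8 / H (2 * i + 3) ≤ mass (c (2 * i + 3))) from
    fun hh => absurd hh.2 (not_le.2 h)), add_zero]
  rcases Nat.lt_or_ge i i₀ with hi | hi
  · rw [Ico_eq_empty (by omega), filter_empty, card_empty]; omega
  · rw [Nat.Ico_succ_right_eq_insert_Ico hi, filter_insert]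
    split_ifs with h1 h2 h2
    · rw [card_insert_of_notMem (by simp)]
    · exfalso
      apply h2
      refine ⟨hi, ?_⟩
      have h3 := mass_Dd_le i c
      have h4 : 8 / H (2 * i + 3) ≤ 8 / H (2 * i + 1) :=
        div_le_div_of_nonneg_left (by norm_num) (H_pos _) (H_mono (by omega))
      have h5 : 16 / H (2 * i + 1) = 8 / H (2 * i + 1) + 8 / H (2 * i + 1) := by ring
      linarith
    · omega
    · omega

theorem Vv_active {i₀ i : ℕ} (c c' : (m : ℕ) → ZMod (L m) → ℂ)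
    (h : ∀ l < i, Dd l c' = Dd l c) : Vv i₀ (i + 1) c ≤ Vv i₀ i c' + 2 := by
  classical
  unfold Vv
  have h1 : ((Ico i₀ i).filter fun l => 16 / H (2 * l + 1) ≤ mass (Dd l c')) =
      ((Ico i₀ i).filter fun l => 16 / H (2 * l + 1) ≤ mass (Dd l c)) := by
    refine filter_congr fun l hl => ?_
    rw [h l (mem_Ico.1 hl).2]
  rw [h1]
  have h2 : ((Ico i₀ (i + 1)).filter fun l => 16 / H (2 * l + 1) ≤ mass (Dd l c)).card ≤
      ((Ico i₀ i).filter fun l => 16 / H (2 * l + 1) ≤ mass (Dd l c)).card + 1 := by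
    rcases Nat.lt_or_ge i i₀ with hi | hi
    · rw [Ico_eq_empty (by omega), filter_empty, card_empty]; omega
    · rw [Nat.Ico_succ_right_eq_insert_Ico hi, filter_insert]
      split_ifs
      · rw [card_insert_of_notMem (by simp)]
      · omega
  have h3 : (if i₀ ≤ i + 1 ∧ 8 / H (2 * (i + 1) + 1) ≤ mass (c (2 * (i + 1) + 1)) then 1 else 0) ≤ 1 := by
    split_ifs <;> omega
  omega

/-- the radii -/
noncomputable def rad (k : ℕ) : ℝ := 1 + 1 / 2 ^ k

theorem rad_le (k : ℕ) : rad k ≤ 2 := by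
  unfold rad
  have : (1 : ℝ) / 2 ^ k ≤ 1 := by
    rw [div_le_one (by positivity)]; exact one_le_pow₀ (by norm_num)
  linarith

theorem Wb_div (k : ℕ) : Wb k / H k = 1 / 2 ^ (k + 5) := by
  have := H_pos k
  unfold Wb; field_simp

theorem rad_step (k : ℕ) : rad (k + 1) + 8 / H (k + 1) * Wb (k + 1) ≤ rad k := by
  have h1 : 8 / H (k + 1) * Wb (k + 1) = 8 * (Wb (k + 1) / H (k + 1)) := by ring
  rw [h1, Wb_div]
  unfold rad
  have h2 : (1 : ℝ) / 2 ^ k = 2 * (1 / 2 ^ (k + 1)) := by rw [pow_succ]; field_simp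
  have h3 : (8 : ℝ) * (1 / 2 ^ (k + 1 + 5)) = 1 / 4 * (1 / 2 ^ (k + 1)) := by
    rw [pow_add (2 : ℝ) (k + 1) 5]; field_simp; norm_num
  have h4 : (0 : ℝ) < 1 / 2 ^ (k + 1) := by positivity
  linarith

theorem rad_step' (k : ℕ) : rad (k + 1) * (1 + Wb (k + 1) / H (k + 1)) ≤ rad k := by
  rw [Wb_div]
  have h0 := rad_le (k + 1)
  have h2 : (1 : ℝ) / 2 ^ k = 2 * (1 / 2 ^ (k + 1)) := by rw [pow_succ]; field_simp
  have h3 : (1 : ℝ) / 2 ^ (k + 1 + 5) = 1 / 32 * (1 / 2 ^ (k + 1)) := by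
    rw [pow_add (2 : ℝ) (k + 1) 5]; field_simp; norm_num
  have h4 : (0 : ℝ) < 1 / 2 ^ (k + 1) := by positivity
  have h5 : rad (k + 1) * (1 / 2 ^ (k + 1 + 5)) ≤ 2 * (1 / 2 ^ (k + 1 + 5)) :=
    mul_le_mul_of_nonneg_right h0 (by positivity)
  rw [mul_add, mul_one]
  unfold rad at *
  linarith

theorem Z_odd (k : ℕ) (hk : k % 2 = 1) : 4 * Z k = L k := by
  rw [Z_def, L_def, ss_def, if_pos hk]
  have := hundred_le_ll k
  conv_rhs => rw [show ll k = (ll k - 2) + 2 by omega]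
  rw [pow_add]; ring

theorem Z_even (k : ℕ) (hk : k % 2 = 0) : 2 ^ (k + 2) * Z k = L k := by
  rw [Z_def, L_def, ss_def, if_neg (by omega)]
  have := hundred_le_ll k
  conv_rhs => rw [show ll k = (k + 2) + (ll k - (k + 2)) by omega]
  rw [pow_add 2 (k + 2) (ll k - (k + 2))]

theorem L_pow_le {m n : ℕ} (h : m < n) : 2 ^ (n + 10) * L m ≤ L n := by
  obtain ⟨k, rfl⟩ : ∃ k, n = k + 1 := ⟨n - 1, by omega⟩
  rw [L_def, L_def]
  have h1 := ll_mono (show m ≤ k by omega)
  have h3 := ll_succ k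
  calc 2 ^ (k + 1 + 10) * 2 ^ ll m = 2 ^ (k + 1 + 10 + ll m) := by ring
    _ ≤ 2 ^ ll (k + 1) := Nat.pow_le_pow_right (by norm_num) (by omega)

theorem kappa_odd (k : ℕ) (hk : (k + 1) % 2 = 1) :
    8 / 3 * ((Z (k + 1) : ℝ) + 2 * L k) ≤ 3 / 4 * L (k + 1) := by
  have h1 : (4 : ℝ) * Z (k + 1) = L (k + 1) := by exact_mod_cast Z_odd (k + 1) hk
  have h2 : (64 : ℝ) * L k ≤ L (k + 1) := by exact_mod_cast L_lt (show k < k + 1 by omega)
  linarith

theorem kappa_even (k : ℕ) (hk : (k + 1) % 2 = 0) :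
    8 / 3 * ((Z (k + 1) : ℝ) + 2 * L k) ≤ 1 / 2 ^ (k + 1) * L (k + 1) := by
  have h1 : (2 : ℝ) ^ (k + 1 + 2) * Z (k + 1) = L (k + 1) := by exact_mod_cast Z_even (k + 1) hk
  have h2 : (2 : ℝ) ^ (k + 1 + 10) * L k ≤ L (k + 1) := by
    exact_mod_cast L_pow_le (show k < k + 1 by omega)
  have h3 : (0 : ℝ) < 2 ^ (k + 1) := by positivity
  rw [one_div, inv_mul_eq_div, le_div_iff₀ h3]
  have h4 : (2 : ℝ) ^ (k + 1 + 2) = 4 * 2 ^ (k + 1) := by ring
  have h5 : (2 : ℝ) ^ (k + 1 + 10) = 1024 * 2 ^ (k + 1) := by ring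
  rw [h4] at h1
  rw [h5] at h2
  have h6 : (0 : ℝ) ≤ L (k + 1) := by positivity
  nlinarith

variable {X : Type} [NormedAddCommGroup X] [NormedSpace ℂ X] (M : Model X)

/-- the claim, for a given small constant `c'` and all even blocks `≥ 2 i₀` expensive -/
theorem claim (c' : ℝ) (hc' : 0 ≤ c') (i₀ : ℕ) (hi₀ : 1 ≤ i₀) (hi₀' : 1 / 2 ^ (2 * i₀) ≤ c') (i : ℕ) :
    (∀ c : (m : ℕ) → ZMod (L m) → ℂ, (Cnt M (2 * i + 1) (vec M (2 * i + 2) c) (rad (2 * i + 1)) : ℝ) ≤
      max c' ((7 / 8) ^ (Vv i₀ i c)) * L (2 * i + 1)) ∧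
    (∀ c : (m : ℕ) → ZMod (L m) → ℂ, (Cnt M (2 * i + 2) (vec M (2 * i + 3) c) (rad (2 * i + 2)) : ℝ) ≤
      max c' ((7 / 8) ^ (Vv i₀ i c)) * L (2 * i + 2)) := by
  have trivial_case : ∀ (i k : ℕ) (y : X) (ρ : ℝ) (c : (m : ℕ) → ZMod (L m) → ℂ), i < i₀ →
      (Cnt M k y ρ : ℝ) ≤ max c' ((7 / 8) ^ (Vv i₀ i c)) * L k := by
    intro i k y ρ c hi
    rw [Vv_of_lt hi, pow_zero]
    have h1 : (Cnt M k y ρ : ℝ) ≤ L k := by exact_mod_cast Cnt_le M k y ρ
    have h2 : (1 : ℝ) ≤ max c' 1 := le_max_right _ _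
    have h3 : (0 : ℝ) ≤ L k := by positivity
    nlinarith
  -- gadget step
  have gadget : ∀ i, (∀ c : (m : ℕ) → ZMod (L m) → ℂ,
      (Cnt M (2 * i + 1) (vec M (2 * i + 2) c) (rad (2 * i + 1)) : ℝ) ≤
        max c' ((7 / 8) ^ (Vv i₀ i c)) * L (2 * i + 1)) →
      (∀ c : (m : ℕ) → ZMod (L m) → ℂ, (Cnt M (2 * i + 2) (vec M (2 * i + 3) c) (rad (2 * i + 2)) : ℝ) ≤
        max c' ((7 / 8) ^ (Vv i₀ i c)) * L (2 * i + 2)) := by
    intro i ih c
    rcases Nat.lt_or_ge i i₀ with hi | hi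
    · exact trivial_case i _ _ _ c hi
    rcases le_or_gt (8 / H (2 * i + 2)) (mass (c (2 * i + 2))) with hA | hA
    · -- active
      have h1 := active_step M (2 * i + 1) c (rad (2 * i + 2)) 1 (rad_le _) (by norm_num) hA
        (fun u => by rw [one_mul]; exact_mod_cast Cnt_le M _ _ _)
      have h2 := kappa_even (2 * i + 1) (by omega)
      have h3 : (1 : ℝ) / 2 ^ (2 * i + 1 + 1) ≤ c' := by
        refine le_trans ?_ hi₀'
        exact one_div_le_one_div_of_le (by positivity) (pow_le_pow_right₀ (by norm_num) (by omega))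
      have h4 : c' ≤ max c' ((7 / 8) ^ (Vv i₀ i c)) := le_max_left _ _
      have h5 : (0 : ℝ) ≤ L (2 * i + 2) := by positivity
      calc (Cnt M (2 * i + 2) (vec M (2 * i + 3) c) (rad (2 * i + 2)) : ℝ) ≤ _ := h1
        _ ≤ 1 / 2 ^ (2 * i + 1 + 1) * L (2 * i + 1 + 1) := by rw [mul_one]; exact h2
        _ ≤ max c' ((7 / 8) ^ (Vv i₀ i c)) * L (2 * i + 2) :=
          mul_le_mul_of_nonneg_right (h3.trans h4) h5
    · refine inactive_step M (2 * i + 1) c (rad (2 * i + 2)) _ ?_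
      refine le_trans ?_ (ih c)
      have h6 : rad (2 * i + 2) + mass (c (2 * i + 1 + 1)) * Wb (2 * i + 1 + 1) ≤ rad (2 * i + 1) := by
        refine le_trans ?_ (rad_step (2 * i + 1))
        have := Wb_pos (2 * i + 1 + 1)
        have h7 : mass (c (2 * i + 1 + 1)) * Wb (2 * i + 1 + 1) ≤ 8 / H (2 * i + 1 + 1) * Wb (2 * i + 1 + 1) :=
          mul_le_mul_of_nonneg_right hA.le this.le
        have h8 : rad (2 * i + 2) = rad (2 * i + 1 + 1) := rfl
        linarith
      exact_mod_cast Cnt_mono M _ _ h6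
  -- chain step
  have chain : ∀ i, (∀ c : (m : ℕ) → ZMod (L m) → ℂ,
      (Cnt M (2 * i + 2) (vec M (2 * i + 3) c) (rad (2 * i + 2)) : ℝ) ≤
        max c' ((7 / 8) ^ (Vv i₀ i c)) * L (2 * i + 2)) →
      (∀ c : (m : ℕ) → ZMod (L m) → ℂ, (Cnt M (2 * i + 3) (vec M (2 * i + 4) c) (rad (2 * i + 3)) : ℝ) ≤
        max c' ((7 / 8) ^ (Vv i₀ (i + 1) c)) * L (2 * i + 3)) := by
    intro i ih c
    rcases le_or_gt (8 / H (2 * i + 3)) (mass (c (2 * i + 3))) with hA | hA
    · -- active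
      have hβ0 : (0 : ℝ) ≤ max c' ((7 / 8) ^ (Vv i₀ (i + 1) c - 2)) := le_max_of_le_left hc'
      have h1 := active_step M (2 * i + 2) c (rad (2 * i + 3))
        (max c' ((7 / 8) ^ (Vv i₀ (i + 1) c - 2))) (rad_le _) hβ0 hA
        (fun u => by
          rw [Pr_sample]
          set c'' : (m : ℕ) → ZMod (L m) → ℂ := fun m j => c m j + cv M (2 * i + 2 + 1) m
            (fun i' => o (2 * i + 2 + 1) (i' - ((u * L (2 * i + 2) : ℕ) : ZMod (L (2 * i + 2 + 1)))) *
              c (2 * i + 2 + 1) i') j with hc''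
          have h2 : Vv i₀ (i + 1) c ≤ Vv i₀ i c'' + 2 := by
            refine Vv_active c c'' fun l hl => ?_
            funext j
            unfold Dd
            have e1 : c'' (2 * l + 3) = fun j => c (2 * l + 3) j +
                - push (2 * l + 3) (2 * i + 2 + 1) (fun i' => o (2 * i + 2 + 1)
                  (i' - ((u * L (2 * i + 2) : ℕ) : ZMod (L (2 * i + 2 + 1)))) *
                  c (2 * i + 2 + 1) i') j := by
              funext j
              rw [hc'']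
              simp only
              rw [cv_odd M (2 * i + 2 + 1) (2 * l + 3) (by omega) (by omega) (by omega)]
            have e2 : c'' (2 * l + 1) j = c (2 * l + 1) j +
                - push (2 * l + 1) (2 * i + 2 + 1) (fun i' => o (2 * i + 2 + 1)
                  (i' - ((u * L (2 * i + 2) : ℕ) : ZMod (L (2 * i + 2 + 1)))) *
                  c (2 * i + 2 + 1) i') j := by
              rw [hc'']
              simp only
              rw [cv_odd M (2 * i + 2 + 1) (2 * l + 1) (by omega) (by omega) (by omega)]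
            rw [e1, e2, push_add, push_neg]
            have e3 := congrFun (push_push (2 * l + 1) (2 * l + 3) (2 * i + 2 + 1) (by omega)
              (fun i' => o (2 * i + 2 + 1)
                  (i' - ((u * L (2 * i + 2) : ℕ) : ZMod (L (2 * i + 2 + 1)))) *
                  c (2 * i + 2 + 1) i')) j
            rw [e3]
            ring
          have h3 := ih c''
          have h4 : (Cnt M (2 * i + 2) (vec M (2 * i + 2 + 1) c'')
              (rad (2 * i + 3) * (1 + Wb (2 * i + 2 + 1) / H (2 * i + 2 + 1))) : ℝ) ≤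
              (Cnt M (2 * i + 2) (vec M (2 * i + 3) c'') (rad (2 * i + 2)) : ℝ) := by
            exact_mod_cast Cnt_mono M _ _ (rad_step' (2 * i + 2))
          refine h4.trans (h3.trans ?_)
          refine mul_le_mul_of_nonneg_right ?_ (by positivity)
          refine max_le_max le_rfl ?_
          exact pow_le_pow_of_le_one (by norm_num) (by norm_num) (by omega))
      have h2 := kappa_odd (2 * i + 2) (by omega)
      have h5 : (0 : ℝ) ≤ L (2 * i + 3) := by positivity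
      have h6 : (3 : ℝ) / 4 * max c' ((7 / 8) ^ (Vv i₀ (i + 1) c - 2)) ≤
          max c' ((7 / 8) ^ (Vv i₀ (i + 1) c)) := by
        rcases le_total c' ((7 / 8 : ℝ) ^ (Vv i₀ (i + 1) c - 2)) with h | h
        · rw [max_eq_right h]
          refine le_max_of_le_right ?_
          rcases Nat.lt_or_ge (Vv i₀ (i + 1) c) 2 with hv | hv
          · rw [show Vv i₀ (i + 1) c - 2 = 0 by omega, pow_zero, mul_one]
            calc (3 : ℝ) / 4 ≤ (7 / 8) ^ 1 := by norm_num
              _ ≤ (7 / 8) ^ Vv i₀ (i + 1) c := pow_le_pow_of_le_one (by norm_num) (by norm_num) (by omega)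
          · obtain ⟨v, hv2⟩ : ∃ v, Vv i₀ (i + 1) c = v + 2 := ⟨_, (Nat.sub_add_cancel hv).symm⟩
            rw [hv2, Nat.add_sub_cancel, pow_add]
            have : (0 : ℝ) < (7 / 8) ^ v := by positivity
            nlinarith
        · rw [max_eq_left h]
          refine le_max_of_le_left ?_
          linarith
      calc (Cnt M (2 * i + 3) (vec M (2 * i + 4) c) (rad (2 * i + 3)) : ℝ) ≤ _ := h1
        _ ≤ (3 / 4 * L (2 * i + 2 + 1)) * max c' ((7 / 8) ^ (Vv i₀ (i + 1) c - 2)) :=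
          mul_le_mul_of_nonneg_right h2 hβ0
        _ = (3 / 4 * max c' ((7 / 8) ^ (Vv i₀ (i + 1) c - 2))) * L (2 * i + 3) := by ring
        _ ≤ max c' ((7 / 8) ^ (Vv i₀ (i + 1) c)) * L (2 * i + 3) :=
          mul_le_mul_of_nonneg_right h6 h5
    · refine inactive_step M (2 * i + 2) c (rad (2 * i + 3)) _ ?_
      have h6 : rad (2 * i + 3) + mass (c (2 * i + 2 + 1)) * Wb (2 * i + 2 + 1) ≤ rad (2 * i + 2) := by
        refine le_trans ?_ (rad_step (2 * i + 2))
        have := Wb_pos (2 * i + 2 + 1)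
        have h7 : mass (c (2 * i + 2 + 1)) * Wb (2 * i + 2 + 1) ≤ 8 / H (2 * i + 2 + 1) * Wb (2 * i + 2 + 1) :=
          mul_le_mul_of_nonneg_right hA.le this.le
        have h8 : rad (2 * i + 3) = rad (2 * i + 2 + 1) := rfl
        linarith
      have h7 : (Cnt M (2 * i + 2) (vec M (2 * i + 2 + 1) c)
          (rad (2 * i + 3) + mass (c (2 * i + 2 + 1)) * Wb (2 * i + 2 + 1)) : ℝ) ≤
          (Cnt M (2 * i + 2) (vec M (2 * i + 3) c) (rad (2 * i + 2)) : ℝ) := by
        exact_mod_cast Cnt_mono M _ _ h6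
      refine h7.trans ((ih c).trans ?_)
      refine mul_le_mul_of_nonneg_right ?_ (by positivity)
      refine max_le_max le_rfl ?_
      exact pow_le_pow_of_le_one (by norm_num) (by norm_num) (Vv_inactive c hA)
  induction i with
  | zero => exact ⟨fun c => trivial_case 0 _ _ _ c hi₀, gadget 0 fun c => trivial_case 0 _ _ _ c hi₀⟩
  | succ i ih => exact ⟨chain i ih.2, gadget (i + 1) (chain i ih.2)⟩

end Pool.Agent.H3.FH
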