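import Pool.Agent.H3.FH.BwdD

set_option autoImplicit false

namespace Pool.Agent.H3.FH

open Finset Filter Topology

variable {X : Type} [NormedAddCommGroup X] [NormedSpace ℂ X] (M : Model X)

/-- difference of the on-indicators -/
noncomputable def dd (n t : ℕ) (i : ZMod (L n)) : ℂ := o n (i - t) - o n i

theorem norm_dd_le (n t : ℕ) (i : ZMod (L n)) : ‖dd n t i‖ ≤ 1 := norm_o_sub_le _ _ _

/-- crossing mass -/
noncomputable def cr (n t : ℕ) (x : X) : ℝ := ∑ i, ‖M.h n i x‖ * ‖dd n t i‖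

theorem cr_nonneg (n t : ℕ) (x : X) : 0 ≤ cr M n t x :=
  sum_nonneg fun _ _ => mul_nonneg (norm_nonneg _) (norm_nonneg _)

theorem iter_S_Pr (t K : ℕ) (x : X) : (⇑M.T.symm)^[t] (M.Pr K x) =
    ∑ n ∈ range K, ∑ i, M.h n i x • (M.f n (i - t) + dd n t i • Tw M n (i - t)) := by
  rw [M.Pr_eq, iter_S_sum]
  refine sum_congr rfl fun n _ => ?_
  rw [iter_S_sum]
  refine sum_congr rfl fun i _ => ?_
  rw [iter_S_smul, iter_S_f]; rfl

/-- low blocks plus the contribution of the crossing mass -/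
theorem Pr_iter_S_Pr (t b K : ℕ) (hb : b ≤ K) (x : X) :
    M.Pr b ((⇑M.T.symm)^[t] (M.Pr K x)) = (⇑M.T.symm)^[t] (M.Pr b x) +
      ∑ n ∈ Ico b K, ∑ i, (M.h n i x * dd n t i) • M.Pr b (Tw M n (i - t)) := by
  rw [iter_S_Pr, iter_S_Pr, map_sum, ← sum_range_add_sum_Ico _ hb]
  congr 1
  · refine sum_congr rfl fun n hn => ?_
    have hn := mem_range.1 hn
    rw [map_sum]
    refine sum_congr rfl fun i _ => ?_
    rw [map_smul, map_add, map_smul, Pr_f_lt M b n hn, Pr_Tw M n b hn.le]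
  · refine sum_congr rfl fun n hn => ?_
    have hn := (mem_Ico.1 hn).1
    rw [map_sum]
    refine sum_congr rfl fun i _ => ?_
    rw [map_smul, map_add, map_smul, Pr_f_ge M b n hn, zero_add, smul_smul]

theorem sum_cross_le (t b K : ℕ) (x : X) :
    ‖∑ n ∈ Ico b K, ∑ i, (M.h n i x * dd n t i) • M.Pr b (Tw M n (i - t))‖ ≤
      ∑ n ∈ Ico b K, cr M n t x * Wb n := by
  refine (norm_sum_le _ _).trans (sum_le_sum fun n _ => ?_)
  unfold cr
  rw [sum_mul]
  refine (norm_sum_le _ _).trans (sum_le_sum fun i _ => ?_)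
  rw [norm_smul, norm_mul]
  exact mul_le_mul_of_nonneg_left (norm_Pr_Tw_le M b n _) (by positivity)

/-- block norm of the orbit -/
theorem block_le (t n K : ℕ) (hn : n < K) (x : X) :
    ∑ i, a n (i - t) * ‖M.h n i x‖ ≤ bn M n ((⇑M.T.symm)^[t] (M.Pr K x)) +
      ∑ k ∈ Ico n K, cr M k t x * Wb k := by
  have h1 : ∑ i, a n (i - t) * ‖M.h n i x‖ = bn M n (∑ i, M.h n i x • M.f n (i - t)) := by
    unfold bn
    refine Fintype.sum_equiv (Equiv.subRight (t : ZMod (L n))) _ _ fun j => ?_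
    rw [Equiv.subRight_apply, map_sum, sum_eq_single j]
    · rw [map_smul, M.h_f_same, if_pos rfl, smul_eq_mul, mul_one]
    · intro b _ hb
      rw [map_smul, M.h_f_same, if_neg (fun h => hb (by
        have := congrArg (fun z => z + (t : ZMod (L n))) h
        simpa using this.symm)), smul_zero]
    · simp
  have h2 : ∀ j, M.h n j (∑ i, M.h n i x • M.f n (i - t)) =
      M.h n j ((⇑M.T.symm)^[t] (M.Pr K x) -
        ∑ k ∈ Ico n K, ∑ i, (M.h k i x * dd k t i) • Tw M k (i - t)) := by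
    intro j
    rw [iter_S_Pr, ← sum_range_add_sum_Ico _ hn.le, ← sum_Ioo_add_eq_sum_Ico hn,
      ← sum_Ioo_add_eq_sum_Ico hn]
    have e1 : M.h n j (∑ m ∈ range n, ∑ i, M.h m i x • (M.f m (i - t) + dd m t i • Tw M m (i - t))) = 0 := by
      rw [map_sum]
      refine sum_eq_zero fun m hm => ?_
      have hm := mem_range.1 hm
      rw [map_sum]
      refine sum_eq_zero fun i _ => ?_
      rw [map_smul, map_add, map_smul, M.h_f_ne n m j _ (by omega), h_Tw M m n hm.le]
      simp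
    have e2 : ∑ k ∈ Ioo n K, ∑ i, M.h k i x • (M.f k (i - t) + dd k t i • Tw M k (i - t)) =
        ∑ k ∈ Ioo n K, ∑ i, M.h k i x • M.f k (i - t) +
        ∑ k ∈ Ioo n K, ∑ i, (M.h k i x * dd k t i) • Tw M k (i - t) := by
      rw [← sum_add_distrib]
      refine sum_congr rfl fun k _ => ?_
      rw [← sum_add_distrib]
      exact sum_congr rfl fun i _ => by rw [smul_add, smul_smul]
    have e3 : ∑ i, M.h n i x • (M.f n (i - t) + dd n t i • Tw M n (i - t)) =
        ∑ i, M.h n i x • M.f n (i - t) + ∑ i, (M.h n i x * dd n t i) • Tw M n (i - t) := by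
      rw [← sum_add_distrib]
      exact sum_congr rfl fun i _ => by rw [smul_add, smul_smul]
    have e4 : M.h n j (∑ k ∈ Ioo n K, ∑ i, M.h k i x • M.f k (i - t)) = 0 := by
      rw [map_sum]
      refine sum_eq_zero fun m hm => ?_
      have hm := mem_Ioo.1 hm
      rw [map_sum]
      refine sum_eq_zero fun i _ => ?_
      rw [map_smul, M.h_f_ne n m j _ (by omega)]
      simp
    rw [e2, e3, map_sub, map_add, map_add, map_add, map_add, map_add, e1, e4]
    ring
  have h3 : bn M n (∑ i, M.h n i x • M.f n (i - t)) =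
      bn M n ((⇑M.T.symm)^[t] (M.Pr K x) -
        ∑ k ∈ Ico n K, ∑ i, (M.h k i x * dd k t i) • Tw M k (i - t)) := by
    unfold bn
    exact sum_congr rfl fun j _ => by rw [h2]
  rw [h1, h3, sub_eq_add_neg]
  refine (bn_add M n _ _).trans (add_le_add le_rfl ?_)
  rw [bn_neg]
  refine (bn_le M n _).trans ?_
  refine (norm_sum_le _ _).trans (sum_le_sum fun k _ => ?_)
  unfold cr
  rw [sum_mul]
  refine (norm_sum_le _ _).trans (sum_le_sum fun i _ => ?_)
  rw [norm_smul, norm_mul]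
  exact mul_le_mul_of_nonneg_left (norm_Tw_le M k _) (by positivity)

theorem H_mul_cr_le (t n : ℕ) (ht : t + Z n ≤ N n) (x : X) :
    H n * cr M n t x ≤ ∑ i, a n (i - t) * ‖M.h n i x‖ := by
  unfold cr
  rw [mul_sum]
  refine sum_le_sum fun i _ => ?_
  by_cases h : o n (i - t) = o n i
  · unfold dd
    rw [h, sub_self, norm_zero, mul_zero, mul_zero]
    have := a_pos n (i - t)
    positivity
  · rw [a_sub_of_ne ht h]
    have h1 := norm_dd_le n t i
    have h2 := H_pos n
    have h3 := norm_nonneg (M.h n i x)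
    have h4 : ‖M.h n i x‖ * ‖dd n t i‖ ≤ ‖M.h n i x‖ := by nlinarith
    exact mul_le_mul_of_nonneg_left h4 h2.le

theorem sum_geom_le (b K : ℕ) : ∑ n ∈ Ico b K, (1 : ℝ) / 2 ^ (n + 5) ≤ 1 / 2 ^ (b + 4) := by
  have h1 : ∀ K, b ≤ K → ∑ n ∈ Ico b K, (1 : ℝ) / 2 ^ (n + 5) = 1 / 2 ^ (b + 4) - 1 / 2 ^ (K + 4) := by
    intro K hK
    induction K, hK using Nat.le_induction with
    | base => simp
    | succ K hK ih =>
      rw [sum_Ico_succ_top hK, ih]
      have : (1 : ℝ) / 2 ^ (K + 4) = 2 * (1 / 2 ^ (K + 5)) := by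
        rw [pow_succ (2 : ℝ) (K + 4)]; field_simp
      rw [show K + 1 + 4 = K + 5 by ring]
      linarith
  rcases le_total b K with h | h
  · rw [h1 K h]
    have : (0 : ℝ) < 1 / 2 ^ (K + 4) := by positivity
    linarith
  · rw [Ico_eq_empty_of_le h, sum_empty]; positivity

/-- The finite crossing lemma. -/
theorem cross_fin (t b K : ℕ) (ht : ∀ n, b ≤ n → t + Z n ≤ N n) (x : X)
    (hx : ‖(⇑M.T.symm)^[t] (M.Pr K x)‖ ≤ 1) :
    ∑ n ∈ Ico b K, cr M n t x * Wb n ≤ 1 / 2 ^ (b + 3) ∧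
    ∀ n ∈ Ico b K, cr M n t x ≤ 2 / H n := by
  set σ := ∑ n ∈ Ico b K, cr M n t x * Wb n with hσ
  have hσ0 : 0 ≤ σ := sum_nonneg fun n _ => mul_nonneg (cr_nonneg M n t x) (Wb_pos n).le
  have h1 : ∀ n ∈ Ico b K, H n * cr M n t x ≤ 1 + σ := by
    intro n hn
    have hn := mem_Ico.1 hn
    refine (H_mul_cr_le M t n (ht n hn.1) x).trans ((block_le M t n K hn.2 x).trans ?_)
    refine add_le_add ((bn_le M n _).trans hx) ?_
    refine sum_le_sum_of_subset_of_nonneg (Ico_subset_Ico hn.1 le_rfl) fun k _ _ => ?_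
    exact mul_nonneg (cr_nonneg M k t x) (Wb_pos k).le
  have h2 : σ ≤ (1 + σ) * (1 / 2 ^ (b + 4)) := by
    calc σ ≤ ∑ n ∈ Ico b K, (1 + σ) * (1 / 2 ^ (n + 5)) := by
          refine sum_le_sum fun n hn => ?_
          have h3 := h1 n hn
          rw [← Wb_div n]
          have hH := H_pos n
          have hW := Wb_pos n
          calc cr M n t x * Wb n = (H n * cr M n t x) * (Wb n / H n) := by field_simp
            _ ≤ (1 + σ) * (Wb n / H n) := mul_le_mul_of_nonneg_right h3 (by positivity)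
      _ = (1 + σ) * ∑ n ∈ Ico b K, (1 : ℝ) / 2 ^ (n + 5) := by rw [mul_sum]
      _ ≤ (1 + σ) * (1 / 2 ^ (b + 4)) := mul_le_mul_of_nonneg_left (sum_geom_le b K) (by positivity)
  have h4 : (1 : ℝ) / 2 ^ (b + 4) ≤ 1 / 16 := by
    apply one_div_le_one_div_of_le (by norm_num)
    calc (16 : ℝ) = 2 ^ 4 := by norm_num
      _ ≤ 2 ^ (b + 4) := pow_le_pow_right₀ (by norm_num) (by omega)
  have h5 : σ ≤ 1 / 15 := by nlinarith
  have h6 : (1 : ℝ) / 2 ^ (b + 3) = 2 * (1 / 2 ^ (b + 4)) := by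
    rw [pow_succ (2 : ℝ) (b + 3)]; field_simp
  have h7 : (0 : ℝ) < 1 / 2 ^ (b + 4) := by positivity
  refine ⟨by rw [h6]; nlinarith, fun n hn => ?_⟩
  rw [le_div_iff₀ (H_pos n), mul_comm]
  linarith [h1 n hn]

/-- convergence of truncated orbits -/
theorem tendsto_iter (t : ℕ) (x : X) :
    Tendsto (fun K => (⇑M.T.symm)^[t] (M.Pr K x)) atTop (𝓝 ((⇑M.T.symm)^[t] x)) := by
  have h : Continuous ((⇑M.T.symm)^[t]) := M.T.symm.continuous.iterate t
  exact (h.tendsto x).comp (M.tendsto_Pr x)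

/-- The crossing lemma. -/
theorem cross (t b : ℕ) (ht : ∀ n, b ≤ n → t + Z n ≤ N n) (x : X) (hx : ‖(⇑M.T.symm)^[t] x‖ < 1) :
    (∀ n, b ≤ n → cr M n t x ≤ 2 / H n) ∧ ‖(⇑M.T.symm)^[t] (M.Pr b x)‖ ≤ 1 + 1 / 2 ^ (b + 3) := by
  have h1 : ∀ᶠ K in atTop, ‖(⇑M.T.symm)^[t] (M.Pr K x)‖ < 1 :=
    (tendsto_iter M t x).norm.eventually_lt_const hx
  constructor
  · intro n hn
    obtain ⟨K, hK1, hK2⟩ := (h1.and (eventually_gt_atTop n)).exists
    exact (cross_fin M t b K ht x hK1.le).2 n (mem_Ico.2 ⟨hn, hK2⟩)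
  · obtain ⟨K, hK1, hK2⟩ := (h1.and (eventually_ge_atTop b)).exists
    have h2 := Pr_iter_S_Pr M t b K hK2 x
    have h3 := sum_cross_le M t b K x
    have h4 := (cross_fin M t b K ht x hK1.le).1
    have h5 : (⇑M.T.symm)^[t] (M.Pr b x) = M.Pr b ((⇑M.T.symm)^[t] (M.Pr K x)) -
      ∑ n ∈ Ico b K, ∑ i, (M.h n i x * dd n t i) • M.Pr b (Tw M n (i - t)) := by
      rw [h2]; abel
    rw [h5]
    refine (norm_sub_le _ _).trans (add_le_add ((M.norm_Pr_le _ _).trans hK1.le) (h3.trans h4))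

theorem bn_tendsto (x : X) : Tendsto (fun n => bn M n x) atTop (𝓝 0) := by
  have h1 : Tendsto (fun n => ‖x - M.Pr n x‖) atTop (𝓝 0) := by
    have := ((tendsto_const_nhds (x := x)).sub (M.tendsto_Pr x)).norm
    simpa using this
  refine squeeze_zero (fun n => bn_nonneg M n x) (fun n => ?_) h1
  have h2 : bn M n x = bn M n (x - M.Pr n x) := by
    unfold bn
    refine sum_congr rfl fun j _ => ?_
    have : M.h n j (M.Pr n x) = 0 := by
      rw [M.Pr_eq, map_sum]
      refine sum_eq_zero fun m hm => ?_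
      rw [map_sum]
      refine sum_eq_zero fun i _ => ?_
      rw [map_smul, M.h_f_ne n m j i (by have := mem_range.1 hm; omega), smul_zero]
    rw [map_sub, this, sub_zero]
  rw [h2]
  exact bn_le M n _

theorem N_sub_Z_mono {n m : ℕ} (h : n ≤ m) {t : ℕ} (ht : t + Z n ≤ N n) : t + Z m ≤ N m := by
  rcases Nat.eq_or_lt_of_le h with rfl | h
  · exact ht
  · have h1 := L_lt h
    rw [L_eq_two_mul_N n, L_eq_two_mul_N m] at h1
    have h2 := two_Z_le_N m
    omega

/-- The late lemma: the masses of the blocks tend to `0`. -/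
theorem late (x : X) (c : ℝ) (hc : 0 < c) (hc1 : c ≤ 1) (N₀ : ℕ)
    (hx : ∀ K, N₀ ≤ K → ∃ t < K, c * K ≤ t + 1 ∧ ‖(⇑M.T.symm)^[t] x‖ < 1) :
    Tendsto (fun n => mass (fun i => M.h n i x)) atTop (𝓝 0) := by
  have key : ∀ᶠ n in atTop, mass (fun i => M.h n i x) ≤ 4 / c * bn M n x + 2 / H n := by
    filter_upwards [eventually_ge_atTop N₀] with n hn
    have hZ := two_Z_le_N n
    have hZ0 := Z_pos n
    have hNn : N₀ ≤ N n - Z n := by
      have h1 : n + 100 ≤ ll n := hundred_le_ll n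
      have h2 : n < 2 ^ n := Nat.lt_two_pow_self
      have h3 : 2 * 2 ^ n ≤ N n := by
        rw [N_def]
        calc 2 * 2 ^ n = 2 ^ (n + 1) := by ring
          _ ≤ 2 ^ (ll n - 1) := Nat.pow_le_pow_right (by norm_num) (by omega)
      omega
    obtain ⟨t, ht1, ht2, ht3⟩ := hx (N n - Z n) hNn
    have hcr := (cross M t n (fun m hm => N_sub_Z_mono hm (by omega)) x ht3).1 n le_rfl
    have h4 : ∀ i, ‖M.h n i x‖ ≤ 4 / c * (a n i * ‖M.h n i x‖) + ‖M.h n i x‖ * ‖dd n t i‖ := by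
      intro i
      have hn0 := norm_nonneg (M.h n i x)
      have ha := a_pos n i
      by_cases h : o n (i - t) = o n i
      · have h5 : t ≤ of n i := le_of_of_same (by omega) h
        have h6 : c / 4 ≤ a n i := by
          refine le_trans ?_ (al_ge n (of n i))
          apply le_min
          · linarith
          · rw [le_div_iff₀ (by exact_mod_cast L_pos n)]
            have h7 : (L n : ℝ) ≤ 4 * ((N n - Z n : ℕ) : ℝ) := by
              have : L n ≤ 4 * (N n - Z n) := by rw [L_eq_two_mul_N]; omega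
              exact_mod_cast this
            have h8 : (t : ℝ) ≤ of n i := by exact_mod_cast h5
            calc c / 4 * (L n : ℝ) ≤ c / 4 * (4 * ((N n - Z n : ℕ) : ℝ)) :=
                  mul_le_mul_of_nonneg_left h7 (by positivity)
              _ = c * ((N n - Z n : ℕ) : ℝ) := by ring
              _ ≤ t + 1 := ht2
              _ ≤ of n i + 1 := by linarith
        have h9 : 1 ≤ 4 / c * a n i := by
          rw [div_mul_eq_mul_div, le_div_iff₀ hc]; linarith
        have h10 : 0 ≤ ‖M.h n i x‖ * ‖dd n t i‖ := by positivity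
        nlinarith
      · have h11 : ‖dd n t i‖ = 1 := by
          unfold dd
          rw [o_eq, o_eq] at h ⊢
          split_ifs at h ⊢ <;> simp_all
        rw [h11, mul_one]
        have : 0 ≤ 4 / c * (a n i * ‖M.h n i x‖) := by positivity
        linarith
    calc mass (fun i => M.h n i x) ≤
        ∑ i, (4 / c * (a n i * ‖M.h n i x‖) + ‖M.h n i x‖ * ‖dd n t i‖) := sum_le_sum fun i _ => h4 i
      _ = 4 / c * bn M n x + cr M n t x := by rw [sum_add_distrib, ← mul_sum]; rfl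
      _ ≤ 4 / c * bn M n x + 2 / H n := by linarith
  have hH : Tendsto (fun n => 2 / H n) atTop (𝓝 0) := by
    have h1 : Tendsto (fun n : ℕ => (2 : ℝ) * (1 / 2) ^ n) atTop (𝓝 0) := by
      have := (tendsto_pow_atTop_nhds_zero_of_lt_one (by norm_num : (0 : ℝ) ≤ 1 / 2) (by norm_num)).const_mul 2
      simpa using this
    refine squeeze_zero (fun n => by have := H_pos n; positivity) (fun n => ?_) h1
    rw [H_def, one_div, inv_pow, ← div_eq_mul_inv]
    refine div_le_div_of_nonneg_left (by norm_num) (by positivity) (pow_le_pow_right₀ (by norm_num) ?_)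
    rw [ee_def]; nlinarith [sq_nonneg n]
  have h2 : Tendsto (fun n => 4 / c * bn M n x + 2 / H n) atTop (𝓝 0) := by
    have := ((bn_tendsto M x).const_mul (4 / c)).add hH
    simpa using this
  exact squeeze_zero' (Eventually.of_forall fun n => mass_nonneg _) key h2

end Pool.Agent.H3.FH
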