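import Pool.Agent.H3.FH.BwdE

set_option autoImplicit false

namespace Pool.Agent.H3.FH

open Finset Filter Topology

variable {X : Type} [NormedAddCommGroup X] [NormedSpace ℂ X] (M : Model X)

/-- coordinates of `x` restricted to the on-zone -/
noncomputable def onx (n : ℕ) (x : X) (i : ZMod (L n)) : ℂ := o n i * M.h n i x

/-- hat coordinates of the truncation of `x` to blocks `≤ b` -/
noncomputable def fam (b : ℕ) (x : X) (m : ℕ) (j : ZMod (L m)) : ℂ :=
  M.h m j x - ∑ n ∈ Ioc m b, cv M n m (onx M n x) j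

theorem fam_self (b : ℕ) (x : X) (j : ZMod (L b)) : fam M b x b j = M.h b j x := by
  unfold fam; rw [Ioc_self, sum_empty, sub_zero]

theorem vec_fam (b : ℕ) (x : X) : vec M (b + 1) (fam M b x) = M.Pr (b + 1) x := by
  induction b with
  | zero =>
    rw [M.Pr_eq]
    unfold vec
    rw [sum_range_one, sum_range_one]
    refine sum_congr rfl fun i _ => ?_
    rw [fam_self]
    congr 1
    unfold F
    have h1 : Tw M 0 i = 0 := by
      have := Tw_expand M 0 i
      simpa using this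
    rw [h1, smul_zero, add_zero]
  | succ b ih =>
    have hPr : M.Pr (b + 1 + 1) x = M.Pr (b + 1) x + ∑ i, M.h (b + 1) i x • M.f (b + 1) i := by
      rw [M.Pr_eq, M.Pr_eq, sum_range_succ]
    rw [vec_succ, hPr, ← ih]
    have h1 : vec M (b + 1) (fam M (b + 1) x) = vec M (b + 1) (fam M b x) -
        ∑ i, onx M (b + 1) x i • Tw M (b + 1) i := by
      rw [sum_Tw]
      unfold vec
      rw [← sum_sub_distrib]
      refine sum_congr rfl fun m hm => ?_
      have hm := mem_range.1 hm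
      rw [← sum_sub_distrib]
      refine sum_congr rfl fun j _ => ?_
      rw [← sub_smul]
      congr 1
      unfold fam
      rw [sum_Ioc_succ_top (by omega)]
      ring
    rw [h1]
    have h2 : ∑ i, fam M (b + 1) x (b + 1) i • F M (b + 1) i =
        ∑ i, M.h (b + 1) i x • M.f (b + 1) i + ∑ i, onx M (b + 1) x i • Tw M (b + 1) i := by
      rw [← sum_add_distrib]
      refine sum_congr rfl fun i _ => ?_
      rw [fam_self]
      unfold F onx
      rw [smul_add, smul_smul, mul_comm (o (b + 1) i)]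
    rw [h2]; abel

theorem mass_onx_le (n : ℕ) (x : X) : mass (onx M n x) ≤ mass (fun i => M.h n i x) :=
  mass_mul_le _ _ (fun j => norm_o_le n j)

/-- the local difference -/
noncomputable def ld (l : ℕ) (x : X) (j : ZMod (L (2 * l + 1))) : ℂ :=
  M.h (2 * l + 1) j x - push (2 * l + 1) (2 * l + 3)
    (fun i => M.h (2 * l + 3) i x - onx M (2 * l + 3) x i) j

/-- error term of an even block -/
noncomputable def er (n l : ℕ) (x : X) (j : ZMod (L (2 * l + 1))) : ℂ :=
  cv M n (2 * l + 1) (onx M n x) j -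
    (if 2 * l + 3 < n then push (2 * l + 1) (2 * l + 3) (cv M n (2 * l + 3) (onx M n x)) j else 0)

theorem Dd_fam (b l : ℕ) (hl : 2 * l + 3 ≤ b) (x : X) (j : ZMod (L (2 * l + 1))) :
    Dd l (fam M b x) j = ld M l x j - ∑ n ∈ (Ioc (2 * l + 1) b).filter (fun n => n % 2 = 0),
      er M n l x j := by
  have h1 : ∑ n ∈ Ioc (2 * l + 1) b, er M n l x j =
      ∑ n ∈ (Ioc (2 * l + 1) b).filter (fun n => n % 2 = 0), er M n l x j -
        push (2 * l + 1) (2 * l + 3) (onx M (2 * l + 3) x) j := by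
    rw [← sum_filter_add_sum_filter_not (Ioc (2 * l + 1) b) (fun n => n % 2 = 0), sub_eq_add_neg]
    congr 1
    rw [sum_eq_single (2 * l + 3)]
    · unfold er
      rw [if_neg (by omega), sub_zero, cv_odd M (2 * l + 3) (2 * l + 1) (by omega) (by omega) (by omega)]
    · intro n hn hn2
      obtain ⟨hn1, hn3⟩ := mem_filter.1 hn
      have hn4 := mem_Ioc.1 hn1
      unfold er
      rw [if_pos (by omega), cv_odd M n (2 * l + 1) (by omega) (by omega) (by omega)]
      have e1 : cv M n (2 * l + 3) (onx M n x) = fun j => - push (2 * l + 3) n (onx M n x) j := by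
        funext j
        rw [cv_odd M n (2 * l + 3) (by omega) (by omega) (by omega)]
      rw [e1, push_neg]
      have e2 := congrFun (push_push (2 * l + 1) (2 * l + 3) n (by omega) (onx M n x)) j
      rw [e2]; ring
    · intro hn
      exfalso; apply hn
      rw [mem_filter, mem_Ioc]
      omega
  have h2 : ∑ n ∈ Ioc (2 * l + 1) b, er M n l x j =
      ∑ n ∈ Ioc (2 * l + 1) b, cv M n (2 * l + 1) (onx M n x) j -
        ∑ n ∈ Ioc (2 * l + 3) b, push (2 * l + 1) (2 * l + 3) (cv M n (2 * l + 3) (onx M n x)) j := by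
    unfold er
    rw [sum_sub_distrib, ← sum_filter]
    congr 1
    refine sum_congr ?_ fun _ _ => rfl
    ext n
    rw [mem_filter, mem_Ioc, mem_Ioc]
    omega
  unfold Dd ld
  have h3 : fam M b x (2 * l + 3) = fun i => M.h (2 * l + 3) i x -
      ∑ n ∈ Ioc (2 * l + 3) b, cv M n (2 * l + 3) (onx M n x) i := rfl
  rw [h3, push_sub, push_sum, push_sub]
  unfold fam
  have h4 := h1.symm.trans h2
  linear_combination h4

theorem mass_er_le (n l : ℕ) (hn : 2 * l + 1 < n) (x : X) :
    mass (er M n l x) ≤ 2 * (mass (fun i => M.h n i x) * Cb n) := by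
  have h1 := mass_onx_le M n x
  have h2 := Cb_pos n
  have h3 : mass (onx M n x) * Cb n ≤ mass (fun i => M.h n i x) * Cb n :=
    mul_le_mul_of_nonneg_right h1 h2.le
  have h4 := mass_nonneg (fun i => M.h n i x)
  have h5 : mass (cv M n (2 * l + 1) (onx M n x)) ≤ mass (fun i => M.h n i x) * Cb n :=
    (mass_cv_le M n (2 * l + 1) hn _).trans h3
  unfold er
  refine (mass_sub_le _ _).trans ?_
  by_cases h : 2 * l + 3 < n
  · simp only [if_pos h]
    have h6 : mass (push (2 * l + 1) (2 * l + 3) (cv M n (2 * l + 3) (onx M n x))) ≤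
        mass (fun i => M.h n i x) * Cb n :=
      (mass_push_le _ _ _).trans ((mass_cv_le M n (2 * l + 3) h _).trans h3)
    have h7 : (fun j => push (2 * l + 1) (2 * l + 3) (cv M n (2 * l + 3) (onx M n x)) j) =
      push (2 * l + 1) (2 * l + 3) (cv M n (2 * l + 3) (onx M n x)) := rfl
    rw [h7]
    linarith
  · simp only [if_neg h]
    have h6 : mass (fun _ : ZMod (L (2 * l + 1)) => (0 : ℂ)) = 0 := by unfold mass; simp
    rw [h6]
    have : 0 ≤ mass (fun i => M.h n i x) * Cb n := by positivity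
    linarith

/-- if the even blocks are light, the hat difference is close to the local difference -/
theorem mass_ld_le (b l : ℕ) (hl : 2 * l + 3 ≤ b) (x : X)
    (hx : ∀ n, 2 * l + 1 < n → n % 2 = 0 → mass (fun i => M.h n i x) ≤ 8 / H n) :
    mass (ld M l x) ≤ mass (Dd l (fam M b x)) + 2 / H (2 * l + 1) := by
  have h1 : ld M l x = fun j => Dd l (fam M b x) j +
      ∑ n ∈ (Ioc (2 * l + 1) b).filter (fun n => n % 2 = 0), er M n l x j := by
    funext j
    rw [Dd_fam M b l hl]; ring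
  rw [h1]
  refine (mass_add_le _ _).trans (add_le_add le_rfl ?_)
  refine (mass_sum_le _ _).trans ?_
  calc ∑ n ∈ (Ioc (2 * l + 1) b).filter (fun n => n % 2 = 0), mass (er M n l x) ≤
      ∑ n ∈ (Ioc (2 * l + 1) b).filter (fun n => n % 2 = 0), 16 / H (2 * l + 1) * (1 / 2 ^ (n + 5)) := by
        refine sum_le_sum fun n hn => ?_
        obtain ⟨hn1, hn2⟩ := mem_filter.1 hn
        have hn1 := (mem_Ioc.1 hn1).1
        refine (mass_er_le M n l hn1 x).trans ?_
        have h2 := hx n hn1 hn2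
        have h3 := Cb_mul_H_le hn1
        have h4 := Cb_pos n
        have h5 := H_pos n
        have h6 := H_pos (2 * l + 1)
        have h7 : mass (fun i => M.h n i x) * Cb n ≤ 8 / H n * Cb n :=
          mul_le_mul_of_nonneg_right h2 h4.le
        have h8 : 8 / H n * Cb n ≤ 8 / H (2 * l + 1) * (1 / 2 ^ (n + 5)) := by
          rw [div_mul_eq_mul_div, div_mul_div_comm, mul_one, div_le_div_iff₀ h5 (by positivity)]
          nlinarith
        have h9 : 16 / H (2 * l + 1) * (1 / 2 ^ (n + 5)) =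
          2 * (8 / H (2 * l + 1) * (1 / 2 ^ (n + 5))) := by ring
        rw [h9]; linarith
    _ ≤ ∑ n ∈ Ico (2 * l + 1) (b + 1), 16 / H (2 * l + 1) * (1 / 2 ^ (n + 5)) := by
        refine sum_le_sum_of_subset_of_nonneg (fun n hn => ?_) fun n _ _ => ?_
        · have := mem_Ioc.1 (mem_filter.1 hn).1
          rw [mem_Ico]; omega
        · have := H_pos (2 * l + 1)
          positivity
    _ = 16 / H (2 * l + 1) * ∑ n ∈ Ico (2 * l + 1) (b + 1), (1 : ℝ) / 2 ^ (n + 5) := by rw [mul_sum]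
    _ ≤ 16 / H (2 * l + 1) * (1 / 2 ^ (2 * l + 1 + 4)) :=
        mul_le_mul_of_nonneg_left (sum_geom_le _ _) (by have := H_pos (2 * l + 1); positivity)
    _ ≤ 16 / H (2 * l + 1) * (1 / 8) := by
        refine mul_le_mul_of_nonneg_left ?_ (by have := H_pos (2 * l + 1); positivity)
        apply one_div_le_one_div_of_le (by norm_num)
        calc (8 : ℝ) = 2 ^ 3 := by norm_num
          _ ≤ 2 ^ (2 * l + 1 + 4) := pow_le_pow_right₀ (by norm_num) (by omega)
    _ = 2 / H (2 * l + 1) := by ring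

theorem mass_le_of_ld (l : ℕ) (x : X) : mass (fun i => M.h (2 * l + 1) i x) ≤
    mass (ld M l x) + mass (fun i => M.h (2 * l + 3) i x) := by
  have h1 : (fun i => M.h (2 * l + 1) i x) = fun j => ld M l x j +
      push (2 * l + 1) (2 * l + 3) (fun i => M.h (2 * l + 3) i x - onx M (2 * l + 3) x i) j := by
    funext j; unfold ld; ring
  rw [h1]
  refine (mass_add_le _ _).trans (add_le_add le_rfl ?_)
  refine (mass_push_le _ _ _).trans ?_
  have h2 : (fun i => M.h (2 * l + 3) i x - onx M (2 * l + 3) x i) =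
      fun i => (1 - o (2 * l + 3) i) * M.h (2 * l + 3) i x := by
    funext i; unfold onx; ring
  rw [h2]
  refine mass_mul_le _ _ fun j => ?_
  rw [o_eq]; split_ifs <;> simp

/-- bound of backward orbits of finite vectors -/
theorem bdd_orbit (b : ℕ) (x : X) : ∃ B : ℝ, ∀ t : ℕ, ‖(⇑M.T.symm)^[t] (M.Pr (b + 1) x)‖ ≤ B := by
  rw [← vec_fam]
  refine ⟨∑ m ∈ range (b + 1), ∑ i, ‖fam M b x m i‖ * (H m + Wb m), fun t => ?_⟩
  rw [iter_S_vec]
  refine (norm_sum_le _ _).trans (sum_le_sum fun m _ => ?_)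
  refine (norm_sum_le _ _).trans (sum_le_sum fun i _ => ?_)
  rw [norm_smul]
  refine mul_le_mul_of_nonneg_left ?_ (norm_nonneg _)
  unfold F
  refine (norm_add_le _ _).trans (add_le_add ((M.norm_f_le m _).trans (a_le_H m _)) ?_)
  rw [norm_smul]
  have h3 := norm_o_le m (i - t)
  have h4 := norm_Tw_le M m (i - t)
  have := norm_nonneg (Tw M m (i - t))
  nlinarith

theorem gadget_active (k : ℕ) (hk : (k + 1) % 2 = 0) (c : (m : ℕ) → ZMod (L m) → ℂ) (ρ : ℝ) (hρ : ρ ≤ 2)
    (hA : 8 / H (k + 1) ≤ mass (c (k + 1))) :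
    (Cnt M (k + 1) (vec M (k + 2) c) ρ : ℝ) ≤ 1 / 2 ^ (k + 1) * L (k + 1) := by
  have h1 := active_step M k c ρ 1 hρ (by norm_num) hA
    (fun u => by rw [one_mul]; exact_mod_cast Cnt_le M _ _ _)
  rw [mul_one] at h1
  exact h1.trans (kappa_even k hk)

theorem H_succ2 (l : ℕ) : 2 * H (2 * l + 1) ≤ H (2 * l + 3) := by
  rw [H_def, H_def]
  calc (2 : ℝ) * 2 ^ ee (2 * l + 1) = 2 ^ (ee (2 * l + 1) + 1) := by ring
    _ ≤ 2 ^ ee (2 * l + 3) := pow_le_pow_right₀ (by norm_num) (by
        have h1 := ee_succ (2 * l + 1)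
        have h2 := ee_mono (show 2 * l + 1 + 1 ≤ 2 * l + 3 by omega)
        omega)

/-- The main theorem of this part: `T⁻¹` is not frequently hypercyclic. -/
theorem bwd : ¬ (∃ x : X, ∀ U : Set X, IsOpen U → U.Nonempty →
    ∃ c : ℝ, 0 < c ∧ ∃ N₀ : ℕ, ∀ N : ℕ, N₀ ≤ N →
      c * (N : ℝ) ≤ (Nat.card {n : ℕ // n < N ∧ (⇑M.T.symm)^[n] x ∈ U} : ℝ)) := by
  classical
  rintro ⟨x, hx⟩
  have hcard : ∀ (K : ℕ) (U : Set X), Nat.card {n : ℕ // n < K ∧ (⇑M.T.symm)^[n] x ∈ U} =
      ((range K).filter fun n => (⇑M.T.symm)^[n] x ∈ U).card := by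
    intro K U
    exact Nat.subtype_card _ fun n => by rw [mem_filter, mem_range]
  -- visits to the unit ball
  obtain ⟨c₀, hc₀, N₀, hN₀⟩ := hx (Metric.ball 0 1) Metric.isOpen_ball ⟨0, Metric.mem_ball_self one_pos⟩
  obtain ⟨c, hc, hc1, hN⟩ : ∃ c : ℝ, 0 < c ∧ c ≤ 1 ∧ ∀ K, N₀ ≤ K →
      c * K ≤ ((range K).filter fun n => ‖(⇑M.T.symm)^[n] x‖ < 1).card := by
    refine ⟨min c₀ 1, lt_min hc₀ one_pos, min_le_right _ _, fun K hK => ?_⟩
    have h1 := hN₀ K hK
    rw [hcard] at h1
    simp only [mem_ball_zero_iff] at h1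
    refine le_trans ?_ h1
    exact mul_le_mul_of_nonneg_right (min_le_left _ _) (by positivity)
  have hlate := late M x c hc hc1 (N₀ + 1) (fun K hK => by
    have h1 := hN K (by omega)
    set A := (range K).filter fun n => ‖(⇑M.T.symm)^[n] x‖ < 1 with hA
    have hK0 : (0 : ℝ) < K := by exact_mod_cast (show 0 < K by omega)
    have h2 : A.Nonempty := by
      rw [← card_pos]
      have : (0 : ℝ) < A.card := lt_of_lt_of_le (by positivity) h1
      exact_mod_cast this
    obtain ⟨ht1, ht2⟩ := mem_filter.1 (A.max'_mem h2)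
    refine ⟨A.max' h2, mem_range.1 ht1, h1.trans ?_, ht2⟩
    have h3 : A ⊆ range (A.max' h2 + 1) := fun n hn => mem_range.2 (Nat.lt_succ_of_le (A.le_max' n hn))
    have h4 := card_le_card h3
    rw [card_range] at h4
    exact_mod_cast h4)
  -- density of good times for the truncations
  have hdens : ∀ b, N₀ ≤ b → c * L b ≤ (Cnt M b (vec M (b + 1) (fam M b x)) (rad b) : ℝ) := by
    intro b hb
    have hLb : b ≤ L b := by
      have h1 : b + 100 ≤ ll b := hundred_le_ll b
      have h2 : ll b < 2 ^ ll b := Nat.lt_two_pow_self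
      rw [L_def]; omega
    refine (hN (L b) (hb.trans hLb)).trans ?_
    unfold Cnt
    rw [vec_fam]
    norm_cast
    refine card_le_card fun t ht => ?_
    rw [mem_filter, mem_range] at *
    refine ⟨ht.1, ?_⟩
    have h1 : ∀ n, b + 1 ≤ n → t + Z n ≤ N n := by
      intro n hn
      have h2 := L_lt (show b < n by omega)
      rw [L_eq_two_mul_N n] at h2
      have h3 := two_Z_le_N n
      omega
    refine (cross M t (b + 1) h1 x ht.2).2.trans ?_
    unfold rad
    have : (1 : ℝ) / 2 ^ (b + 1 + 3) ≤ 1 / 2 ^ b :=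
      one_div_le_one_div_of_le (by positivity) (pow_le_pow_right₀ (by norm_num) (by omega))
    linarith
  -- the constant i₀
  obtain ⟨i₀, hi₀, hi₀'⟩ : ∃ i₀ : ℕ, 1 ≤ i₀ ∧ (1 : ℝ) / 2 ^ (2 * i₀) ≤ c / 2 := by
    obtain ⟨n, hn⟩ := exists_pow_lt_of_lt_one (show (0 : ℝ) < c / 2 by positivity)
      (show (1 / 2 : ℝ) < 1 by norm_num)
    refine ⟨n + 1, by omega, ?_⟩
    have h1 : (1 : ℝ) / 2 ^ (2 * (n + 1)) ≤ 1 / 2 ^ n :=
      one_div_le_one_div_of_le (by positivity) (pow_le_pow_right₀ (by norm_num) (by omega))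
    have h2 : (1 / 2 : ℝ) ^ n = 1 / 2 ^ n := by rw [div_pow, one_pow]
    linarith
  -- even blocks are light
  have heven : ∀ n, N₀ + 2 * i₀ ≤ n → n % 2 = 0 → mass (fun i => M.h n i x) ≤ 8 / H n := by
    intro n hn hn2
    by_contra hcon
    push Not at hcon
    obtain ⟨k, rfl⟩ : ∃ k, n = k + 1 := ⟨n - 1, by omega⟩
    have h1 := hdens (k + 1) (by omega)
    have h2 := gadget_active M k hn2 (fam M (k + 1) x) (rad (k + 1)) (rad_le _) (by
      have : (fam M (k + 1) x (k + 1)) = fun i => M.h (k + 1) i x := by funext j; rw [fam_self]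
      rw [this]; exact hcon.le)
    have h3 := h1.trans h2
    have h4 : (0 : ℝ) < L (k + 1) := by exact_mod_cast L_pos (k + 1)
    have h5 : (1 : ℝ) / 2 ^ (k + 1) ≤ 1 / 2 ^ (2 * i₀) :=
      one_div_le_one_div_of_le (by positivity) (pow_le_pow_right₀ (by norm_num) (by omega))
    have h6 : c ≤ 1 / 2 ^ (k + 1) := le_of_mul_le_mul_right h3 h4
    linarith
  -- bound for the potential
  obtain ⟨D, hD⟩ : ∃ D : ℕ, (7 / 8 : ℝ) ^ D < c :=
    exists_pow_lt_of_lt_one hc (by norm_num)
  have hV : ∀ i, N₀ ≤ i → Vv i₀ i (fam M (2 * i + 1) x) ≤ D := by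
    intro i hi
    by_contra hcon
    push Not at hcon
    have h1 := hdens (2 * i + 1) (by omega)
    have h2 := (claim M (c / 2) (by positivity) i₀ hi₀ hi₀' i).1 (fam M (2 * i + 1) x)
    have h3 := h1.trans h2
    have h4 : (0 : ℝ) < L (2 * i + 1) := by exact_mod_cast L_pos (2 * i + 1)
    have h6 := le_of_mul_le_mul_right h3 h4
    have h7 : (7 / 8 : ℝ) ^ Vv i₀ i (fam M (2 * i + 1) x) ≤ (7 / 8) ^ D :=
      pow_le_pow_of_le_one (by norm_num) (by norm_num) hcon.le
    rcases le_max_iff.1 h6 with h8 | h8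
    · linarith
    · linarith
  -- finitely many bad l
  obtain ⟨i₂, hi₂⟩ : ∃ i₂, ∀ l, i₂ ≤ l → mass (ld M l x) < 18 / H (2 * l + 1) := by
    set S : Set ℕ := {l | N₀ + 2 * i₀ ≤ l ∧ 18 / H (2 * l + 1) ≤ mass (ld M l x)} with hS
    have hfin : S.Finite := by
      by_contra hinf
      obtain ⟨t, ht1, ht2⟩ := Set.Infinite.exists_subset_card_eq hinf (D + 1)
      set i := t.sup id + 1 + N₀ with hi
      have h1 := hV i (by omega)
      have h2 : t ⊆ (Ico i₀ i).filter fun l => 16 / H (2 * l + 1) ≤ mass (Dd l (fam M (2 * i + 1) x)) := by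
        intro l hl
        obtain ⟨hl1, hl2⟩ := ht1 hl
        have hl3 : l ≤ t.sup id := le_sup (f := id) hl
        rw [mem_filter, mem_Ico]
        refine ⟨⟨by omega, by omega⟩, ?_⟩
        have h3 := mass_ld_le M (2 * i + 1) l (by omega) x
          (fun n hn hn2 => heven n (by omega) hn2)
        have h4 : 18 / H (2 * l + 1) = 16 / H (2 * l + 1) + 2 / H (2 * l + 1) := by ring
        linarith
      have h3 := card_le_card h2
      have h4 : ((Ico i₀ i).filter fun l => 16 / H (2 * l + 1) ≤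
          mass (Dd l (fam M (2 * i + 1) x))).card ≤ Vv i₀ i (fam M (2 * i + 1) x) := by
        unfold Vv; omega
      omega
    obtain ⟨B, hB⟩ := hfin.bddAbove
    refine ⟨B + 1 + N₀ + 2 * i₀, fun l hl => ?_⟩
    by_contra hcon
    push Not at hcon
    have : l ∈ S := ⟨by omega, hcon⟩
    have := hB this
    omega
  -- odd blocks are light
  have hodd : ∀ l, i₂ ≤ l → mass (fun i => M.h (2 * l + 1) i x) ≤ 36 / H (2 * l + 1) := by
    intro l hl
    have hstep : ∀ l, i₂ ≤ l → mass (fun i => M.h (2 * l + 1) i x) - 36 / H (2 * l + 1) ≤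
        mass (fun i => M.h (2 * (l + 1) + 1) i x) - 36 / H (2 * (l + 1) + 1) := by
      intro l hl
      have h1 := mass_le_of_ld M l x
      have h2 := hi₂ l hl
      have h3 := H_succ2 l
      have h4 := H_pos (2 * l + 1)
      have h5 := H_pos (2 * l + 3)
      have h6 : 36 / H (2 * l + 3) ≤ 18 / H (2 * l + 1) := by
        rw [div_le_div_iff₀ h5 h4]; linarith
      have h7 : 36 / H (2 * l + 1) = 18 / H (2 * l + 1) + 18 / H (2 * l + 1) := by ring
      rw [show 2 * (l + 1) + 1 = 2 * l + 3 by ring]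
      linarith
    have hp : ∀ p, mass (fun i => M.h (2 * l + 1) i x) - 36 / H (2 * l + 1) ≤
        mass (fun i => M.h (2 * (l + p) + 1) i x) - 36 / H (2 * (l + p) + 1) := by
      intro p
      induction p with
      | zero => exact le_rfl
      | succ p ih => exact ih.trans (hstep (l + p) (by omega))
    have hlim : Tendsto (fun p => mass (fun i => M.h (2 * (l + p) + 1) i x)) atTop (𝓝 0) := by
      have h8 : Tendsto (fun p => 2 * (l + p) + 1) atTop atTop :=
        tendsto_atTop_mono (fun p => show p ≤ 2 * (l + p) + 1 by omega) tendsto_id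
      exact hlate.comp h8
    have h9 : mass (fun i => M.h (2 * l + 1) i x) - 36 / H (2 * l + 1) ≤ 0 := by
      refine ge_of_tendsto hlim (Eventually.of_forall fun p => (hp p).trans ?_)
      have := H_pos (2 * (l + p) + 1)
      have : 0 < 36 / H (2 * (l + p) + 1) := by positivity
      linarith
    linarith
  obtain ⟨b, hb⟩ : ∃ b, ∀ n, b + 1 ≤ n → mass (fun i => M.h n i x) ≤ 36 / H n := by
    refine ⟨N₀ + 2 * i₀ + 2 * i₂ + 2, fun n hn => ?_⟩
    rcases Nat.even_or_odd' n with ⟨l, rfl | rfl⟩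
    · refine (heven (2 * l) (by omega) (by omega)).trans ?_
      exact div_le_div_of_nonneg_right (by norm_num) (H_pos _).le
    · exact hodd l (by omega)
  -- bounded low part
  obtain ⟨B, hB⟩ := bdd_orbit M b x
  have hB0 : 0 ≤ B := (norm_nonneg _).trans (hB 0)
  have hbdd : ∀ t : ℕ, ‖M.Pr (b + 1) ((⇑M.T.symm)^[t] x)‖ ≤ B + 36 := by
    intro t
    have h1 : Tendsto (fun K => ‖M.Pr (b + 1) ((⇑M.T.symm)^[t] (M.Pr K x))‖) atTop
        (𝓝 ‖M.Pr (b + 1) ((⇑M.T.symm)^[t] x)‖) :=
      (((M.Pr (b + 1)).continuous.tendsto _).comp (tendsto_iter M t x)).norm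
    refine le_of_tendsto h1 ?_
    filter_upwards [eventually_ge_atTop (b + 1)] with K hK
    rw [Pr_iter_S_Pr M t (b + 1) K hK]
    refine (norm_add_le _ _).trans (add_le_add (hB t) ((sum_cross_le M t (b + 1) K x).trans ?_))
    calc ∑ n ∈ Ico (b + 1) K, cr M n t x * Wb n ≤ ∑ n ∈ Ico (b + 1) K, 36 * (1 / 2 ^ (n + 5)) := by
          refine sum_le_sum fun n hn => ?_
          have hn := (mem_Ico.1 hn).1
          have h2 : cr M n t x ≤ mass (fun i => M.h n i x) := by
            unfold cr mass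
            refine sum_le_sum fun i _ => ?_
            have := norm_dd_le n t i
            have := norm_nonneg (M.h n i x)
            nlinarith
          have h3 := Wb_pos n
          calc cr M n t x * Wb n ≤ 36 / H n * Wb n :=
                mul_le_mul_of_nonneg_right (h2.trans (hb n hn)) h3.le
            _ = 36 * (Wb n / H n) := by ring
            _ = 36 * (1 / 2 ^ (n + 5)) := by rw [Wb_div]
      _ = 36 * ∑ n ∈ Ico (b + 1) K, (1 : ℝ) / 2 ^ (n + 5) := by rw [mul_sum]
      _ ≤ 36 * (1 / 2 ^ (b + 1 + 4)) := mul_le_mul_of_nonneg_left (sum_geom_le _ _) (by norm_num)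
      _ ≤ 36 := by
          have : (1 : ℝ) / 2 ^ (b + 1 + 4) ≤ 1 := by
            rw [div_le_one (by positivity)]; exact one_le_pow₀ (by norm_num)
          linarith
  -- contradiction
  have hf0 : M.f 0 0 ≠ 0 := by
    intro h
    have := M.h_f_same 0 0 0
    rw [h, map_zero, if_pos rfl] at this
    exact zero_ne_one this
  have hf0' : 0 < ‖M.f 0 0‖ := norm_pos_iff.2 hf0
  obtain ⟨c₁, hc₁, N₁, hN₁⟩ := hx {y | B + 36 < ‖M.Pr (b + 1) y‖}
    (isOpen_lt continuous_const (M.Pr (b + 1)).continuous.norm)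
    ⟨(((B + 37) / ‖M.f 0 0‖ : ℝ) : ℂ) • M.f 0 0, by
      show B + 36 < ‖M.Pr (b + 1) ((((B + 37) / ‖M.f 0 0‖ : ℝ) : ℂ) • M.f 0 0)‖
      rw [map_smul, Pr_f_lt M (b + 1) 0 (by omega), norm_smul, Complex.norm_real, Real.norm_eq_abs,
        abs_of_nonneg (by positivity), div_mul_cancel₀ _ hf0'.ne']
      linarith⟩
  have h1 := hN₁ (N₁ + 1) (by omega)
  rw [hcard] at h1
  have h2 : (0 : ℝ) < c₁ * ((N₁ + 1 : ℕ) : ℝ) := by positivity
  have h3 : 0 < ((range (N₁ + 1)).filter fun n => (⇑M.T.symm)^[n] x ∈ {y | B + 36 < ‖M.Pr (b + 1) y‖}).card := by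
    exact_mod_cast lt_of_lt_of_le h2 h1
  obtain ⟨n, hn⟩ := card_pos.1 h3
  have h4 := (mem_filter.1 hn).2
  exact absurd (hbdd n) (not_le.2 h4)

end Pool.Agent.H3.FH
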