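import Mathlib

/-!
# Reflexivity of `ℓ²`-sums of finite-dimensional spaces
-/

set_option autoImplicit false

namespace Pool.Agent.H3.FH

open Finset

section Refl

variable {E : ℕ → Type} [∀ n, NormedAddCommGroup (E n)]

theorem lp2_sum_sq_le (x : lp E 2) (s : Finset ℕ) : ∑ n ∈ s, ‖x n‖ ^ 2 ≤ ‖x‖ ^ 2 := by
  have h := lp.sum_rpow_le_norm_rpow (p := 2) (by norm_num) x s
  simpa using h

theorem lp2_norm_sum_single (v : ∀ n, E n) (s : Finset ℕ) :
    ‖∑ n ∈ s, lp.single 2 n (v n)‖ ^ 2 = ∑ n ∈ s, ‖v n‖ ^ 2 := by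
  have h := lp.norm_sum_single (p := 2) (by norm_num) v s
  simpa using h

theorem lp2_mem {v : ∀ n, E n} {C : ℝ} (h : ∀ s : Finset ℕ, ∑ n ∈ s, ‖v n‖ ^ 2 ≤ C) :
    Memℓp v 2 := by
  apply memℓp_gen' (C := C)
  intro s
  simpa using h s

variable [∀ n, NormedSpace ℂ (E n)]

/-- Cauchy–Schwarz for coordinate functionals. -/
theorem lp2_norm_sum_comp (s : Finset ℕ) (φ : ∀ n, StrongDual ℂ (E n)) (x : lp E 2) :
    ‖∑ n ∈ s, φ n (x n)‖ ≤ Real.sqrt (∑ n ∈ s, ‖φ n‖ ^ 2) * ‖x‖ := by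
  calc ‖∑ n ∈ s, φ n (x n)‖ ≤ ∑ n ∈ s, ‖φ n (x n)‖ := norm_sum_le _ _
    _ ≤ ∑ n ∈ s, ‖φ n‖ * ‖x n‖ := Finset.sum_le_sum fun n _ => (φ n).le_opNorm _
    _ ≤ Real.sqrt (∑ n ∈ s, ‖φ n‖ ^ 2) * Real.sqrt (∑ n ∈ s, ‖x n‖ ^ 2) :=
        Real.sum_mul_le_sqrt_mul_sqrt s _ _
    _ ≤ Real.sqrt (∑ n ∈ s, ‖φ n‖ ^ 2) * ‖x‖ := by
        gcongr
        rw [Real.sqrt_le_left (norm_nonneg _)]
        exact lp2_sum_sq_le x s

/-- the functional `∑_{n ∈ s} φ n ∘ proj n` -/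
noncomputable def lpF (s : Finset ℕ) (φ : ∀ n, StrongDual ℂ (E n)) : StrongDual ℂ (lp E 2) :=
  ∑ n ∈ s, (φ n).comp (lp.evalCLM ℂ E 2 n)

theorem lpF_apply (s : Finset ℕ) (φ : ∀ n, StrongDual ℂ (E n)) (x : lp E 2) :
    lpF s φ x = ∑ n ∈ s, φ n (x n) := by
  simp only [lpF, _root_.sum_apply, ContinuousLinearMap.comp_apply]
  rfl

theorem norm_lpF_le (s : Finset ℕ) (φ : ∀ n, StrongDual ℂ (E n)) :
    ‖lpF s φ‖ ≤ Real.sqrt (∑ n ∈ s, ‖φ n‖ ^ 2) := by
  refine ContinuousLinearMap.opNorm_le_bound _ (Real.sqrt_nonneg _) fun x => ?_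
  rw [lpF_apply]
  exact lp2_norm_sum_comp s φ x

/-- if `S ≤ C * √S` then `S ≤ C²` -/
theorem le_sq_of_le_mul_sqrt {S C : ℝ} (hS : 0 ≤ S) (h : S ≤ C * Real.sqrt S) :
    S ≤ C ^ 2 := by
  rcases hS.eq_or_lt with h0 | h0
  · rw [← h0]; positivity
  have hs : 0 < Real.sqrt S := Real.sqrt_pos.mpr h0
  have h1 : Real.sqrt S * Real.sqrt S ≤ C * Real.sqrt S := by
    rw [Real.mul_self_sqrt hS]; exact h
  have h2 : Real.sqrt S ≤ C := le_of_mul_le_mul_right h1 hs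
  calc S = Real.sqrt S ^ 2 := (Real.sq_sqrt hS).symm
    _ ≤ C ^ 2 := by gcongr

/-- near norming vector -/
theorem exists_near_norming {F : Type} [NormedAddCommGroup F] [NormedSpace ℂ F]
    (φ : StrongDual ℂ F) : ∃ u : F, ‖u‖ ≤ ‖φ‖ ∧ ∃ r : ℝ, φ u = (r : ℂ) ∧ ‖φ‖ ^ 2 / 2 ≤ r := by
  by_cases h0 : ‖φ‖ = 0
  · exact ⟨0, by simp [h0], 0, by simp, by simp [h0]⟩
  have hpos : 0 < ‖φ‖ := lt_of_le_of_ne (norm_nonneg _) (Ne.symm h0)
  obtain ⟨x, hx1, hx2⟩ := ContinuousLinearMap.exists_lt_apply_of_lt_opNorm φ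
    (r := ‖φ‖ / 2) (by linarith)
  have hφx : 0 < ‖φ x‖ := lt_trans (by positivity) hx2
  have hne : φ x ≠ 0 := norm_pos_iff.mp hφx
  refine ⟨((‖φ‖ : ℂ) * ((starRingEnd ℂ (φ x)) / ‖φ x‖)) • x, ?_, ‖φ‖ * ‖φ x‖, ?_, ?_⟩
  · rw [norm_smul, norm_mul, norm_div, RCLike.norm_conj]
    simp only [Complex.norm_real, norm_norm]
    rw [div_self hφx.ne', mul_one]
    calc ‖φ‖ * ‖x‖ ≤ ‖φ‖ * 1 := by gcongr
      _ = ‖φ‖ := mul_one _
  · rw [map_smul, smul_eq_mul]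
    have hc : (‖φ x‖ : ℂ) ≠ 0 := by exact_mod_cast hφx.ne'
    push_cast
    field_simp
    rw [mul_assoc, mul_comm (starRingEnd ℂ (φ x)), Complex.mul_conj, Complex.normSq_eq_norm_sq]
    push_cast
    ring
  · nlinarith

/-- the coordinate functionals of a functional on the `ℓ²` sum are square summable -/
theorem sum_coord_sq_le (Φ : StrongDual ℂ (lp E 2)) (s : Finset ℕ) :
    ∑ n ∈ s, ‖Φ.comp (lp.singleContinuousLinearMap ℂ E 2 n)‖ ^ 2 ≤ (2 * ‖Φ‖) ^ 2 := by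
  set ψ : ∀ n, StrongDual ℂ (E n) := fun n => Φ.comp (lp.singleContinuousLinearMap ℂ E 2 n) with hψ
  choose u hu r hr hr2 using fun n => exists_near_norming (ψ n)
  set y : lp E 2 := ∑ n ∈ s, lp.single 2 n (u n) with hy
  have hΦy : Φ y = ((∑ n ∈ s, r n : ℝ) : ℂ) := by
    rw [hy, map_sum]
    push_cast
    refine Finset.sum_congr rfl fun n _ => ?_
    rw [← hr n]
    simp [hψ]
  have hny : ‖y‖ ≤ Real.sqrt (∑ n ∈ s, ‖ψ n‖ ^ 2) := by
    apply Real.le_sqrt_of_sq_le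
    rw [hy, lp2_norm_sum_single]
    exact Finset.sum_le_sum fun n _ => by
      have := hu n
      gcongr
  have h1 : (∑ n ∈ s, ‖ψ n‖ ^ 2) / 2 ≤ ∑ n ∈ s, r n := by
    rw [Finset.sum_div]
    exact Finset.sum_le_sum fun n _ => hr2 n
  have h2 : ∑ n ∈ s, r n ≤ ‖Φ‖ * ‖y‖ := by
    have h3 := Φ.le_opNorm y
    rw [hΦy, Complex.norm_real] at h3
    exact (le_abs_self _).trans h3
  apply le_sq_of_le_mul_sqrt (Finset.sum_nonneg fun n _ => by positivity)
  have h4 : ‖Φ‖ * ‖y‖ ≤ ‖Φ‖ * Real.sqrt (∑ n ∈ s, ‖ψ n‖ ^ 2) := by gcongr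
  nlinarith

/-- `ℓ²`-sums of finite-dimensional spaces are reflexive -/
theorem lp_two_reflexive [∀ n, FiniteDimensional ℂ (E n)] :
    Function.Surjective (NormedSpace.inclusionInDoubleDual ℂ (lp E 2)) := by
  intro ξ
  -- coordinates
  have hcoord : ∀ n : ℕ, ∃ v : E n, ∀ φ : StrongDual ℂ (E n),
      ξ (φ.comp (lp.evalCLM ℂ E 2 n)) = φ v := by
    intro n
    -- reflexivity of finite-dimensional spaces
    let J : E n →ₗ[ℂ] Module.Dual ℂ (Module.Dual ℂ (E n)) := Module.Dual.eval ℂ (E n)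
    let η : Module.Dual ℂ (Module.Dual ℂ (E n)) :=
      { toFun := fun g => ξ ((LinearMap.toContinuousLinearMap g).comp (lp.evalCLM ℂ E 2 n))
        map_add' := by
          intro g g'
          rw [map_add, ContinuousLinearMap.add_comp, map_add]
        map_smul' := by
          intro c g
          rw [map_smul, ContinuousLinearMap.smul_comp, map_smul]
          rfl }
    obtain ⟨v, hv⟩ := (Module.evalEquiv ℂ (E n)).surjective η
    refine ⟨v, fun φ => ?_⟩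
    have h1 : (Module.evalEquiv ℂ (E n)) v (φ : E n →ₗ[ℂ] ℂ) = η (φ : E n →ₗ[ℂ] ℂ) := by
      rw [hv]
    have h2 : (Module.evalEquiv ℂ (E n)) v (φ : E n →ₗ[ℂ] ℂ) = φ v := rfl
    have h3 : η (φ : E n →ₗ[ℂ] ℂ) = ξ (φ.comp (lp.evalCLM ℂ E 2 n)) := by
      change ξ ((LinearMap.toContinuousLinearMap (φ : E n →ₗ[ℂ] ℂ)).comp (lp.evalCLM ℂ E 2 n)) = _
      congr 1
    rw [← h3, ← h1, h2]
  choose v hv using hcoord
  -- norm bound
  have hbound : ∀ s : Finset ℕ, ∑ n ∈ s, ‖v n‖ ^ 2 ≤ ‖ξ‖ ^ 2 := by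
    intro s
    choose g hg hgv using fun n => exists_dual_vector'' ℂ (v n)
    set φ : ∀ n, StrongDual ℂ (E n) := fun n => (‖v n‖ : ℂ) • g n with hφ
    have hξ : ξ (lpF s φ) = ((∑ n ∈ s, ‖v n‖ ^ 2 : ℝ) : ℂ) := by
      rw [lpF, map_sum]
      push_cast
      refine Finset.sum_congr rfl fun n _ => ?_
      rw [hv n]
      simp only [hφ, _root_.smul_apply, hgv n, smul_eq_mul]
      simp [sq]
    have hn : ‖lpF s φ‖ ≤ Real.sqrt (∑ n ∈ s, ‖v n‖ ^ 2) := by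
      refine (norm_lpF_le s φ).trans (Real.sqrt_le_sqrt (Finset.sum_le_sum fun n _ => ?_))
      have : ‖φ n‖ ≤ ‖v n‖ := by
        simp only [hφ, norm_smul, Complex.norm_real, norm_norm]
        calc ‖v n‖ * ‖g n‖ ≤ ‖v n‖ * 1 := by gcongr; exact hg n
          _ = ‖v n‖ := mul_one _
      gcongr
    apply le_sq_of_le_mul_sqrt (Finset.sum_nonneg fun n _ => by positivity)
    have h3 := ξ.le_opNorm (lpF s φ)
    rw [hξ, Complex.norm_real] at h3
    exact (le_abs_self _).trans (h3.trans (by gcongr))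
  set x : lp E 2 := ⟨v, lp2_mem hbound⟩ with hx
  have hxv : ∀ n, x n = v n := fun n => rfl
  refine ⟨x, ?_⟩
  ext Φ
  rw [NormedSpace.dual_def]
  -- ψ n
  set ψ : ∀ n, StrongDual ℂ (E n) := fun n => Φ.comp (lp.singleContinuousLinearMap ℂ E 2 n) with hψ
  have hsummable : Summable fun n => ‖ψ n‖ ^ 2 := by
    refine summable_of_sum_le (fun n => by positivity) (fun s => sum_coord_sq_le Φ s)
  -- finite truncations
  have hfin : ∀ s : Finset ℕ, ξ (lpF s ψ) = Φ (∑ n ∈ s, lp.single 2 n (x n)) := by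
    intro s
    rw [lpF, map_sum, map_sum]
    refine Finset.sum_congr rfl fun n _ => ?_
    rw [hv n]
    simp [hψ, hxv]
  -- convergence of truncations
  have hconv : Filter.Tendsto (fun s : Finset ℕ => lpF s ψ) Filter.atTop (nhds Φ) := by
    rw [tendsto_iff_norm_sub_tendsto_zero]
    have htail : Filter.Tendsto (fun s : Finset ℕ => Real.sqrt (∑' n : { n // n ∉ s }, ‖ψ n‖ ^ 2))
        Filter.atTop (nhds 0) := by
      have h := tendsto_tsum_compl_atTop_zero (fun n => ‖ψ n‖ ^ 2)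
      have h' := (Real.continuous_sqrt.tendsto 0).comp h
      rw [Real.sqrt_zero] at h'
      exact h'
    refine squeeze_zero (fun s => norm_nonneg _) (fun s => ?_) htail
    refine ContinuousLinearMap.opNorm_le_bound _ (Real.sqrt_nonneg _) fun y => ?_
    -- y = sum of singles
    have hys : HasSum (fun n => lp.single 2 n (y n)) y := lp.hasSum_single (by norm_num) y
    have hΦ : HasSum (fun n => ψ n (y n)) (Φ y) := by
      have := hys.mapL Φ
      simpa [hψ] using this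
    have hdiff : Filter.Tendsto (fun t : Finset ℕ => lpF s ψ y - ∑ n ∈ t, ψ n (y n))
        Filter.atTop (nhds ((lpF s ψ - Φ) y)) := by
      rw [_root_.sub_apply]
      exact Filter.Tendsto.sub tendsto_const_nhds hΦ
    refine le_of_tendsto hdiff.norm ?_
    filter_upwards [Filter.eventually_ge_atTop s] with t hst
    rw [lpF_apply, ← Finset.sum_sdiff hst, sub_add_cancel_right, norm_neg]
    refine (lp2_norm_sum_comp (t \ s) ψ y).trans ?_
    gcongr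
    -- finite sum over t \ s ≤ tail
    have h5 : ∑ n ∈ t \ s, ‖ψ n‖ ^ 2 = ∑ n ∈ (t \ s).subtype (fun n => n ∉ s), ‖ψ (n : ℕ)‖ ^ 2 := by
      rw [Finset.sum_subtype_of_mem (p := fun n => n ∉ s) (fun n => ‖ψ n‖ ^ 2)]
      intro n hn
      exact (Finset.mem_sdiff.mp hn).2
    rw [h5]
    exact Summable.sum_le_tsum _ (fun n _ => by positivity)
      (hsummable.comp_injective Subtype.val_injective)
  have hξconv : Filter.Tendsto (fun s : Finset ℕ => ξ (lpF s ψ)) Filter.atTop (nhds (ξ Φ)) :=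
    (ξ.continuous.tendsto Φ).comp hconv
  have hΦconv : Filter.Tendsto (fun s : Finset ℕ => Φ (∑ n ∈ s, lp.single 2 n (x n)))
      Filter.atTop (nhds (Φ x)) :=
    (Φ.continuous.tendsto x).comp (lp.hasSum_single (by norm_num) x)
  simp_rw [hfin] at hξconv
  exact tendsto_nhds_unique hΦconv hξconv

end Refl

end Pool.Agent.H3.FH
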