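import Pool.Agent.H3.FH.Op
import Pool.Agent.H3.FH.Refl
import Pool.Agent.H3.FH.BwdC

set_option autoImplicit false

namespace Pool.Agent.H3.FH

open Finset Filter Topology
open scoped ENNReal

theorem xPr_f_lt (k m : ℕ) (h : m < k) (i : ZMod (L m)) : xPr k (xf m i) = xf m i := by
  rw [x_Pr_eq, sum_eq_single m]
  · rw [sum_eq_single i]
    · rw [x_h_f_same]; simp
    · intro b _ hb; rw [x_h_f_same, if_neg hb, zero_smul]
    · simp
  · intro b _ hb
    exact sum_eq_zero fun j _ => by rw [x_h_f_ne b m j i hb, zero_smul]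
  · intro hb; exact absurd (mem_range.2 h) hb

theorem xPr_xPr (k : ℕ) (x : XX) : xPr k (xPr k x) = xPr k x := by
  conv_lhs => rw [x_Pr_eq k x, map_sum]
  rw [x_Pr_eq k x]
  refine sum_congr rfl fun m hm => ?_
  rw [map_sum]
  refine sum_congr rfl fun i _ => ?_
  rw [map_smul, xPr_f_lt k m (mem_range.1 hm)]

theorem xh_ge (k : ℕ) (x : XX) (hx : xPr k x = x) (m : ℕ) (hm : k ≤ m) (i : ZMod (L m)) :
    xh m i x = 0 := by
  rw [← hx, x_Pr_eq, map_sum]
  refine sum_eq_zero fun b hb => ?_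
  rw [map_sum]
  refine sum_eq_zero fun j _ => ?_
  rw [map_smul, x_h_f_ne m b i j (by have := mem_range.1 hb; omega), smul_zero]

instance : TopologicalSpace.SeparableSpace XX := by
  have h1 : (Set.range fun p : (Σ n : ℕ, ZMod (L n)) => xf p.1 p.2).Countable :=
    Set.countable_range _
  have h2 := (h1.isSeparable.span (R := ℂ)).closure
  rw [← TopologicalSpace.isSeparable_univ_iff]
  refine h2.mono fun x _ => ?_
  refine mem_closure_of_tendsto (x_tendsto_Pr x) (Eventually.of_forall fun k => ?_)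
  rw [x_Pr_eq]
  refine Submodule.sum_mem _ fun m _ => Submodule.sum_mem _ fun i _ => Submodule.smul_mem _ _ ?_
  exact Submodule.subset_span ⟨⟨m, i⟩, rfl⟩

theorem exists_dense : ∃ v : ℕ → XX, (∀ U : Set XX, IsOpen U → U.Nonempty → ∃ a, v a ∈ U) ∧
    ∀ a, ∃ k, xPr k (v a) = v a := by
  refine ⟨fun a => xPr (Nat.unpair a).2 (TopologicalSpace.denseSeq XX (Nat.unpair a).1), ?_, ?_⟩
  · intro U hU hne
    obtain ⟨m, hm⟩ := (TopologicalSpace.denseRange_denseSeq XX).exists_mem_open hU hne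
    have h1 := (x_tendsto_Pr (TopologicalSpace.denseSeq XX m)).eventually (hU.mem_nhds hm)
    obtain ⟨k, hk⟩ := h1.exists
    refine ⟨Nat.pair m k, ?_⟩
    show xPr (Nat.unpair (Nat.pair m k)).2 (TopologicalSpace.denseSeq XX (Nat.unpair (Nat.pair m k)).1) ∈ U
    rw [Nat.unpair_pair]
    exact hk
  · intro a
    exact ⟨_, xPr_xPr _ _⟩

/-- mass of the first `n` blocks -/
noncomputable def mu (n : ℕ) (x : XX) : ℝ := ∑ m ∈ range n, ∑ i, ‖xh m i x‖

theorem mu_nonneg (n : ℕ) (x : XX) : 0 ≤ mu n x :=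
  sum_nonneg fun _ _ => sum_nonneg fun _ _ => norm_nonneg _

theorem mu_sub (n : ℕ) (x y : XX) : mu n (x - y) ≤ mu n x + mu n y := by
  unfold mu
  rw [← sum_add_distrib]
  refine sum_le_sum fun m _ => ?_
  rw [← sum_add_distrib]
  refine sum_le_sum fun i _ => ?_
  rw [map_sub]; exact norm_sub_le _ _

theorem mu_add (n : ℕ) (x y : XX) : mu n (x + y) ≤ mu n x + mu n y := by
  unfold mu
  rw [← sum_add_distrib]
  refine sum_le_sum fun m _ => ?_
  rw [← sum_add_distrib]
  refine sum_le_sum fun i _ => ?_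
  rw [map_add]; exact norm_add_le _ _

theorem mu_zero (n : ℕ) : mu n 0 = 0 := by unfold mu; simp

theorem mu_f (n m : ℕ) (i : ZMod (L m)) : mu n (xf m i) ≤ 1 := by
  unfold mu
  have h1 : ∀ b ∈ range n, b ≠ m → ∑ j, ‖xh b j (xf m i)‖ = 0 := by
    intro b _ hb
    exact sum_eq_zero fun j _ => by rw [x_h_f_ne b m j i hb, norm_zero]
  by_cases hm : m ∈ range n
  · rw [sum_eq_single m h1 (fun h => absurd hm h), sum_eq_single i]
    · rw [x_h_f_same, if_pos rfl, norm_one]
    · intro b _ hb; rw [x_h_f_same, if_neg hb, norm_zero]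
    · simp
  · rw [sum_eq_zero fun b hb => h1 b hb (fun h => hm (h ▸ hb))]
    exact zero_le_one

theorem mu_sum {ι : Type} (s : Finset ι) (n : ℕ) (v : ι → XX) :
    mu n (∑ i ∈ s, v i) ≤ ∑ i ∈ s, mu n (v i) := by
  classical
  induction s using Finset.induction_on with
  | empty => simp [mu_zero]
  | insert a s ha ih =>
    rw [sum_insert ha, sum_insert ha]
    exact (mu_add n _ _).trans (by linarith)

theorem mu_stable (k n : ℕ) (h : k ≤ n) (x : XX) (hx : xPr k x = x) : mu n x = mu k x := by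
  unfold mu
  rw [← sum_range_add_sum_Ico _ h, add_eq_left]
  refine sum_eq_zero fun m hm => sum_eq_zero fun i _ => ?_
  rw [xh_ge k x hx m (mem_Ico.1 hm).1 i, norm_zero]

open Classical in
/-- seam vectors -/
noncomputable def ww (v : ℕ → XX) (n : ℕ) : XX :=
  if n % 2 = 1 then xf (2 * padicValNat 2 (n / 2 + 1)) 0 - ∑ m ∈ range (n / 2), xf (2 * m + 1) 0
  else if xPr n (v (Nat.unpair (n / 2)).1) = v (Nat.unpair (n / 2)).1 ∧
    mu n (v (Nat.unpair (n / 2)).1) ≤ n then v (Nat.unpair (n / 2)).1 else 0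

theorem ww_odd (v : ℕ → XX) (i : ℕ) : ww v (2 * i + 1) =
    xf (2 * padicValNat 2 (i + 1)) 0 - ∑ m ∈ range i, xf (2 * m + 1) 0 := by
  unfold ww
  rw [if_pos (by omega), show (2 * i + 1) / 2 = i by omega]

theorem ww_Pr (v : ℕ → XX) (n : ℕ) : xPr n (ww v n) = ww v n := by
  rcases Nat.even_or_odd' n with ⟨i, rfl | rfl⟩
  · unfold ww
    rw [if_neg (by omega)]
    split_ifs with h
    · exact h.1
    · exact map_zero _
  · rw [ww_odd, map_sub, map_sum, xPr_f_lt _ _ (by have := nu_le i; omega)]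
    congr 1
    exact sum_congr rfl fun m hm => xPr_f_lt _ _ (by have := mem_range.1 hm; omega) _

theorem ww_mass (v : ℕ → XX) (n : ℕ) : mu n (ww v n) ≤ n := by
  rcases Nat.even_or_odd' n with ⟨i, rfl | rfl⟩
  · unfold ww
    rw [if_neg (by omega)]
    split_ifs with h
    · exact h.2
    · rw [mu_zero]; positivity
  · rw [ww_odd]
    refine (mu_sub _ _ _).trans ?_
    have h1 := mu_f (2 * i + 1) (2 * padicValNat 2 (i + 1)) 0
    have h2 : mu (2 * i + 1) (∑ m ∈ range i, xf (2 * m + 1) 0) ≤ i := by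
      refine (mu_sum _ _ _).trans ?_
      refine (sum_le_sum fun m _ => mu_f _ _ _).trans ?_
      rw [sum_const, card_range, nsmul_eq_mul, mul_one]
    push_cast
    have : (0 : ℝ) ≤ i := Nat.cast_nonneg i
    linarith

theorem ww_even (v : ℕ → XX) (hv : ∀ U : Set XX, IsOpen U → U.Nonempty → ∃ a, v a ∈ U)
    (hv' : ∀ a, ∃ k, xPr k (v a) = v a) (U : Set XX) (hU : IsOpen U) (hne : U.Nonempty) (g₀ : ℕ) :
    ∃ j : ℕ, g₀ ≤ j ∧ ww v (2 * j) ∈ U := by
  obtain ⟨a, ha⟩ := hv U hU hne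
  obtain ⟨k, hk⟩ := hv' a
  obtain ⟨K, hK⟩ := exists_nat_ge (mu k (v a))
  refine ⟨Nat.pair a (g₀ + k + K), ?_, ?_⟩
  · have := Nat.right_le_pair a (g₀ + k + K); omega
  · have h1 := Nat.right_le_pair a (g₀ + k + K)
    set j := Nat.pair a (g₀ + k + K) with hj
    have h2 : (Nat.unpair (2 * j / 2)).1 = a := by
      rw [show 2 * j / 2 = j by omega, hj, Nat.unpair_pair]
    have h3 : xPr (2 * j) (v a) = v a := by
      rw [x_Pr_eq]
      conv_rhs => rw [← hk, x_Pr_eq]
      rw [← sum_range_add_sum_Ico _ (show k ≤ 2 * j by omega), add_eq_left]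
      refine sum_eq_zero fun m hm => sum_eq_zero fun i _ => ?_
      rw [xh_ge k (v a) hk m (mem_Ico.1 hm).1 i, zero_smul]
    have h4 : mu (2 * j) (v a) ≤ ((2 * j : ℕ) : ℝ) := by
      rw [mu_stable k (2 * j) (by omega) (v a) hk]
      refine hK.trans ?_
      exact_mod_cast (show K ≤ 2 * j by omega)
    unfold ww
    rw [if_neg (by omega), h2, if_pos ⟨h3, h4⟩]
    exact ha

theorem exists_model : ∃ (X : Type) (_ : NormedAddCommGroup X) (_ : NormedSpace ℂ X)
    (_ : CompleteSpace X),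
    Function.Surjective (NormedSpace.inclusionInDoubleDual ℂ X) ∧ Nonempty (Model X) := by
  obtain ⟨v, hv, hv'⟩ := exists_dense
  obtain ⟨T, hT⟩ := exists_T (ww v) (ww_Pr v) (ww_mass v)
  exact ⟨XX, inferInstance, inferInstance, inferInstance, lp_two_reflexive,
    ⟨{ f := xf
       h := xh
       Pr := xPr
       T := T
       w := ww v
       h_f_same := x_h_f_same
       h_f_ne := x_h_f_ne
       sum_h_le := x_sum_h_le
       norm_f_le := fun n i => (x_norm_f n i).le
       Pr_eq := x_Pr_eq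
       norm_Pr_le := x_norm_Pr_le
       tendsto_Pr := x_tendsto_Pr
       T_f := hT
       Pr_w := ww_Pr v
       mass_w := ww_mass v
       w_odd := ww_odd v
       w_even := ww_even v hv hv' }⟩⟩

end Pool.Agent.H3.FH
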