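import Pool.Agent.H3.FH.Hat

set_option autoImplicit false

namespace Pool.Agent.H3.FH
namespace FW

open Finset

variable {X : Type} [NormedAddCommGroup X] [NormedSpace ℂ X] (M : Model X)

/-! ### Iterates as continuous linear maps -/

/-- `T ^ t` as a continuous linear map -/
noncomputable def Tp (t : ℕ) : X →L[ℂ] X := (M.T : X →L[ℂ] X) ^ t

theorem Tp_apply (t : ℕ) (x : X) : Tp M t x = (⇑M.T)^[t] x := by
  unfold Tp
  rw [FunLike.coe_pow_eq_iterate]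
  rfl

theorem Tp_f (t n : ℕ) : Tp M t (M.f n 0) =
    M.f n (t : ZMod (L n)) + o n (t : ZMod (L n)) • Tp M t (M.w n) := by
  rw [Tp_apply, Tp_apply, ← F_zero, iter_T_F, zero_add]
  unfold F
  rw [← Tw_zero M n, iter_T_Tw, zero_add]

/-- partial sums of the chain vector -/
noncomputable def S (i : ℕ) : X := ∑ m ∈ range i, M.f (2 * m + 1) 0

theorem S_succ (i : ℕ) : S M (i + 1) = S M i + M.f (2 * i + 1) 0 := by
  unfold S; rw [sum_range_succ]

theorem Tp_S_on (i t : ℕ) (h : o (2 * i + 1) (t : ZMod (L (2 * i + 1))) = 1) :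
    Tp M t (S M (i + 1)) = M.f (2 * i + 1) t + Tp M t (M.f (2 * padicValNat 2 (i + 1)) 0) := by
  rw [S_succ, map_add, Tp_f, h, one_smul, M.w_odd, map_sub]
  unfold S
  abel

theorem Tp_S_off (i t : ℕ) (h : o (2 * i + 1) (t : ZMod (L (2 * i + 1))) = 0) :
    Tp M t (S M (i + 1)) = Tp M t (S M i) + M.f (2 * i + 1) t := by
  rw [S_succ, map_add, Tp_f, h, zero_smul, add_zero]

theorem Tp_gadget (g t : ℕ) (hg : 1 ≤ g) (h : o g (t : ZMod (L g)) = 1) (hd : L (g - 1) ∣ t) :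
    Tp M t (M.f g 0) = M.f g t + M.w g := by
  rw [Tp_f, h, one_smul, Tp_apply, iter_T_w M hg hd]

/-! ### Windows -/

theorem qq_nat (n t : ℕ) : qq n (t : ZMod (L n)) = (t % L n + Q n) % (2 * N n) := by
  have h := qq_add n 0 t
  rw [zero_add] at h
  have h0 : qq n 0 = Q n := by
    unfold qq
    rw [zero_add, ZMod.val_natCast, Nat.mod_eq_of_lt]
    rw [L_eq_two_mul_N]; have := Q_lt_N n; omega
  rw [h, h0, ← L_eq_two_mul_N, Nat.mod_add_mod, add_comm]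

theorem win_off {n t K : ℕ} (h : t % L n < K) (hK : Q n + K ≤ N n) :
    o n (t : ZMod (L n)) = 0 ∧ of n (t : ZMod (L n)) = Q n + t % L n := by
  have h1 := qq_nat n t
  rw [Nat.mod_eq_of_lt (by omega)] at h1
  constructor
  · rw [o_eq, if_neg (by omega)]
  · rw [of_of_lt (by omega)]; omega

theorem win_on {n t K : ℕ} (h1 : N n ≤ t % L n) (h2 : t % L n < N n + K) (hK : Q n + K ≤ N n) :
    o n (t : ZMod (L n)) = 1 ∧ of n (t : ZMod (L n)) = Q n + (t % L n - N n) := by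
  have h3 := qq_nat n t
  rw [Nat.mod_eq_of_lt (by omega)] at h3
  constructor
  · rw [o_eq, if_pos (by omega)]
  · rw [of_of_ge (by omega)]; omega

theorem ee_le_Q (n : ℕ) : ee n + (n + 5) ≤ Q n := by
  have h1 : n + 2 ≤ 2 ^ (n + 2) := (Nat.lt_two_pow_self).le
  have h2 : ee n ≤ 2 ^ (3 * (n + 2)) := by
    rw [ee_def]
    calc (n + 2) ^ 3 ≤ (2 ^ (n + 2)) ^ 3 := Nat.pow_le_pow_left h1 3
      _ = 2 ^ (3 * (n + 2)) := by rw [← pow_mul]; ring_nf
  have h3 : n + 5 ≤ 2 ^ (n + 5) := (Nat.lt_two_pow_self).le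
  have h4 : 2 ^ (n + 5) ≤ 2 ^ (3 * (n + 2)) := Nat.pow_le_pow_right (by norm_num) (by omega)
  have h5 : 3 * (n + 2) + 1 ≤ rr n := by
    have h6 := rr_eq n
    have h7 := ll_def n
    nlinarith
  rw [Q_def]
  calc ee n + (n + 5) ≤ 2 ^ (3 * (n + 2)) + 2 ^ (3 * (n + 2)) := by omega
    _ = 2 ^ (3 * (n + 2) + 1) := by ring
    _ ≤ 2 ^ rr n := Nat.pow_le_pow_right (by norm_num) h5

theorem Q_div_L (n : ℕ) : (Q n : ℝ) / L n = (1 / 2) ^ (n + 6) := by
  rw [Q_def, L_def, ← rr_eq n]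
  push_cast
  rw [pow_add, one_div, inv_pow]
  field_simp

theorem al_le {n p K : ℕ} (h1 : Q n ≤ p) (h2 : 2 * p ≤ Z n) (h3 : p + 1 ≤ Q n + K) :
    al n p ≤ (1 / 2) ^ (n + 5) + (K : ℝ) / L n := by
  have hL : (0 : ℝ) < L n := by exact_mod_cast L_pos n
  have hK : (0 : ℝ) ≤ (K : ℝ) / L n := by positivity
  have hH : H n / 2 ^ (Q n) ≤ (1 / 2) ^ (n + 5) := by
    rw [H_def, one_div, inv_pow, div_le_iff₀ (by positivity)]
    have h4 := ee_le_Q n
    have h5 : (2 : ℝ) ^ (ee n) * 2 ^ (n + 5) ≤ 2 ^ (Q n) := by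
      rw [← pow_add]; exact pow_le_pow_right₀ (by norm_num) h4
    have h6 : (0 : ℝ) < 2 ^ (n + 5) := by positivity
    calc (2 : ℝ) ^ (ee n) = (2 ^ (n + 5))⁻¹ * (2 ^ (ee n) * 2 ^ (n + 5)) := by field_simp
      _ ≤ (2 ^ (n + 5))⁻¹ * 2 ^ (Q n) := mul_le_mul_of_nonneg_left h5 (by positivity)
  have hQ := Q_div_L n
  have hhalf : ((1 : ℝ) / 2) ^ (n + 6) ≤ (1 / 2) ^ (n + 5) :=
    pow_le_pow_of_le_one (by norm_num) (by norm_num) (by omega)
  unfold al
  refine (min_le_right _ _).trans (max_le ?_ (max_le ?_ ?_))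
  · have h4 : H n / 2 ^ p ≤ H n / 2 ^ (Q n) :=
      div_le_div_of_nonneg_left (H_pos n).le (by positivity)
        (pow_le_pow_right₀ (by norm_num) h1)
    linarith
  · have h4 : ((p : ℝ) + 1) / L n ≤ ((Q n : ℝ) + K) / L n := by
      apply div_le_div_of_nonneg_right _ hL.le
      exact_mod_cast h3
    rw [add_div (Q n : ℝ), hQ] at h4
    linarith
  · have h4 : H n * 2 ^ p / 2 ^ Z n ≤ H n / 2 ^ (Q n) := by
      rw [div_le_div_iff₀ (by positivity) (by positivity), mul_assoc, ← pow_add]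
      apply mul_le_mul_of_nonneg_left _ (H_pos n).le
      exact pow_le_pow_right₀ (by norm_num) (by omega)
    linarith

theorem norm_f_off {n t K : ℕ} (h : t % L n < K) (hK : 2 * (Q n + K) ≤ Z n) :
    o n (t : ZMod (L n)) = 0 ∧ ‖M.f n t‖ ≤ (1 / 2) ^ (n + 5) + (K : ℝ) / L n := by
  have h0 := two_Z_le_N n
  obtain ⟨h1, h2⟩ := win_off h (by omega)
  refine ⟨h1, (M.norm_f_le n t).trans ?_⟩
  unfold a
  rw [h2]
  exact al_le (by omega) (by omega) (by omega)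

theorem norm_f_on {n t K : ℕ} (ha : N n ≤ t % L n) (hb : t % L n < N n + K)
    (hK : 2 * (Q n + K) ≤ Z n) :
    o n (t : ZMod (L n)) = 1 ∧ ‖M.f n t‖ ≤ (1 / 2) ^ (n + 5) + (K : ℝ) / L n := by
  have h0 := two_Z_le_N n
  obtain ⟨h1, h2⟩ := win_on ha hb (by omega)
  refine ⟨h1, (M.norm_f_le n t).trans ?_⟩
  unfold a
  rw [h2]
  exact al_le (by omega) (by omega) (by omega)

/-- window length -/
def K (n s : ℕ) : ℕ := 2 ^ (ll n - s)

theorem K_mul {n s : ℕ} (h : s ≤ ll n) : K n s * 2 ^ s = L n := by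
  unfold K; rw [L_def, ← pow_add]; congr 1; omega

theorem K_div {n s : ℕ} (h : s ≤ ll n) : (K n s : ℝ) / L n = (1 / 2) ^ s := by
  rw [← K_mul h]
  push_cast
  have : (K n s : ℝ) ≠ 0 := by unfold K; positivity
  rw [one_div, inv_pow]
  field_simp

theorem K_odd {n s : ℕ} (hn : n % 2 = 1) (hs : 4 ≤ s) : 2 * (Q n + K n s) ≤ Z n := by
  rw [Q_def, Z_def, ss_def, if_pos hn]
  unfold K
  have h1 := rr_eq n
  have h2 := hundred_le_ll n
  have h3 : 2 ^ rr n ≤ 2 ^ (ll n - 4) := Nat.pow_le_pow_right (by norm_num) (by omega)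
  have h4 : 2 ^ (ll n - s) ≤ 2 ^ (ll n - 4) := Nat.pow_le_pow_right (by norm_num) (by omega)
  calc 2 * (2 ^ rr n + 2 ^ (ll n - s)) ≤ 2 * (2 ^ (ll n - 4) + 2 ^ (ll n - 4)) := by omega
    _ = 2 ^ (ll n - 4 + 2) := by ring
    _ = 2 ^ (ll n - 2) := by congr 1; omega

theorem K_even (g : ℕ) (hg : g % 2 = 0) : 2 * (Q g + K g (g + 4)) ≤ Z g := by
  rw [Q_def, Z_def, ss_def, if_neg (by omega)]
  unfold K
  have h1 := rr_eq g
  have h2 := hundred_le_ll g
  have h3 : 2 ^ rr g ≤ 2 ^ (ll g - (g + 4)) := Nat.pow_le_pow_right (by norm_num) (by omega)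
  calc 2 * (2 ^ rr g + 2 ^ (ll g - (g + 4))) ≤ 2 * (2 ^ (ll g - (g + 4)) + 2 ^ (ll g - (g + 4))) := by
        omega
    _ = 2 ^ (ll g - (g + 4) + 2) := by ring
    _ = 2 ^ (ll g - (g + 2)) := by congr 1; omega

/-! ### The vector -/

theorem norm_f_zero (i : ℕ) : ‖M.f (2 * i + 1) 0‖ ≤ (1 / 2) ^ i := by
  have hs : 2 * i + 1 + 5 ≤ ll (2 * i + 1) := by have := hundred_le_ll (2 * i + 1); omega
  have h := (norm_f_off M (n := 2 * i + 1) (t := 0) (K := K (2 * i + 1) (2 * i + 1 + 5))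
    (by rw [Nat.zero_mod]; unfold K; positivity) (K_odd (by omega) (by omega))).2
  rw [Nat.cast_zero, K_div hs] at h
  have h2 : ((1 : ℝ) / 2) ^ (2 * i + 1 + 5) ≤ (1 / 2) ^ (i + 1) :=
    pow_le_pow_of_le_one (by norm_num) (by norm_num) (by omega)
  rw [pow_succ _ i] at h2
  linarith

theorem summable_f [CompleteSpace X] : Summable (fun i : ℕ => M.f (2 * i + 1) 0) :=
  Summable.of_norm_bounded summable_geometric_two (norm_f_zero M)

/-- the frequently hypercyclic vector -/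
noncomputable def xx : X := ∑' i : ℕ, M.f (2 * i + 1) 0

theorem ll_add (n k : ℕ) : ll n + k ≤ ll (n + k) := by
  rw [ll_def, ll_def]; nlinarith [Nat.zero_le (n * k), Nat.zero_le (k * k)]

theorem tail_term {s i t : ℕ} (hs : 4 ≤ s) (hsi : s ≤ 2 * i + 8) (ht : t < K (2 * i + 3) s)
    (k : ℕ) : ‖Tp M t (M.f (2 * (k + (i + 1)) + 1) 0)‖ ≤ 2 * (1 / 2) ^ s * (1 / 2) ^ k := by
  have h1 : ll (2 * i + 3) + 2 * k ≤ ll (2 * (k + (i + 1)) + 1) := by
    have := ll_add (2 * i + 3) (2 * k)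
    rwa [show 2 * i + 3 + 2 * k = 2 * (k + (i + 1)) + 1 by ring] at this
  have h2 := hundred_le_ll (2 * i + 3)
  have h3 : t < K (2 * (k + (i + 1)) + 1) (s + k) := by
    refine lt_of_lt_of_le ht ?_
    unfold K
    exact Nat.pow_le_pow_right (by norm_num) (by omega)
  have h4 : s + k ≤ ll (2 * (k + (i + 1)) + 1) := by omega
  have h5 : t % L (2 * (k + (i + 1)) + 1) < K (2 * (k + (i + 1)) + 1) (s + k) :=
    lt_of_le_of_lt (Nat.mod_le _ _) h3
  obtain ⟨h6, h7⟩ := norm_f_off M h5 (K_odd (by omega) (by omega))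
  rw [K_div h4] at h7
  rw [Tp_f, h6, zero_smul, add_zero]
  have h8 : ((1 : ℝ) / 2) ^ (2 * (k + (i + 1)) + 1 + 5) ≤ (1 / 2) ^ (s + k) :=
    pow_le_pow_of_le_one (by norm_num) (by norm_num) (by omega)
  calc _ ≤ ((1 : ℝ) / 2) ^ (2 * (k + (i + 1)) + 1 + 5) + (1 / 2) ^ (s + k) := h7
    _ ≤ (1 / 2) ^ (s + k) + (1 / 2) ^ (s + k) := by linarith
    _ = 2 * (1 / 2) ^ s * (1 / 2) ^ k := by rw [pow_add]; ring

theorem tail_le [CompleteSpace X] {s i t : ℕ} (hs : 4 ≤ s) (hsi : s ≤ 2 * i + 8)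
    (ht : t < K (2 * i + 3) s) : ‖Tp M t (xx M) - Tp M t (S M (i + 1))‖ ≤ 4 * (1 / 2) ^ s := by
  have h1 := (summable_f M).sum_add_tsum_nat_add (i + 1)
  have h2 : Summable (fun k : ℕ => M.f (2 * (k + (i + 1)) + 1) 0) :=
    (summable_nat_add_iff (f := fun i : ℕ => M.f (2 * i + 1) 0) (i + 1)).2 (summable_f M)
  have h3 : xx M - S M (i + 1) = ∑' k : ℕ, M.f (2 * (k + (i + 1)) + 1) 0 := by
    unfold xx S
    rw [← h1]; abel
  rw [← map_sub, h3, ContinuousLinearMap.map_tsum _ h2]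
  have h4 : HasSum (fun k : ℕ => 2 * ((1 : ℝ) / 2) ^ s * (1 / 2) ^ k) (4 * (1 / 2) ^ s) := by
    have := (hasSum_geometric_two).mul_left (2 * ((1 : ℝ) / 2) ^ s)
    rwa [show 2 * ((1 : ℝ) / 2) ^ s * 2 = 4 * (1 / 2) ^ s by ring] at this
  exact tsum_of_norm_bounded h4 (tail_term M hs hsi ht)

/-! ### Good times -/

/-- the condition on the gadget -/
def P0 (g t : ℕ) : Prop := N g ≤ t % L g ∧ t % L g < N g + K g (g + 4) ∧ L (g - 1) ∣ t

/-- good times: last reset at chain block `2 i₀ + 1`, followed by `d` passes -/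
def G (g s i₀ : ℕ) : ℕ → ℕ → Prop
  | 0, t => (N (2 * i₀ + 1) ≤ t % L (2 * i₀ + 1) ∧
      t % L (2 * i₀ + 1) < N (2 * i₀ + 1) + K (2 * i₀ + 1) s) ∧ P0 g t
  | d + 1, t => t % L (2 * (i₀ + d + 1) + 1) < K (2 * (i₀ + d + 1) + 1) s ∧ G g s i₀ d t

theorem err {j s i₀ : ℕ} (hj : 1 ≤ j) (hs : 4 ≤ s) (hsi : s ≤ 2 * i₀ + 6)
    (hν : padicValNat 2 (i₀ + 1) = j) (d t : ℕ) (h : G (2 * j) s i₀ d t) :
    ‖Tp M t (S M (i₀ + d + 1)) - M.w (2 * j)‖ ≤
      (1 / 2) ^ (2 * j + 3) + ((d : ℝ) + 1) * (2 * (1 / 2) ^ s) := by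
  induction d with
  | zero =>
    obtain ⟨⟨h1, h2⟩, h3, h4, h5⟩ := h
    have hl1 := hundred_le_ll (2 * i₀ + 1)
    have hl2 := hundred_le_ll (2 * j)
    obtain ⟨h6, h7⟩ := norm_f_on M h1 h2 (K_odd (by omega) hs)
    obtain ⟨h8, h9⟩ := norm_f_on M h3 h4 (K_even _ (by omega))
    rw [K_div (by omega)] at h7 h9
    rw [add_zero, Tp_S_on M i₀ t h6, hν, Tp_gadget M _ _ (by omega) h8 h5]
    have h10 : ((1 : ℝ) / 2) ^ (2 * i₀ + 1 + 5) ≤ (1 / 2) ^ s :=
      pow_le_pow_of_le_one (by norm_num) (by norm_num) (by omega)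
    have h11 : ((1 : ℝ) / 2) ^ (2 * j + 5) + (1 / 2) ^ (2 * j + 4) ≤ (1 / 2) ^ (2 * j + 3) := by
      have e0 : (0 : ℝ) < (1 / 2) ^ (2 * j) := by positivity
      have e5 : ((1 : ℝ) / 2) ^ (2 * j + 5) = (1 / 2) ^ (2 * j) * (1 / 32) := by
        rw [pow_add]; norm_num
      have e4 : ((1 : ℝ) / 2) ^ (2 * j + 4) = (1 / 2) ^ (2 * j) * (1 / 16) := by
        rw [pow_add]; norm_num
      have e3 : ((1 : ℝ) / 2) ^ (2 * j + 3) = (1 / 2) ^ (2 * j) * (1 / 8) := by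
        rw [pow_add]; norm_num
      rw [e5, e4, e3]
      nlinarith
    have h12 : ∀ a b c : X, a + (b + c) - c = a + b := fun a b c => by abel
    rw [h12]
    refine (norm_add_le _ _).trans ?_
    push_cast
    linarith
  | succ d ih =>
    obtain ⟨h1, h2⟩ := h
    have h3 := ih h2
    obtain ⟨h6, h7⟩ := norm_f_off M h1 (K_odd (by omega) hs)
    have hl1 := hundred_le_ll (2 * (i₀ + d + 1) + 1)
    rw [K_div (by omega)] at h7
    have h4 : i₀ + (d + 1) + 1 = (i₀ + d + 1) + 1 := by ring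
    rw [h4, Tp_S_off M _ t h6]
    have h10 : ((1 : ℝ) / 2) ^ (2 * (i₀ + d + 1) + 1 + 5) ≤ (1 / 2) ^ s :=
      pow_le_pow_of_le_one (by norm_num) (by norm_num) (by omega)
    have h12 : ∀ a b c : X, a + b - c = (a - c) + b := fun a b c => by abel
    rw [h12]
    refine (norm_add_le _ _).trans ?_
    push_cast
    linarith

/-! ### Counting -/

theorem count_le_of_imp {p q : ℕ → Prop} [DecidablePred p] [DecidablePred q] (n : ℕ)
    (h : ∀ t < n, p t → q t) : Nat.count p n ≤ Nat.count q n := by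
  rw [Nat.count_eq_card_filter_range, Nat.count_eq_card_filter_range]
  apply card_le_card
  intro t ht
  rw [mem_filter, mem_range] at ht ⊢
  exact ⟨ht.1, h t ht.1 ht.2⟩

theorem count_mul {p : ℕ → Prop} [DecidablePred p] (P : ℕ) (hp : ∀ t, p (P + t) ↔ p t) (k : ℕ) :
    Nat.count p (k * P) = k * Nat.count p P := by
  induction k with
  | zero => simp
  | succ k ih =>
    rw [show (k + 1) * P = P + k * P by ring, Nat.count_add]
    have : Nat.count (fun x => p (P + x)) (k * P) = Nat.count p (k * P) := by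
      apply le_antisymm
      · exact count_le_of_imp _ fun t _ => (hp t).1
      · exact count_le_of_imp _ fun t _ => (hp t).2
    rw [this, ih]; ring

theorem mod_add {m P : ℕ} (h : m ∣ P) (t : ℕ) : (P + t) % m = t % m := by
  obtain ⟨c, rfl⟩ := h
  rw [add_comm, Nat.add_mul_mod_self_left]

theorem P0_per {g P : ℕ} (h : L g ∣ P) (t : ℕ) : P0 g (P + t) ↔ P0 g t := by
  unfold P0
  rw [mod_add h, Nat.dvd_add_right ((L_dvd (by omega)).trans h)]

theorem G_per {g s i₀ : ℕ} (hg : g ≤ 2 * i₀ + 1) (d : ℕ) {P : ℕ} (h : L (2 * (i₀ + d) + 1) ∣ P)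
    (t : ℕ) : G g s i₀ d (P + t) ↔ G g s i₀ d t := by
  induction d with
  | zero =>
    unfold G
    rw [add_zero] at h
    rw [mod_add h, P0_per ((L_dvd hg).trans h)]
  | succ d ih =>
    unfold G
    rw [mod_add (m := L (2 * (i₀ + d + 1) + 1)) h, ih ((L_dvd (by omega)).trans h)]

theorem L_dvd_K {m n s : ℕ} (h : m < n) (hs : s ≤ n + 6) : L m ∣ K n s := by
  unfold K
  rw [L_def]
  apply pow_dvd_pow
  have h1 := ll_le_rr h
  have h2 := rr_eq n
  omega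

open Classical in
theorem count_G {g s i₀ : ℕ} (hg1 : 1 ≤ g) (hg : g < 2 * i₀ + 1) (hs1 : 1 ≤ s)
    (hs : s ≤ 2 * i₀ + 7) (d : ℕ) :
    L (2 * (i₀ + d) + 1) ≤
      Nat.count (G g s i₀ d) (L (2 * (i₀ + d) + 1)) * (2 ^ (s * (d + 1)) * L g) := by
  induction d with
  | zero =>
    have hl := hundred_le_ll (2 * i₀ + 1)
    rw [add_zero]
    obtain ⟨q, hq⟩ := L_dvd_K hg (s := s) (by omega)
    have hKL := K_mul (n := 2 * i₀ + 1) (s := s) (by omega)
    have hKN : K (2 * i₀ + 1) s ≤ N (2 * i₀ + 1) := by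
      unfold K; rw [N_def]; exact Nat.pow_le_pow_right (by norm_num) (by omega)
    have hK0 : 0 < K (2 * i₀ + 1) s := by unfold K; positivity
    have h1 : Nat.count (P0 g) (L g) ≥ 1 := by
      apply Nat.succ_le_of_lt
      rw [Nat.count_eq_card_filter_range]
      apply card_pos.2
      refine ⟨N g, ?_⟩
      have h2 := L_eq_two_mul_N g
      have h3 := N_pos g
      rw [mem_filter, mem_range]
      refine ⟨by omega, ?_⟩
      unfold P0
      rw [Nat.mod_eq_of_lt (by omega)]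
      refine ⟨le_refl _, ?_, L_dvd_N (by omega)⟩
      have : 0 < K g (g + 4) := by unfold K; positivity
      omega
    have h2 : q ≤ Nat.count (P0 g) (K (2 * i₀ + 1) s) := by
      rw [hq, mul_comm (L g) q, count_mul _ (fun t => P0_per (dvd_refl _) t)]
      exact Nat.le_mul_of_pos_right _ h1
    have h3 : Nat.count (P0 g) (K (2 * i₀ + 1) s) ≤
        Nat.count (fun x => G g s i₀ 0 (N (2 * i₀ + 1) + x)) (K (2 * i₀ + 1) s) := by
      apply count_le_of_imp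
      intro t ht hP
      unfold G
      have h4 := L_eq_two_mul_N (2 * i₀ + 1)
      rw [Nat.mod_eq_of_lt (by omega)]
      exact ⟨⟨by omega, by omega⟩, (P0_per (L_dvd_N hg) t).2 hP⟩
    have h4 : Nat.count (fun x => G g s i₀ 0 (N (2 * i₀ + 1) + x)) (K (2 * i₀ + 1) s) ≤
        Nat.count (G g s i₀ 0) (L (2 * i₀ + 1)) := by
      calc _ ≤ Nat.count (G g s i₀ 0) (N (2 * i₀ + 1) + K (2 * i₀ + 1) s) := by
            rw [Nat.count_add]; exact Nat.le_add_left _ _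
        _ ≤ _ := Nat.count_monotone _ (by rw [L_eq_two_mul_N]; omega)
    have h5 : q ≤ Nat.count (G g s i₀ 0) (L (2 * i₀ + 1)) := h2.trans (h3.trans h4)
    calc L (2 * i₀ + 1) = K (2 * i₀ + 1) s * 2 ^ s := hKL.symm
      _ = q * (2 ^ (s * (0 + 1)) * L g) := by rw [hq]; ring
      _ ≤ _ := Nat.mul_le_mul_right _ h5
  | succ d ih =>
    have hl := hundred_le_ll (2 * (i₀ + d + 1) + 1)
    have hd : L (2 * (i₀ + d) + 1) ∣ K (2 * (i₀ + d + 1) + 1) s := L_dvd_K (by omega) (by omega)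
    obtain ⟨q, hq⟩ := hd
    have hKL := K_mul (n := 2 * (i₀ + d + 1) + 1) (s := s) (by omega)
    have hKL' : K (2 * (i₀ + d + 1) + 1) s ≤ L (2 * (i₀ + d + 1) + 1) := by
      rw [← hKL]; exact Nat.le_mul_of_pos_right _ (by positivity)
    have h1 : q * Nat.count (G g s i₀ d) (L (2 * (i₀ + d) + 1)) =
        Nat.count (G g s i₀ d) (K (2 * (i₀ + d + 1) + 1) s) := by
      rw [hq, mul_comm (L _) q, count_mul _ (fun t => G_per hg.le d (dvd_refl _) t)]
    have h2 : Nat.count (G g s i₀ d) (K (2 * (i₀ + d + 1) + 1) s) ≤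
        Nat.count (G g s i₀ (d + 1)) (K (2 * (i₀ + d + 1) + 1) s) := by
      apply count_le_of_imp
      intro t ht hG
      exact ⟨by rw [Nat.mod_eq_of_lt (by omega)]; exact ht, hG⟩
    have h3 : Nat.count (G g s i₀ (d + 1)) (K (2 * (i₀ + d + 1) + 1) s) ≤
        Nat.count (G g s i₀ (d + 1)) (L (2 * (i₀ + d + 1) + 1)) := Nat.count_monotone _ hKL'
    have h4 : i₀ + (d + 1) = i₀ + d + 1 := by ring
    rw [h4]
    calc L (2 * (i₀ + d + 1) + 1) = L (2 * (i₀ + d) + 1) * q * 2 ^ s := by rw [← hKL, hq]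
      _ ≤ (Nat.count (G g s i₀ d) (L (2 * (i₀ + d) + 1)) * (2 ^ (s * (d + 1)) * L g)) * q * 2 ^ s := by
          exact Nat.mul_le_mul_right _ (Nat.mul_le_mul_right _ ih)
      _ = (q * Nat.count (G g s i₀ d) (L (2 * (i₀ + d) + 1))) * (2 ^ (s * (d + 1 + 1)) * L g) := by
          ring
      _ ≤ _ := Nat.mul_le_mul_right _ (by omega)

theorem exists_level {I : ℕ} (hI : 1 ≤ I) {NN : ℕ} (h : L (2 * I + 1) ≤ NN) :
    ∃ i, I ≤ i ∧ L (2 * i + 1) ≤ NN ∧ NN < L (2 * i + 3) := by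
  have hex : ∃ i, NN < L (2 * i + 3) := by
    refine ⟨NN, ?_⟩
    calc NN < 2 ^ NN := Nat.lt_two_pow_self
      _ ≤ L (2 * NN + 3) := by
        rw [L_def]; apply Nat.pow_le_pow_right (by norm_num)
        have := hundred_le_ll (2 * NN + 3); omega
  classical
  refine ⟨Nat.find hex, ?_, ?_, Nat.find_spec hex⟩
  · by_contra hlt
    push Not at hlt
    have h1 := Nat.find_spec hex
    have h2 : L (2 * Nat.find hex + 3) ≤ L (2 * I + 1) := Nat.le_of_dvd (L_pos _) (L_dvd (by omega))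
    omega
  · have h0 : I ≤ Nat.find hex := by
      by_contra hlt
      push Not at hlt
      have h1 := Nat.find_spec hex
      have h2 : L (2 * Nat.find hex + 3) ≤ L (2 * I + 1) := Nat.le_of_dvd (L_pos _) (L_dvd (by omega))
      omega
    have h1 := Nat.find_min hex (m := Nat.find hex - 1) (by omega)
    push Not at h1
    rwa [show 2 * (Nat.find hex - 1) + 3 = 2 * Nat.find hex + 1 by omega] at h1

theorem exists_reset (j i : ℕ) (hi : 2 ^ (j + 1) ≤ i) :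
    ∃ i₀ d, i = i₀ + d ∧ d < 2 ^ (j + 1) ∧ padicValNat 2 (i₀ + 1) = j := by
  have h0 : 0 < 2 ^ j := by positivity
  have h1 : 2 ^ (j + 1) = 2 * 2 ^ j := by ring
  obtain ⟨q, hq⟩ : ∃ q, q = (i + 1 - 2 ^ j) / 2 ^ (j + 1) := ⟨_, rfl⟩
  have h2 := Nat.div_add_mod (i + 1 - 2 ^ j) (2 ^ (j + 1))
  have h3 := Nat.mod_lt (i + 1 - 2 ^ j) (show 0 < 2 ^ (j + 1) by positivity)
  rw [← hq] at h2
  have h4 : 2 ^ (j + 1) * q + 2 ^ j = 2 ^ j * (2 * q + 1) := by ring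
  have h5 : 0 < 2 ^ j * (2 * q + 1) := by positivity
  refine ⟨2 ^ j * (2 * q + 1) - 1, (i + 1 - 2 ^ j) % 2 ^ (j + 1), by omega, h3, ?_⟩
  rw [Nat.sub_add_cancel h5, padicValNat.mul (by positivity) (by omega), padicValNat.prime_pow,
    padicValNat.eq_zero_of_not_dvd (by omega), add_zero]

end FW

open FW in
/-- `T` is frequently hypercyclic. -/
theorem fwd {X : Type} [NormedAddCommGroup X] [NormedSpace ℂ X] [CompleteSpace X] (M : Model X) :
    ∃ x : X, ∀ U : Set X, IsOpen U → U.Nonempty → ∃ c : ℝ, 0 < c ∧ ∃ N₀ : ℕ, ∀ N : ℕ, N₀ ≤ N →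
      c * (N : ℝ) ≤ (Nat.card {n : ℕ // n < N ∧ (⇑M.T)^[n] x ∈ U} : ℝ) := by
  classical
  refine ⟨xx M, fun U hU hne => ?_⟩
  obtain ⟨x₀, hx₀⟩ := hne
  obtain ⟨r', hr', hball⟩ := Metric.isOpen_iff.1 hU x₀ hx₀
  obtain ⟨r, hr0, rfl⟩ : ∃ r : ℝ, 0 < r ∧ r' = 2 * r := ⟨r' / 2, by positivity, by ring⟩
  obtain ⟨g₀, hg₀⟩ := exists_pow_lt_of_lt_one (show (0 : ℝ) < r / 4 by positivity)
    (show (1 / 2 : ℝ) < 1 by norm_num)
  obtain ⟨j, hj, hw⟩ := M.w_even (Metric.ball x₀ r) Metric.isOpen_ball ⟨x₀, Metric.mem_ball_self hr0⟩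
    (max 1 g₀)
  have hj1 : 1 ≤ j := (le_max_left _ _).trans hj
  have hj2 : g₀ ≤ j := (le_max_right _ _).trans hj
  have hU' : ∀ y : X, ‖y - M.w (2 * j)‖ < r → y ∈ U := by
    intro y hy
    apply hball
    rw [Metric.mem_ball] at hw ⊢
    rw [← dist_eq_norm] at hy
    linarith [dist_triangle y (M.w (2 * j)) x₀]
  have hgad : ((1 : ℝ) / 2) ^ (2 * j + 3) < r / 4 :=
    lt_of_le_of_lt (pow_le_pow_of_le_one (by norm_num) (by norm_num) (by omega)) hg₀
  obtain ⟨s₀, hs₀⟩ := exists_pow_lt_of_lt_one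
    (show (0 : ℝ) < r / 4 / (2 * 2 ^ (j + 1) + 4) by positivity) (show (1 / 2 : ℝ) < 1 by norm_num)
  obtain ⟨s, hs4, hs⟩ : ∃ s : ℕ, 4 ≤ s ∧
      (2 * 2 ^ (j + 1) + 4) * ((1 : ℝ) / 2) ^ s < r / 4 := by
    refine ⟨max 4 s₀, le_max_left _ _, ?_⟩
    have h1 : ((1 : ℝ) / 2) ^ (max 4 s₀) ≤ (1 / 2) ^ s₀ :=
      pow_le_pow_of_le_one (by norm_num) (by norm_num) (le_max_right _ _)
    have h2 : (0 : ℝ) < 2 * 2 ^ (j + 1) + 4 := by positivity
    rw [lt_div_iff₀ h2] at hs₀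
    nlinarith
  -- the threshold
  set I : ℕ := s + 2 * j + 1 + 2 ^ (j + 1) with hI
  set D : ℕ := 2 ^ (s + 1) * (2 ^ (s * 2 ^ (j + 1)) * L (2 * j)) with hD
  have hDpos : 0 < D := by rw [hD]; have := L_pos (2 * j); positivity
  refine ⟨1 / (D : ℝ), by positivity, L (2 * I + 1), fun NN hNN => ?_⟩
  have hpow : 0 < 2 ^ (j + 1) := by positivity
  have hI1 : 1 ≤ I := by rw [hI]; omega
  obtain ⟨i, hi, hLi, hLi'⟩ := exists_level hI1 hNN
  obtain ⟨i₀, d, rfl, hd, hν⟩ := exists_reset j i (by omega)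
  have hi₀ : s + 2 * j + 1 ≤ i₀ := by omega
  have hl := hundred_le_ll (2 * (i₀ + d) + 3)
  have hKL := K_mul (n := 2 * (i₀ + d) + 3) (s := s) (by omega)
  have hdvd : L (2 * (i₀ + d) + 1) ∣ K (2 * (i₀ + d) + 3) s := L_dvd_K (by omega) (by omega)
  set KK := K (2 * (i₀ + d) + 3) s with hKK
  have hKK0 : 0 < KK := by rw [hKK]; unfold K; positivity
  -- visits
  have hvisit : ∀ t < min NN KK, G (2 * j) s i₀ d t → (⇑M.T)^[t] (xx M) ∈ U := by
    intro t ht hG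
    have ht2 : t < KK := lt_of_lt_of_le ht (min_le_right _ _)
    apply hU'
    rw [← Tp_apply]
    have h1 := err M hj1 hs4 (by omega) hν d t hG
    have h2 := tail_le M (i := i₀ + d) hs4 (by omega) ht2
    have h3 : Tp M t (xx M) - M.w (2 * j) = (Tp M t (xx M) - Tp M t (S M (i₀ + d + 1))) +
        (Tp M t (S M (i₀ + d + 1)) - M.w (2 * j)) := by abel
    rw [h3]
    refine lt_of_le_of_lt (norm_add_le _ _) ?_
    have h4 : ((d : ℝ) + 1) ≤ 2 ^ (j + 1) := by exact_mod_cast hd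
    have h5 : ((d : ℝ) + 1) * (2 * (1 / 2) ^ s) ≤ 2 ^ (j + 1) * (2 * (1 / 2) ^ s) :=
      mul_le_mul_of_nonneg_right h4 (by positivity)
    nlinarith
  -- counting
  have hLpos := L_pos (2 * (i₀ + d) + 1)
  set n := 2 * (i₀ + d) + 1 with hn
  set q := min NN KK / L n with hq
  have hmin : L n ≤ min NN KK := le_min hLi (Nat.le_of_dvd hKK0 hdvd)
  have hq1 : 1 ≤ q := (Nat.one_le_div_iff hLpos).2 hmin
  have hqle : q * L n ≤ min NN KK := Nat.div_mul_le_self _ _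
  have hqlt : min NN KK < (q + 1) * L n := by
    have h1 := Nat.div_add_mod (min NN KK) (L n)
    have h2 := Nat.mod_lt (min NN KK) hLpos
    rw [← hq] at h1
    nlinarith
  have hc := count_G (g := 2 * j) (s := s) (i₀ := i₀) (by omega) (by omega) (by omega) (by omega) d
  have h1 : q * Nat.count (G (2 * j) s i₀ d) (L n) ≤ Nat.count (fun t => (⇑M.T)^[t] (xx M) ∈ U) NN := by
    calc q * Nat.count (G (2 * j) s i₀ d) (L n) = Nat.count (G (2 * j) s i₀ d) (q * L n) :=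
          (count_mul _ (fun t => G_per (by omega) d (dvd_refl _) t) q).symm
      _ ≤ Nat.count (G (2 * j) s i₀ d) (min NN KK) := Nat.count_monotone _ hqle
      _ ≤ Nat.count (fun t => (⇑M.T)^[t] (xx M) ∈ U) (min NN KK) := count_le_of_imp _ hvisit
      _ ≤ _ := Nat.count_monotone _ (min_le_left _ _)
  have h2 : NN ≤ 2 ^ s * min NN KK := by
    rcases le_total NN KK with h | h
    · rw [min_eq_left h]; exact Nat.le_mul_of_pos_left _ (by positivity)
    · rw [min_eq_right h]; rw [mul_comm, hKL]; exact hLi'.le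
  have h3 : NN ≤ D * Nat.count (fun t => (⇑M.T)^[t] (xx M) ∈ U) NN := by
    have h4 : s * (d + 1) ≤ s * 2 ^ (j + 1) := Nat.mul_le_mul_left _ hd
    have h5 : 2 ^ (s * (d + 1)) ≤ 2 ^ (s * 2 ^ (j + 1)) := Nat.pow_le_pow_right (by norm_num) h4
    calc NN ≤ 2 ^ s * min NN KK := h2
      _ ≤ 2 ^ s * ((q + 1) * L n) := Nat.mul_le_mul_left _ hqlt.le
      _ ≤ 2 ^ s * ((2 * q) * L n) :=
          Nat.mul_le_mul_left _ (Nat.mul_le_mul_right _ (by omega))
      _ = 2 ^ (s + 1) * (q * L n) := by ring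
      _ ≤ 2 ^ (s + 1) * (q * (Nat.count (G (2 * j) s i₀ d) (L n) * (2 ^ (s * (d + 1)) * L (2 * j)))) :=
          Nat.mul_le_mul_left _ (Nat.mul_le_mul_left _ hc)
      _ = 2 ^ (s + 1) * (2 ^ (s * (d + 1)) * L (2 * j)) * (q * Nat.count (G (2 * j) s i₀ d) (L n)) := by
          ring
      _ ≤ 2 ^ (s + 1) * (2 ^ (s * 2 ^ (j + 1)) * L (2 * j)) *
            Nat.count (fun t => (⇑M.T)^[t] (xx M) ∈ U) NN :=
          Nat.mul_le_mul (Nat.mul_le_mul_left _ (Nat.mul_le_mul_right _ h5)) h1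
      _ = _ := by rw [hD]
  have h6 : Nat.card {n : ℕ // n < NN ∧ (⇑M.T)^[n] (xx M) ∈ U} =
      Nat.count (fun t => (⇑M.T)^[t] (xx M) ∈ U) NN := by
    rw [Nat.count_eq_card_fintype]
    let _ := Nat.CountSet.fintype (fun t => (⇑M.T)^[t] (xx M) ∈ U) NN
    exact Nat.card_eq_fintype_card
  rw [h6, div_mul_eq_mul_div, one_mul, div_le_iff₀ (by exact_mod_cast hDpos)]
  have h7 : ((NN : ℕ) : ℝ) ≤ ((D * Nat.count (fun t => (⇑M.T)^[t] (xx M) ∈ U) NN : ℕ) : ℝ) := by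
    exact_mod_cast h3
  push_cast at h7
  linarith

end Pool.Agent.H3.FH
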