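import Pool.Agent.H3.FH.Arith

set_option autoImplicit false

namespace Pool.Agent.H3.FH

open Finset

variable {X : Type} [NormedAddCommGroup X] [NormedSpace ℂ X] (M : Model X)

/-- `T ^ i (w n)`, for a position `i` of block `n` -/
noncomputable def Tw (n : ℕ) (i : ZMod (L n)) : X := (⇑M.T)^[i.val] (M.w n)

/-- hat vectors, rotated by `T` -/
noncomputable def F (n : ℕ) (i : ZMod (L n)) : X := M.f n i + o n i • Tw M n i

/-- `v` is a combination of hat vectors of blocks `< n` with total mass at most `C` -/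
def HM (n : ℕ) (C : ℝ) (v : X) : Prop :=
  ∃ c : (m : ℕ) → ZMod (L m) → ℂ, v = ∑ m ∈ range n, ∑ i, c m i • F M m i ∧
    ∑ m ∈ range n, ∑ i, ‖c m i‖ ≤ C

theorem hm_zero (n : ℕ) : HM M n 0 0 := ⟨fun _ _ => 0, by simp, by simp⟩

theorem hm_mono {n : ℕ} {C C' : ℝ} {v : X} (h : HM M n C v) (hC : C ≤ C') : HM M n C' v := by
  obtain ⟨c, h1, h2⟩ := h
  exact ⟨c, h1, h2.trans hC⟩

theorem hm_F {n m : ℕ} (h : m < n) (i : ZMod (L m)) : HM M n 1 (F M m i) := by
  classical
  refine ⟨fun k j => if hk : k = m then (if (hk ▸ j) = i then 1 else 0) else 0, ?_, ?_⟩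
  · rw [sum_eq_single m]
    · simp
    · intro b _ hb; simp [hb]
    · intro hb; exact absurd (mem_range.2 h) hb
  · rw [sum_eq_single m]
    · simp only [dite_true]
      rw [sum_eq_single i]
      · simp
      · intro b _ hb; simp [hb]
      · simp
    · intro b _ hb; simp [hb]
    · intro hb; exact absurd (mem_range.2 h) hb

theorem hm_add {n : ℕ} {C C' : ℝ} {v v' : X} (h : HM M n C v) (h' : HM M n C' v') :
    HM M n (C + C') (v + v') := by
  obtain ⟨c, h1, h2⟩ := h
  obtain ⟨c', h1', h2'⟩ := h'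
  refine ⟨fun m i => c m i + c' m i, ?_, ?_⟩
  · rw [h1, h1', ← sum_add_distrib]
    refine sum_congr rfl fun m _ => ?_
    rw [← sum_add_distrib]
    exact sum_congr rfl fun i _ => by rw [add_smul]
  · calc ∑ m ∈ range n, ∑ i, ‖c m i + c' m i‖ ≤ ∑ m ∈ range n, ∑ i, (‖c m i‖ + ‖c' m i‖) :=
        sum_le_sum fun m _ => sum_le_sum fun i _ => norm_add_le _ _
      _ = ∑ m ∈ range n, ∑ i, ‖c m i‖ + ∑ m ∈ range n, ∑ i, ‖c' m i‖ := by
        rw [← sum_add_distrib]
        exact sum_congr rfl fun m _ => sum_add_distrib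
      _ ≤ C + C' := add_le_add h2 h2'

theorem hm_smul {n : ℕ} {C : ℝ} {v : X} (h : HM M n C v) (z : ℂ) : HM M n (‖z‖ * C) (z • v) := by
  obtain ⟨c, h1, h2⟩ := h
  refine ⟨fun m i => z * c m i, ?_, ?_⟩
  · rw [h1, smul_sum]
    refine sum_congr rfl fun m _ => ?_
    rw [smul_sum]
    exact sum_congr rfl fun i _ => by rw [smul_smul]
  · calc ∑ m ∈ range n, ∑ i, ‖z * c m i‖ = ‖z‖ * (∑ m ∈ range n, ∑ i, ‖c m i‖) := by
          rw [mul_sum]
          refine sum_congr rfl fun m _ => ?_
          rw [mul_sum]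
          exact sum_congr rfl fun i _ => norm_mul _ _
      _ ≤ ‖z‖ * C := mul_le_mul_of_nonneg_left h2 (norm_nonneg _)

theorem hm_sum {n : ℕ} {ι : Type} (s : Finset ι) (C : ι → ℝ) (v : ι → X)
    (h : ∀ i ∈ s, HM M n (C i) (v i)) : HM M n (∑ i ∈ s, C i) (∑ i ∈ s, v i) := by
  classical
  induction s using Finset.induction_on with
  | empty => simpa using hm_zero M n
  | insert a s ha ih =>
    rw [sum_insert ha, sum_insert ha]
    exact hm_add M (h a (mem_insert_self _ _)) (ih fun i hi => h i (mem_insert_of_mem hi))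

theorem hm_mono_n {n n' : ℕ} (hn : n ≤ n') {C : ℝ} {v : X} (h : HM M n C v) : HM M n' C v := by
  obtain ⟨c, h1, h2⟩ := h
  refine ⟨fun m i => if m < n then c m i else 0, ?_, ?_⟩
  · rw [h1, ← Finset.sum_subset (range_mono hn)]
    · refine sum_congr rfl fun m hm => ?_
      simp only [if_pos (mem_range.1 hm)]
    · intro m _ hm
      have : ¬ m < n := fun h => hm (mem_range.2 h)
      simp [this]
  · rw [← Finset.sum_subset (range_mono hn)]
    · refine le_trans (le_of_eq ?_) h2
      refine sum_congr rfl fun m hm => ?_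
      simp only [if_pos (mem_range.1 hm)]
    · intro m _ hm
      have : ¬ m < n := fun h => hm (mem_range.2 h)
      simp [this]

theorem hm_T {n : ℕ} (hP : ∀ m < n, ∀ i : ZMod (L m), M.T (F M m i) = F M m (i + 1))
    {C : ℝ} {v : X} (h : HM M n C v) : HM M n C (M.T v) := by
  obtain ⟨c, h1, h2⟩ := h
  refine ⟨fun m i => c m (i - 1), ?_, ?_⟩
  · rw [h1, map_sum]
    refine sum_congr rfl fun m hm => ?_
    rw [map_sum]
    refine Fintype.sum_equiv (Equiv.addRight (1 : ZMod (L m))) _ _ fun i => ?_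
    rw [map_smul, hP m (mem_range.1 hm)]
    simp
  · refine le_trans (le_of_eq ?_) h2
    refine sum_congr rfl fun m _ => ?_
    exact (Fintype.sum_equiv (Equiv.addRight (1 : ZMod (L m))) _ _ fun i => by simp).symm

theorem hm_iter {n : ℕ} (hP : ∀ m < n, ∀ i : ZMod (L m), M.T (F M m i) = F M m (i + 1))
    {C : ℝ} {v : X} (h : HM M n C v) (t : ℕ) : HM M n C ((⇑M.T)^[t] v) := by
  induction t with
  | zero => simpa using h
  | succ t ih => rw [Function.iterate_succ_apply']; exact hm_T M hP ih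

/-- iterates of `T` are linear -/
theorem iter_sum {ι : Type} (t : ℕ) (s : Finset ι) (c : ι → ℂ) (v : ι → X) :
    (⇑M.T)^[t] (∑ i ∈ s, c i • v i) = ∑ i ∈ s, c i • (⇑M.T)^[t] (v i) := by
  induction t with
  | zero => simp
  | succ t ih =>
    rw [Function.iterate_succ_apply', ih, map_sum]
    exact sum_congr rfl fun i _ => by rw [map_smul, Function.iterate_succ_apply']

theorem iter_sum' {ι : Type} (t : ℕ) (s : Finset ι) (v : ι → X) :
    (⇑M.T)^[t] (∑ i ∈ s, v i) = ∑ i ∈ s, (⇑M.T)^[t] (v i) := by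
  have := iter_sum M t s (fun _ => 1) v
  simpa using this

theorem hm_period {n : ℕ} (hP : ∀ m < n, ∀ i : ZMod (L m), M.T (F M m i) = F M m (i + 1))
    {C : ℝ} {v : X} (h : HM M n C v) (t : ℕ) (ht : ∀ m < n, L m ∣ t) : (⇑M.T)^[t] v = v := by
  obtain ⟨c, h1, h2⟩ := h
  rw [h1, iter_sum']
  refine sum_congr rfl fun m hm => ?_
  rw [iter_sum]
  refine sum_congr rfl fun i _ => ?_
  have hit : ∀ t : ℕ, (⇑M.T)^[t] (F M m i) = F M m (i + t) := by
    intro t
    induction t with
    | zero => simp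
    | succ t ih => rw [Function.iterate_succ_apply', ih, hP m (mem_range.1 hm)]; push_cast; ring_nf
  rw [hit, (ZMod.natCast_eq_zero_iff _ _).2 (ht m (mem_range.1 hm)), add_zero]

/-- The basic induction. -/
theorem main_ind (n : ℕ) : (∀ i : ZMod (L n), M.T (F M n i) = F M n (i + 1)) ∧
    HM M n (Cb n) (M.w n) := by
  induction n using Nat.strong_induction_on with
  | _ n ih =>
  have hP : ∀ m < n, ∀ i : ZMod (L m), M.T (F M m i) = F M m (i + 1) := fun m hm => (ih m hm).1
  have hf : ∀ m < n, ∀ i : ZMod (L m), HM M n (1 + Cb m) (M.f m i) := by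
    intro m hm i
    have h1 : M.f m i = F M m i + (-(o m i)) • Tw M m i := by
      unfold F; rw [neg_smul]; abel
    have h2 : HM M n (Cb m) (Tw M m i) :=
      hm_mono_n M hm.le (hm_iter M (fun k hk => hP k (hk.trans hm)) (ih m hm).2 _)
    rw [h1]
    refine hm_mono M (hm_add M (hm_F M hm i) (hm_smul M h2 _)) ?_
    have h3 : ‖-(o m i)‖ ≤ 1 := by
      rw [norm_neg, o_eq]; split_ifs <;> simp
    have := Cb_pos m
    nlinarith
  have hw : HM M n (Cb n) (M.w n) := by
    rcases Nat.eq_zero_or_pos n with rfl | hn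
    · have h1 : M.w 0 = 0 := by
        have := M.Pr_w 0
        rw [M.Pr_eq] at this
        simpa using this.symm
      rw [h1]
      exact hm_mono M (hm_zero M 0) (Cb_pos 0).le
    · have h1 := M.Pr_w n
      rw [M.Pr_eq] at h1
      rw [← h1]
      have hC : ∀ m ∈ range n, (1 + Cb m) ≤ 1 + Cb (n - 1) := by
        intro m hm
        have : Cb m ≤ Cb (n - 1) := by
          unfold Cb
          refine pow_le_pow_right₀ (by norm_num) (Nat.pow_le_pow_left ?_ 2)
          have := mem_range.1 hm; omega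
        linarith
      refine hm_mono M (hm_sum M (range n) (fun m => ∑ i, ‖M.h m i (M.w n)‖ * (1 + Cb (n - 1)))
        _ fun m hm => hm_sum M univ _ _ fun i _ => ?_) ?_
      · exact hm_smul M (hm_mono M (hf m (mem_range.1 hm) i) (hC m hm)) _
      · simp only [← sum_mul]
        have h2 := M.mass_w n
        have h3 : (0 : ℝ) ≤ 1 + Cb (n - 1) := by have := Cb_pos (n - 1); linarith
        calc _ ≤ (n : ℝ) * (1 + Cb (n - 1)) := mul_le_mul_of_nonneg_right h2 h3
          _ ≤ Cb n := Cb_step (by omega)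
  refine ⟨fun i => ?_, hw⟩
  have hper : Function.IsPeriodicPt (⇑M.T) (L n) (M.w n) :=
    hm_period M hP hw (L n) (fun m hm => L_dvd hm.le)
  have hTw : M.T (Tw M n i) = Tw M n (i + 1) := by
    unfold Tw
    rw [← Function.iterate_succ_apply' (⇑M.T)]
    have h1 : (i + 1).val = (i.val + 1) % L n := by
      rw [ZMod.val_add, ZMod.val_one_eq_one_mod, Nat.add_mod_mod]
    rw [h1, hper.iterate_mod_apply]
  have h1 : M.T (F M n i) = M.f n (i + 1) + (o n (i + 1) - o n i) • M.w n + o n i • Tw M n (i + 1) := by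
    unfold F
    rw [map_add, M.T_f, map_smul, hTw]
  rw [h1]
  unfold F
  by_cases hs : o n (i + 1) = o n i
  · rw [hs, sub_self, zero_smul, add_zero]
  · have h2 : Tw M n (i + 1) = M.w n := by
      unfold Tw
      exact hm_period M hP hw _ (fun m hm => dvd_of_seam hs hm)
    rw [h2, sub_smul]; abel

theorem T_F (n : ℕ) (i : ZMod (L n)) : M.T (F M n i) = F M n (i + 1) := (main_ind M n).1 i

theorem hm_w (n : ℕ) : HM M n (Cb n) (M.w n) := (main_ind M n).2

theorem S_F (n : ℕ) (i : ZMod (L n)) : M.T.symm (F M n i) = F M n (i - 1) := by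
  rw [ContinuousLinearEquiv.symm_apply_eq, T_F, sub_add_cancel]

theorem iter_T_F (t n : ℕ) (i : ZMod (L n)) : (⇑M.T)^[t] (F M n i) = F M n (i + t) := by
  induction t with
  | zero => simp
  | succ t ih => rw [Function.iterate_succ_apply', ih, T_F]; push_cast; ring_nf

theorem iter_S_F (t n : ℕ) (i : ZMod (L n)) : (⇑M.T.symm)^[t] (F M n i) = F M n (i - t) := by
  induction t with
  | zero => simp
  | succ t ih => rw [Function.iterate_succ_apply', ih, S_F]; push_cast; ring_nf

theorem F_zero (n : ℕ) : F M n 0 = M.f n 0 := by unfold F; rw [o_zero, zero_smul, add_zero]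

theorem iter_period {n : ℕ} {C : ℝ} {v : X} (h : HM M n C v) (t : ℕ) (ht : ∀ m < n, L m ∣ t) :
    (⇑M.T)^[t] v = v := hm_period M (fun m _ => T_F M m) h t ht

theorem iter_T_w {n t : ℕ} (hn : 1 ≤ n) (ht : L (n - 1) ∣ t) : (⇑M.T)^[t] (M.w n) = M.w n :=
  iter_period M (hm_w M n) t fun _ hm => (L_dvd (by omega)).trans ht

theorem hm_Tw (n : ℕ) (i : ZMod (L n)) : HM M n (Cb n) (Tw M n i) :=
  hm_iter M (fun m _ => T_F M m) (hm_w M n) _

theorem T_Tw (n : ℕ) (i : ZMod (L n)) : M.T (Tw M n i) = Tw M n (i + 1) := by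
  have hper : Function.IsPeriodicPt (⇑M.T) (L n) (M.w n) :=
    iter_period M (hm_w M n) (L n) (fun m hm => L_dvd hm.le)
  unfold Tw
  rw [← Function.iterate_succ_apply' (⇑M.T)]
  have h1 : (i + 1).val = (i.val + 1) % L n := by
    rw [ZMod.val_add, ZMod.val_one_eq_one_mod, Nat.add_mod_mod]
  rw [h1, hper.iterate_mod_apply]

theorem S_Tw (n : ℕ) (i : ZMod (L n)) : M.T.symm (Tw M n i) = Tw M n (i - 1) := by
  rw [ContinuousLinearEquiv.symm_apply_eq, T_Tw, sub_add_cancel]

theorem Tw_zero (n : ℕ) : Tw M n 0 = M.w n := by unfold Tw; rw [ZMod.val_zero]; rfl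

theorem iter_T_Tw (t n : ℕ) (i : ZMod (L n)) : (⇑M.T)^[t] (Tw M n i) = Tw M n (i + t) := by
  induction t with
  | zero => simp
  | succ t ih => rw [Function.iterate_succ_apply', ih, T_Tw]; push_cast; ring_nf

theorem iter_S_Tw (t n : ℕ) (i : ZMod (L n)) : (⇑M.T.symm)^[t] (Tw M n i) = Tw M n (i - t) := by
  induction t with
  | zero => simp
  | succ t ih => rw [Function.iterate_succ_apply', ih, S_Tw]; push_cast; ring_nf

theorem iter_S_sum {ι : Type} (t : ℕ) (s : Finset ι) (v : ι → X) :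
    (⇑M.T.symm)^[t] (∑ i ∈ s, v i) = ∑ i ∈ s, (⇑M.T.symm)^[t] (v i) := by
  induction t with
  | zero => simp
  | succ t ih =>
    rw [Function.iterate_succ_apply', ih, map_sum]
    exact sum_congr rfl fun i _ => by rw [Function.iterate_succ_apply']

theorem iter_S_smul (t : ℕ) (c : ℂ) (v : X) :
    (⇑M.T.symm)^[t] (c • v) = c • (⇑M.T.symm)^[t] v := by
  induction t with
  | zero => simp
  | succ t ih => rw [Function.iterate_succ_apply', ih, map_smul, Function.iterate_succ_apply']

theorem iter_S_add (t : ℕ) (v v' : X) :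
    (⇑M.T.symm)^[t] (v + v') = (⇑M.T.symm)^[t] v + (⇑M.T.symm)^[t] v' := by
  induction t with
  | zero => simp
  | succ t ih => rw [Function.iterate_succ_apply', ih, map_add, Function.iterate_succ_apply',
      Function.iterate_succ_apply']

/-- backward orbit of a basis vector -/
theorem iter_S_f (t n : ℕ) (i : ZMod (L n)) : (⇑M.T.symm)^[t] (M.f n i) =
    M.f n (i - t) + (o n (i - t) - o n i) • Tw M n (i - t) := by
  have h1 : M.f n i = F M n i + (-(o n i)) • Tw M n i := by
    unfold F; rw [neg_smul]; abel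
  rw [h1, iter_S_add, iter_S_smul, iter_S_F, iter_S_Tw]
  unfold F
  rw [sub_smul, neg_smul]; abel

/-- the norm of the orbit of `w n` -/
theorem norm_of_hm {n : ℕ} {C K : ℝ} {v : X} (h : HM M n C v) (hK0 : 0 ≤ K)
    (hK : ∀ m < n, ∀ i : ZMod (L m), ‖F M m i‖ ≤ K) : ‖v‖ ≤ C * K := by
  obtain ⟨c, h1, h2⟩ := h
  rw [h1]
  calc ‖∑ m ∈ range n, ∑ i, c m i • F M m i‖ ≤ ∑ m ∈ range n, ∑ i, ‖c m i‖ * K := by
        refine (norm_sum_le _ _).trans (sum_le_sum fun m hm => ?_)
        refine (norm_sum_le _ _).trans (sum_le_sum fun i _ => ?_)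
        rw [norm_smul]
        exact mul_le_mul_of_nonneg_left (hK m (mem_range.1 hm) i) (norm_nonneg _)
    _ = (∑ m ∈ range n, ∑ i, ‖c m i‖) * K := by
        rw [sum_mul]
        exact sum_congr rfl fun m _ => by rw [sum_mul]
    _ ≤ C * K := mul_le_mul_of_nonneg_right h2 hK0

theorem norm_Tw_le (n : ℕ) (i : ZMod (L n)) : ‖Tw M n i‖ ≤ Wb n := by
  induction n using Nat.strong_induction_on with
  | _ n ih =>
  rcases Nat.eq_zero_or_pos n with rfl | hn
  · have h1 := norm_of_hm M (hm_Tw M 0 i) le_rfl (fun m hm => absurd hm (Nat.not_lt_zero m))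
    have := Wb_pos 0
    linarith
  · have hK : ∀ m < n, ∀ i : ZMod (L m), ‖F M m i‖ ≤ H (n - 1) + Wb (n - 1) := by
      intro m hm i
      have h1 : ‖F M m i‖ ≤ H m + Wb m := by
        unfold F
        refine (norm_add_le _ _).trans (add_le_add ((M.norm_f_le m i).trans (a_le_H m i)) ?_)
        rw [norm_smul]
        have h3 : ‖o m i‖ ≤ 1 := by rw [o_eq]; split_ifs <;> simp
        have h4 := ih m hm i
        have := norm_nonneg (Tw M m i)
        nlinarith
      have h2 : Wb m ≤ Wb (n - 1) := by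
        rcases Nat.lt_or_ge m (n - 1) with h | h
        · have h5 := Wb_step h
          have h6 : (1 : ℝ) ≤ Cb (n - 1) := by unfold Cb; exact one_le_pow₀ (by norm_num)
          have := H_pos m; have := Wb_pos m
          nlinarith
        · rw [show m = n - 1 by omega]
      have := H_mono (show m ≤ n - 1 by omega)
      linarith
    have h1 := norm_of_hm M (hm_Tw M n i) (by have := H_pos (n - 1); have := Wb_pos (n - 1); linarith) hK
    exact h1.trans (Wb_step (by omega))

end Pool.Agent.H3.FH
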