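import Mathlib

/-!
# The combinatorial model behind the frequently hypercyclic operator

Blocks `n = 0, 1, 2, ...`; block `n` is a cycle of length `L n = 2 ^ ll n`, with a weighted `ℓ¹` norm.
Odd blocks are chain blocks, even blocks are gadgets.
-/

set_option autoImplicit false

namespace Pool.Agent.H3.FH

/-- exponent of the large weight of block `n` -/
def ee (n : ℕ) : ℕ := (n + 2) ^ 3
/-- exponent of the length of block `n` -/
def ll (n : ℕ) : ℕ := (n + 10) ^ 2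
/-- exponent of the offset of the slot of block `n` -/
def rr (n : ℕ) : ℕ := (n + 10) ^ 2 - (n + 6)
/-- the large weight starts at offset `L n / 2 ^ ss n` -/
def ss (n : ℕ) : ℕ := if n % 2 = 1 then 2 else n + 2
/-- length of block `n` -/
def L (n : ℕ) : ℕ := 2 ^ ll n
/-- half the length of block `n` -/
def N (n : ℕ) : ℕ := 2 ^ (ll n - 1)
/-- offset of the slot -/
def Q (n : ℕ) : ℕ := 2 ^ rr n
/-- offset at which the weight becomes `H n` for the rest of the zone -/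
def Z (n : ℕ) : ℕ := 2 ^ (ll n - ss n)
/-- the large weight -/
noncomputable def H (n : ℕ) : ℝ := 2 ^ ee n

theorem L_pos (n : ℕ) : 0 < L n := by unfold L; positivity

theorem N_pos (n : ℕ) : 0 < N n := by unfold N; positivity

theorem L_eq_two_mul_N (n : ℕ) : L n = 2 * N n := by
  unfold L N
  have h : ll n = (ll n - 1) + 1 := by
    have : 1 ≤ ll n := by unfold ll; exact Nat.one_le_pow _ _ (by omega)
    omega
  conv_lhs => rw [h, pow_succ]
  ring

theorem H_def (n : ℕ) : H n = 2 ^ ee n := rfl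
theorem L_def (n : ℕ) : L n = 2 ^ ll n := rfl
theorem N_def (n : ℕ) : N n = 2 ^ (ll n - 1) := rfl
theorem Q_def (n : ℕ) : Q n = 2 ^ rr n := rfl
theorem Z_def (n : ℕ) : Z n = 2 ^ (ll n - ss n) := rfl
theorem ee_def (n : ℕ) : ee n = (n + 2) ^ 3 := rfl
theorem ll_def (n : ℕ) : ll n = (n + 10) ^ 2 := rfl
theorem rr_def (n : ℕ) : rr n = (n + 10) ^ 2 - (n + 6) := rfl
theorem ss_def (n : ℕ) : ss n = if n % 2 = 1 then 2 else n + 2 := rfl

attribute [irreducible] ee ll rr ss L N Q Z H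

instance (n : ℕ) : NeZero (L n) := ⟨(L_pos n).ne'⟩

/-- weight as a function of the offset in a zone -/
noncomputable def al (n p : ℕ) : ℝ :=
  min (H n) (max (H n / 2 ^ p) (max (((p : ℝ) + 1) / L n) (H n * 2 ^ p / 2 ^ Z n)))

/-- offset of position `i` of block `n` inside its zone (`0 ≤ of n i < N n`) -/
def of (n : ℕ) (i : ZMod (L n)) : ℕ := (i + (Q n : ZMod (L n))).val % N n

/-- weight of position `i` of block `n` -/
noncomputable def a (n : ℕ) (i : ZMod (L n)) : ℝ := al n (of n i)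

/-- indicator of the on-zone of block `n` -/
def o (n : ℕ) (i : ZMod (L n)) : ℂ := if N n ≤ (i + (Q n : ZMod (L n))).val then 1 else 0

/-- The data: a Banach space `X` with block coordinates, and the operator `T`. -/
structure Model (X : Type) [NormedAddCommGroup X] [NormedSpace ℂ X] where
  /-- basis vectors -/
  f : (n : ℕ) → ZMod (L n) → X
  /-- coordinate functionals -/
  h : (n : ℕ) → ZMod (L n) → X →L[ℂ] ℂ
  /-- projection to the first `k` blocks -/
  Pr : ℕ → X →L[ℂ] X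
  /-- the operator -/
  T : X ≃L[ℂ] X
  /-- seam vectors -/
  w : ℕ → X
  h_f_same : ∀ (n : ℕ) (i j : ZMod (L n)), h n i (f n j) = if i = j then 1 else 0
  h_f_ne : ∀ (n m : ℕ) (i : ZMod (L n)) (j : ZMod (L m)), n ≠ m → h n i (f m j) = 0
  sum_h_le : ∀ (n : ℕ) (x : X), ∑ i, a n i * ‖h n i x‖ ≤ ‖x‖
  norm_f_le : ∀ (n : ℕ) (i : ZMod (L n)), ‖f n i‖ ≤ a n i
  Pr_eq : ∀ (k : ℕ) (x : X), Pr k x = ∑ m ∈ Finset.range k, ∑ i, h m i x • f m i
  norm_Pr_le : ∀ (k : ℕ) (x : X), ‖Pr k x‖ ≤ ‖x‖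
  tendsto_Pr : ∀ x : X, Filter.Tendsto (fun k => Pr k x) Filter.atTop (nhds x)
  T_f : ∀ (n : ℕ) (i : ZMod (L n)), T (f n i) = f n (i + 1) + (o n (i + 1) - o n i) • w n
  Pr_w : ∀ n : ℕ, Pr n (w n) = w n
  mass_w : ∀ n : ℕ, ∑ m ∈ Finset.range n, ∑ i, ‖h m i (w n)‖ ≤ n
  w_odd : ∀ i : ℕ, w (2 * i + 1) =
    f (2 * padicValNat 2 (i + 1)) 0 - ∑ m ∈ Finset.range i, f (2 * m + 1) 0
  w_even : ∀ U : Set X, IsOpen U → U.Nonempty → ∀ g₀ : ℕ, ∃ j : ℕ, g₀ ≤ j ∧ w (2 * j) ∈ U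

end Pool.Agent.H3.FH
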