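import Pool.Agent.H3.FH.Space

set_option autoImplicit false

namespace Pool.Agent.H3.FH

open Finset Filter Topology
open scoped ENNReal

/-- sums of rank one operators -/
theorem exists_series {X : Type} [NormedAddCommGroup X] [NormedSpace ℂ X] [CompleteSpace X]
    (l : ℕ → X →L[ℂ] ℂ) (w : ℕ → X) (hb : ∀ n : ℕ, ‖l n‖ * ‖w n‖ ≤ 1 / 2 ^ (n + 5)) :
    ∃ A : X →L[ℂ] X, ‖A‖ ≤ 1 / 16 ∧ ∀ (x : X) (n : ℕ), (∀ m, m ≠ n → l m x = 0) →
      A x = l n x • w n := by
  have hterm : ∀ n, ‖(l n).smulRight (w n)‖ ≤ 1 / 2 ^ (n + 5) := by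
    intro n
    rw [ContinuousLinearMap.norm_smulRight_apply]
    exact hb n
  have hgeom : HasSum (fun n : ℕ => (1 : ℝ) / 2 ^ (n + 5)) (1 / 16) := by
    have h1 := (hasSum_geometric_of_lt_one (r := (1 / 2 : ℝ)) (by norm_num) (by norm_num)).mul_left (1 / 32)
    have h2 : (fun n : ℕ => (1 : ℝ) / 2 ^ (n + 5)) = fun n => 1 / 32 * (1 / 2) ^ n := by
      funext n
      rw [pow_add, div_pow, one_pow]; field_simp; norm_num
    have h3 : (1 : ℝ) / 32 * (1 - 1 / 2)⁻¹ = 1 / 16 := by norm_num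
    rw [h2]
    rwa [h3] at h1
  have hsum : Summable fun n => (l n).smulRight (w n) :=
    Summable.of_norm_bounded hgeom.summable hterm
  refine ⟨∑' n, (l n).smulRight (w n), tsum_of_norm_bounded hgeom hterm, fun x n hx => ?_⟩
  have h1 : HasSum (fun m => ContinuousLinearMap.apply ℂ X x ((l m).smulRight (w m)))
      (ContinuousLinearMap.apply ℂ X x (∑' n, (l n).smulRight (w n))) := hsum.hasSum.mapL _
  have h2 := hasSum_single (f := fun m => ContinuousLinearMap.apply ℂ X x ((l m).smulRight (w m))) n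
    (fun m hm => by
      show l m x • w m = 0
      rw [hx m hm, zero_smul])
  exact h1.unique h2

/-- small perturbations of invertible operators -/
theorem exists_inv {X : Type} [NormedAddCommGroup X] [NormedSpace ℂ X] [CompleteSpace X]
    (R R' A : X →L[ℂ] X) (h1 : R * R' = 1) (h2 : R' * R = 1) (hR' : ‖R'‖ ≤ 2) (hA : ‖A‖ ≤ 1 / 16)
    (hne : R' ≠ 0) : ∃ T : X ≃L[ℂ] X, ∀ x, T x = R x + A x := by
  let Ru : (X →L[ℂ] X)ˣ := ⟨R, R', h1, h2⟩
  have hnear : ‖(R + A) - (Ru : X →L[ℂ] X)‖ < ‖((Ru⁻¹ : (X →L[ℂ] X)ˣ) : X →L[ℂ] X)‖⁻¹ := by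
    have h3 : (R + A) - (Ru : X →L[ℂ] X) = A := by
      show (R + A) - R = A
      abel
    have h4 : ((Ru⁻¹ : (X →L[ℂ] X)ˣ) : X →L[ℂ] X) = R' := rfl
    rw [h3, h4]
    have h5 : 0 < ‖R'‖ := norm_pos_iff.2 hne
    refine lt_of_le_of_lt hA ?_
    rw [lt_inv_comm₀ (by norm_num) h5]
    exact lt_of_le_of_lt hR' (by norm_num)
  refine ⟨ContinuousLinearEquiv.unitsEquiv ℂ X (Units.ofNearby Ru (R + A) hnear), fun x => ?_⟩
  rw [ContinuousLinearEquiv.unitsEquiv_apply]
  rfl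

/-- block-diagonal operators -/
theorem exists_diag (A : (n : ℕ) → Blk n →ₗ[ℂ] Blk n) (C : ℝ) (hC : 0 ≤ C)
    (hA : ∀ (n : ℕ) (v : Blk n), ‖A n v‖ ≤ C * ‖v‖) :
    ∃ 𝒜 : XX →L[ℂ] XX, (∀ (x : XX) (n : ℕ), 𝒜 x n = A n (x n)) ∧ ‖𝒜‖ ≤ C := by
  have hmem : ∀ x : XX, Memℓp (fun n => A n (x n)) 2 := by
    intro x
    refine Memℓp.mono' (g := fun n => (C : ℂ) • x n) ((lp.memℓp x).const_smul (C : ℂ)) fun n => ?_
    rw [norm_smul, Complex.norm_real, Real.norm_eq_abs, abs_of_nonneg hC]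
    exact hA n _
  let lin : XX →ₗ[ℂ] XX :=
    { toFun := fun x => ⟨fun n => A n (x n), hmem x⟩
      map_add' := fun x y => by
        apply lp.ext; funext n
        exact map_add (A n) (x n) (y n)
      map_smul' := fun c x => by
        apply lp.ext; funext n
        exact map_smul (A n) c (x n) }
  have hbound : ∀ x, ‖lin x‖ ≤ C * ‖x‖ := by
    intro x
    have h1 : ‖lin x‖ ≤ ‖(C : ℂ) • x‖ := by
      refine lp.norm_mono (by norm_num) fun n => ?_
      have h2 : ((C : ℂ) • x) n = (C : ℂ) • x n := rfl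
      rw [h2, norm_smul, Complex.norm_real, Real.norm_eq_abs, abs_of_nonneg hC]
      exact hA n _
    rwa [norm_smul, Complex.norm_real, Real.norm_eq_abs, abs_of_nonneg hC] at h1
  exact ⟨lin.mkContinuous C hbound, fun x n => rfl, lin.mkContinuous_norm_le hC hbound⟩

/-- forward rotation of a block -/
def rotF (n : ℕ) : Blk n →ₗ[ℂ] Blk n where
  toFun v := mkB fun i => co v (i - 1)
  map_add' _ _ := rfl
  map_smul' _ _ := rfl

/-- backward rotation of a block -/
def rotB (n : ℕ) : Blk n →ₗ[ℂ] Blk n where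
  toFun v := mkB fun i => co v (i + 1)
  map_add' _ _ := rfl
  map_smul' _ _ := rfl

theorem co_rotF (n : ℕ) (v : Blk n) (i : ZMod (L n)) : co (rotF n v) i = co v (i - 1) := rfl
theorem co_rotB (n : ℕ) (v : Blk n) (i : ZMod (L n)) : co (rotB n v) i = co v (i + 1) := rfl

theorem norm_rotF_le (n : ℕ) (v : Blk n) : ‖rotF n v‖ ≤ 2 * ‖v‖ := by
  rw [blk_norm_def, blk_norm_def, mul_sum]
  have h1 : ∑ i, a n i * ‖co (rotF n v) i‖ = ∑ i, a n (i + 1) * ‖co v i‖ := by
    refine Fintype.sum_equiv (Equiv.subRight (1 : ZMod (L n))) _ _ fun i => ?_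
    rw [Equiv.subRight_apply, co_rotF, sub_add_cancel]
  rw [h1]
  refine sum_le_sum fun i _ => ?_
  rw [← mul_assoc]
  exact mul_le_mul_of_nonneg_right (a_add_one_le n i) (norm_nonneg _)

theorem norm_rotB_le (n : ℕ) (v : Blk n) : ‖rotB n v‖ ≤ 2 * ‖v‖ := by
  rw [blk_norm_def, blk_norm_def, mul_sum]
  have h1 : ∑ i, 2 * (a n i * ‖co v i‖) = ∑ i, 2 * (a n (i + 1) * ‖co v (i + 1)‖) :=
    (Fintype.sum_equiv (Equiv.addRight (1 : ZMod (L n))) _ _ fun i => rfl).symm
  rw [h1]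
  refine sum_le_sum fun i _ => ?_
  rw [co_rotB, ← mul_assoc]
  exact mul_le_mul_of_nonneg_right (le_a_add_one n i) (norm_nonneg _)

theorem rotF_eB (n : ℕ) (i : ZMod (L n)) : rotF n (eB n i) = eB n (i + 1) := by
  refine co_ext fun j => ?_
  rw [co_rotF, eB_apply, eB_apply]
  congr 1
  rw [eq_iff_iff]
  exact sub_eq_iff_eq_add

/-- seam functional -/
noncomputable def ell (n : ℕ) : XX →L[ℂ] ℂ := ∑ i, (o n (i + 1) - o n i) • xh n i

theorem ell_apply (n : ℕ) (x : XX) : ell n x = ∑ i, (o n (i + 1) - o n i) * xh n i x := by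
  unfold ell
  rw [_root_.sum_apply]
  rfl

theorem norm_ell_le (n : ℕ) : ‖ell n‖ ≤ 1 / H n := by
  have hH := H_pos n
  refine ContinuousLinearMap.opNorm_le_bound _ (by positivity) fun x => ?_
  rw [ell_apply]
  calc ‖∑ i, (o n (i + 1) - o n i) * xh n i x‖ ≤ ∑ i, 1 / H n * (a n i * ‖xh n i x‖) := by
        refine (norm_sum_le _ _).trans (sum_le_sum fun i _ => ?_)
        rw [norm_mul]
        by_cases h : o n (i + 1) = o n i
        · rw [h, sub_self, norm_zero, zero_mul]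
          have := a_pos n i
          positivity
        · rw [a_seam h]
          have h1 : ‖o n (i + 1) - o n i‖ ≤ 1 := by
            rw [o_eq, o_eq]; split_ifs <;> simp
          have h2 : 1 / H n * (H n * ‖xh n i x‖) = ‖xh n i x‖ := by field_simp
          rw [h2]
          have := norm_nonneg (xh n i x)
          nlinarith
    _ = 1 / H n * ∑ i, a n i * ‖xh n i x‖ := by rw [mul_sum]
    _ ≤ 1 / H n * ‖x‖ := mul_le_mul_of_nonneg_left (x_sum_h_le n x) (by positivity)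

theorem ell_f_same (n : ℕ) (i : ZMod (L n)) : ell n (xf n i) = o n (i + 1) - o n i := by
  rw [ell_apply, sum_eq_single i]
  · rw [x_h_f_same, if_pos rfl, mul_one]
  · intro b _ hb; rw [x_h_f_same, if_neg hb, mul_zero]
  · simp

theorem ell_f_ne (n m : ℕ) (h : n ≠ m) (i : ZMod (L m)) : ell n (xf m i) = 0 := by
  rw [ell_apply]
  exact sum_eq_zero fun j _ => by rw [x_h_f_ne n m j i h, mul_zero]

/-- norms of seam vectors -/
theorem norm_w_le (w : ℕ → XX) (hPr : ∀ n, xPr n (w n) = w n)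
    (hmass : ∀ n : ℕ, ∑ m ∈ range n, ∑ i, ‖xh m i (w n)‖ ≤ n) (n : ℕ) : ‖w n‖ ≤ Wb n := by
  rw [← hPr n, x_Pr_eq]
  rcases Nat.eq_zero_or_pos n with rfl | hn
  · rw [range_zero, sum_empty, norm_zero]; exact (Wb_pos 0).le
  have hH := H_pos (n - 1)
  calc ‖∑ m ∈ range n, ∑ i, xh m i (w n) • xf m i‖ ≤ ∑ m ∈ range n, ∑ i, ‖xh m i (w n)‖ * H (n - 1) := by
        refine (norm_sum_le _ _).trans (sum_le_sum fun m hm => ?_)
        refine (norm_sum_le _ _).trans (sum_le_sum fun i _ => ?_)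
        rw [norm_smul, x_norm_f]
        refine mul_le_mul_of_nonneg_left ?_ (norm_nonneg _)
        exact (a_le_H m i).trans (H_mono (by have := mem_range.1 hm; omega))
    _ = (∑ m ∈ range n, ∑ i, ‖xh m i (w n)‖) * H (n - 1) := by
        rw [sum_mul]; exact sum_congr rfl fun m _ => by rw [sum_mul]
    _ ≤ n * H (n - 1) := mul_le_mul_of_nonneg_right (hmass n) hH.le
    _ ≤ Cb n * (H (n - 1) + Wb (n - 1)) := by
        have h1 : (n : ℝ) ≤ Cb n := by
          unfold Cb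
          have h5 : n ≤ n ^ 2 := by nlinarith
          have h6 : n ^ 2 < 2 ^ (n ^ 2) := Nat.lt_two_pow_self
          exact_mod_cast (h5.trans h6.le)
        have h2 := Wb_pos (n - 1)
        exact mul_le_mul h1 (by linarith) hH.le (Cb_pos n).le
    _ ≤ Wb n := Wb_step (by omega)

/-- The operator. -/
theorem exists_T (w : ℕ → XX) (hPr : ∀ n, xPr n (w n) = w n)
    (hmass : ∀ n : ℕ, ∑ m ∈ range n, ∑ i, ‖xh m i (w n)‖ ≤ n) :
    ∃ T : XX ≃L[ℂ] XX, ∀ (n : ℕ) (i : ZMod (L n)),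
      T (xf n i) = xf n (i + 1) + (o n (i + 1) - o n i) • w n := by
  obtain ⟨R, hR, hRn⟩ := exists_diag rotF 2 (by norm_num) norm_rotF_le
  obtain ⟨R', hR', hRn'⟩ := exists_diag rotB 2 (by norm_num) norm_rotB_le
  have hRR' : R * R' = 1 := by
    ext1 x
    apply lp.ext; funext n
    have h1 : (R * R') x = R (R' x) := rfl
    rw [h1, hR, hR']
    refine co_ext fun i => ?_
    rw [co_rotF, co_rotB, sub_add_cancel]; rfl
  have hR'R : R' * R = 1 := by
    ext1 x
    apply lp.ext; funext n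
    have h1 : (R' * R) x = R' (R x) := rfl
    rw [h1, hR', hR]
    refine co_ext fun i => ?_
    rw [co_rotB, co_rotF, add_sub_cancel_right]; rfl
  have hterm : ∀ n : ℕ, ‖ell n‖ * ‖w n‖ ≤ 1 / 2 ^ (n + 5) := by
    intro n
    have h1 := norm_ell_le n
    have h2 := norm_w_le w hPr hmass n
    have h3 := Wb_mul n
    have hH := H_pos n
    have hW := Wb_pos n
    have h4 : 1 / H n * Wb n = 1 / 2 ^ (n + 5) := by
      rw [← h3]; field_simp
    rw [← h4]
    exact mul_le_mul h1 h2 (norm_nonneg _) (by positivity)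
  obtain ⟨A, hA, hAf⟩ := exists_series ell w hterm
  have hne : R' ≠ 0 := by
    intro h
    have h4 : (R' * R) (xf 0 0) = 0 := by rw [h, zero_mul]; rfl
    rw [hR'R] at h4
    have h5 : xf 0 0 = 0 := h4
    have h6 := x_h_f_same 0 0 0
    rw [h5, map_zero, if_pos rfl] at h6
    exact zero_ne_one h6
  obtain ⟨T, hT⟩ := exists_inv R R' A hRR' hR'R hRn' hA hne
  refine ⟨T, fun n i => ?_⟩
  rw [hT, hAf (xf n i) n (fun m hm => ell_f_ne m n hm i), ell_f_same]
  congr 1
  apply lp.ext; funext m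
  rw [hR]
  by_cases hm : m = n
  · subst hm
    rw [xf, xf, lp.single_apply_self, lp.single_apply_self, rotF_eB]
  · rw [xf, xf, lp.single_apply_ne _ _ _ hm, lp.single_apply_ne _ _ _ hm, map_zero]

end Pool.Agent.H3.FH
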