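import Pool.Agent.H3.FH.Weights

set_option autoImplicit false

namespace Pool.Agent.H3.FH

open Finset Filter Topology
open scoped ENNReal

/-- block `n`: functions on a cycle -/
def Blk (n : ℕ) : Type := ZMod (L n) → ℂ

instance (n : ℕ) : AddCommGroup (Blk n) := inferInstanceAs (AddCommGroup (ZMod (L n) → ℂ))
instance (n : ℕ) : Module ℂ (Blk n) := inferInstanceAs (Module ℂ (ZMod (L n) → ℂ))

/-- coordinates of a block vector -/
def co {n : ℕ} (v : Blk n) (i : ZMod (L n)) : ℂ := (show ZMod (L n) → ℂ from v) i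

theorem co_add {n : ℕ} (v v' : Blk n) (i : ZMod (L n)) : co (v + v') i = co v i + co v' i := rfl
theorem co_smul {n : ℕ} (c : ℂ) (v : Blk n) (i : ZMod (L n)) : co (c • v) i = c * co v i := rfl
theorem co_zero {n : ℕ} (i : ZMod (L n)) : co (0 : Blk n) i = 0 := rfl
theorem co_ext {n : ℕ} {v v' : Blk n} (h : ∀ i, co v i = co v' i) : v = v' := funext h
/-- constructor -/
def mkB {n : ℕ} (g : ZMod (L n) → ℂ) : Blk n := g
theorem co_mkB {n : ℕ} (g : ZMod (L n) → ℂ) (i : ZMod (L n)) : co (mkB g) i = g i := rfl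

noncomputable instance (n : ℕ) : Norm (Blk n) := ⟨fun v => ∑ i, a n i * ‖co v i‖⟩

theorem blk_norm_def (n : ℕ) (v : Blk n) : ‖v‖ = ∑ i, a n i * ‖co v i‖ := rfl

theorem blk_core (n : ℕ) : NormedSpace.Core ℂ (Blk n) where
  norm_nonneg v := sum_nonneg fun i _ => mul_nonneg (a_pos n i).le (norm_nonneg _)
  norm_smul c v := by
    rw [blk_norm_def, blk_norm_def, mul_sum]
    refine sum_congr rfl fun i _ => ?_
    rw [co_smul, norm_mul]; ring
  norm_triangle v v' := by
    rw [blk_norm_def, blk_norm_def, blk_norm_def, ← sum_add_distrib]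
    refine sum_le_sum fun i _ => ?_
    rw [co_add, ← mul_add]
    exact mul_le_mul_of_nonneg_left (norm_add_le _ _) (a_pos n i).le
  norm_eq_zero_iff v := by
    rw [blk_norm_def, sum_eq_zero_iff_of_nonneg
      (fun i _ => mul_nonneg (a_pos n i).le (norm_nonneg _))]
    constructor
    · intro h
      refine co_ext fun i => ?_
      have h1 := h i (mem_univ i)
      rcases mul_eq_zero.1 h1 with h2 | h2
      · exact absurd h2 (a_pos n i).ne'
      · rw [co_zero]; exact norm_eq_zero.1 h2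
    · intro h i _
      rw [h, co_zero, norm_zero, mul_zero]

noncomputable instance (n : ℕ) : NormedAddCommGroup (Blk n) := NormedAddCommGroup.ofCore (blk_core n)
noncomputable instance (n : ℕ) : NormedSpace ℂ (Blk n) := NormedSpace.ofCore (blk_core n)
instance (n : ℕ) : FiniteDimensional ℂ (Blk n) :=
  inferInstanceAs (FiniteDimensional ℂ (ZMod (L n) → ℂ))
instance (n : ℕ) : CompleteSpace (Blk n) := FiniteDimensional.complete ℂ _

/-- The space -/
abbrev XX : Type := lp Blk 2

/-- evaluation on a block -/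
noncomputable def evB (n : ℕ) (i : ZMod (L n)) : Blk n →L[ℂ] ℂ :=
  LinearMap.toContinuousLinearMap
    { toFun := fun v => co v i, map_add' := fun _ _ => rfl, map_smul' := fun _ _ => rfl }

theorem evB_apply (n : ℕ) (i : ZMod (L n)) (v : Blk n) : evB n i v = co v i := rfl

/-- unit vectors of a block -/
noncomputable def eB (n : ℕ) (i : ZMod (L n)) : Blk n := mkB fun j => if j = i then 1 else 0

theorem eB_apply (n : ℕ) (i j : ZMod (L n)) : co (eB n i) j = if j = i then 1 else 0 := rfl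

theorem blk_eq_sum (n : ℕ) (v : Blk n) : v = ∑ i, co v i • eB n i := by
  refine co_ext fun j => ?_
  rw [← evB_apply n j (∑ i, co v i • eB n i), map_sum, sum_eq_single j]
  · rw [evB_apply, co_smul, eB_apply, if_pos rfl, mul_one]
  · intro b _ hb; rw [evB_apply, co_smul, eB_apply, if_neg (Ne.symm hb), mul_zero]
  · simp

noncomputable def xf (n : ℕ) (i : ZMod (L n)) : XX := lp.single 2 n (eB n i)

noncomputable def xh (n : ℕ) (i : ZMod (L n)) : XX →L[ℂ] ℂ := (evB n i).comp (lp.evalCLM ℂ Blk 2 n)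

theorem xh_apply (n : ℕ) (i : ZMod (L n)) (x : XX) : xh n i x = co (x n) i := rfl

noncomputable def xPr (k : ℕ) : XX →L[ℂ] XX :=
  ∑ m ∈ range k, (lp.singleContinuousLinearMap ℂ Blk 2 m).comp (lp.evalCLM ℂ Blk 2 m)

theorem xPr_apply (k : ℕ) (x : XX) : xPr k x = ∑ m ∈ range k, lp.single 2 m (x m) := by
  unfold xPr
  rw [_root_.sum_apply]
  rfl

theorem x_h_f_same (n : ℕ) (i j : ZMod (L n)) : xh n i (xf n j) = if i = j then 1 else 0 := by
  rw [xh_apply, xf, lp.single_apply_self, eB_apply]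

theorem x_h_f_ne (n m : ℕ) (i : ZMod (L n)) (j : ZMod (L m)) (h : n ≠ m) : xh n i (xf m j) = 0 := by
  rw [xh_apply, xf, lp.single_apply_ne _ _ _ h]; rfl

theorem x_sum_h_le (n : ℕ) (x : XX) : ∑ i, a n i * ‖xh n i x‖ ≤ ‖x‖ :=
  lp.norm_apply_le_norm (by norm_num) x n

theorem norm_eB (n : ℕ) (i : ZMod (L n)) : ‖eB n i‖ = a n i := by
  rw [blk_norm_def, sum_eq_single i]
  · rw [eB_apply, if_pos rfl, norm_one, mul_one]
  · intro b _ hb; rw [eB_apply, if_neg hb, norm_zero, mul_zero]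
  · simp

theorem x_norm_f (n : ℕ) (i : ZMod (L n)) : ‖xf n i‖ = a n i := by
  rw [xf, lp.norm_single (by norm_num), norm_eB]

theorem single_eq_sum (n : ℕ) (v : Blk n) : (lp.single 2 n v : XX) = ∑ i, co v i • xf n i := by
  have h1 : (lp.single 2 n v : XX) = lp.singleContinuousLinearMap ℂ Blk 2 n v := rfl
  rw [h1]
  conv_lhs => rw [blk_eq_sum n v]
  rw [map_sum]
  refine sum_congr rfl fun i _ => ?_
  rw [map_smul]; rfl

theorem x_Pr_eq (k : ℕ) (x : XX) : xPr k x = ∑ m ∈ range k, ∑ i, xh m i x • xf m i := by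
  rw [xPr_apply]
  refine sum_congr rfl fun m _ => ?_
  rw [single_eq_sum]; rfl

theorem x_norm_Pr_le (k : ℕ) (x : XX) : ‖xPr k x‖ ≤ ‖x‖ := by
  rw [xPr_apply]
  have hp : 0 < (2 : ℝ≥0∞).toReal := by norm_num
  have h1 := lp.norm_sum_single hp (fun m => x m) (range k)
  have h2 := lp.sum_rpow_le_norm_rpow hp x (range k)
  rw [← h1] at h2
  exact (Real.rpow_le_rpow_iff (norm_nonneg _) (norm_nonneg _) hp).1 h2

theorem x_tendsto_Pr (x : XX) : Tendsto (fun k => xPr k x) atTop (𝓝 x) := by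
  have h1 := (lp.hasSum_single (by norm_num : (2 : ℝ≥0∞) ≠ ⊤) x).tendsto_sum_nat
  refine h1.congr fun k => ?_
  rw [xPr_apply]

end Pool.Agent.H3.FH
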