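import Pool.Agent.H3.FH.Arith

set_option autoImplicit false

namespace Pool.Agent.H3.FH

open Finset

theorem al_zero (n : ℕ) : al n 0 = H n := by
  unfold al
  apply min_eq_left
  apply le_max_of_le_left
  simp

theorem al_succ_le (n p : ℕ) : al n (p + 1) ≤ 2 * al n p := by
  have hH := H_pos n
  have hL : (0 : ℝ) < L n := by exact_mod_cast L_pos n
  have h1 : H n / 2 ^ (p + 1) ≤ 2 * (H n / 2 ^ p) := by
    have h2 : H n / 2 ^ (p + 1) = (H n / 2 ^ p) / 2 := by rw [pow_succ]; field_simp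
    have h3 : 0 < H n / 2 ^ p := by positivity
    rw [h2]; linarith
  have h2 : ((((p + 1 : ℕ) : ℝ)) + 1) / L n ≤ 2 * (((p : ℝ) + 1) / L n) := by
    rw [mul_div_assoc']
    apply div_le_div_of_nonneg_right _ hL.le
    push_cast; linarith [(Nat.cast_nonneg p : (0 : ℝ) ≤ p)]
  have h3 : H n * 2 ^ (p + 1) / 2 ^ Z n = 2 * (H n * 2 ^ p / 2 ^ Z n) := by ring
  unfold al
  rcases le_total (H n) (max (H n / 2 ^ p) (max (((p : ℝ) + 1) / L n) (H n * 2 ^ p / 2 ^ Z n))) with h | h
  · rw [min_eq_left h]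
    exact (min_le_left _ _).trans (by linarith)
  · rw [min_eq_right h]
    refine (min_le_right _ _).trans ?_
    refine max_le ?_ (max_le ?_ ?_)
    · exact h1.trans (mul_le_mul_of_nonneg_left (le_max_left _ _) (by norm_num))
    · exact h2.trans (mul_le_mul_of_nonneg_left (le_max_of_le_right (le_max_left _ _)) (by norm_num))
    · rw [h3]
      exact mul_le_mul_of_nonneg_left (le_max_of_le_right (le_max_right _ _)) (by norm_num)

theorem le_al_succ (n p : ℕ) : al n p ≤ 2 * al n (p + 1) := by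
  have hH := H_pos n
  have hL : (0 : ℝ) < L n := by exact_mod_cast L_pos n
  have h1 : H n / 2 ^ p ≤ 2 * (H n / 2 ^ (p + 1)) := by
    have h2 : H n / 2 ^ (p + 1) = (H n / 2 ^ p) / 2 := by rw [pow_succ]; field_simp
    rw [h2]; linarith
  have h2 : (((p : ℝ) + 1) / L n) ≤ 2 * (((((p + 1 : ℕ) : ℝ)) + 1) / L n) := by
    rw [mul_div_assoc']
    apply div_le_div_of_nonneg_right _ hL.le
    push_cast; linarith [(Nat.cast_nonneg p : (0 : ℝ) ≤ p)]
  have h3 : H n * 2 ^ p / 2 ^ Z n ≤ 2 * (H n * 2 ^ (p + 1) / 2 ^ Z n) := by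
    have h4 : H n * 2 ^ (p + 1) / 2 ^ Z n = 2 * (H n * 2 ^ p / 2 ^ Z n) := by ring
    have h5 : 0 < H n * 2 ^ p / 2 ^ Z n := by positivity
    rw [h4]; linarith
  unfold al
  rcases le_total (H n) (max (H n / 2 ^ (p + 1)) (max ((((p + 1 : ℕ) : ℝ) + 1) / L n)
    (H n * 2 ^ (p + 1) / 2 ^ Z n))) with h | h
  · rw [min_eq_left h]
    exact (min_le_left _ _).trans (by linarith)
  · rw [min_eq_right h]
    refine (min_le_right _ _).trans ?_
    refine max_le ?_ (max_le ?_ ?_)
    · exact h1.trans (mul_le_mul_of_nonneg_left (le_max_left _ _) (by norm_num))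
    · exact h2.trans (mul_le_mul_of_nonneg_left (le_max_of_le_right (le_max_left _ _)) (by norm_num))
    · exact h3.trans (mul_le_mul_of_nonneg_left (le_max_of_le_right (le_max_right _ _)) (by norm_num))

theorem of_add_one (n : ℕ) (i : ZMod (L n)) :
    (of n (i + 1) = of n i + 1) ∨ (of n (i + 1) = 0 ∧ of n i = N n - 1) := by
  have h1 := of_add n i 1
  rw [Nat.cast_one] at h1
  have h2 := of_lt n i
  rcases Nat.lt_or_ge (of n i + 1) (N n) with h | h
  · left; rw [h1, Nat.mod_eq_of_lt h]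
  · right
    refine ⟨?_, by omega⟩
    rw [h1, show of n i + 1 = N n by omega, Nat.mod_self]

theorem a_add_one_le (n : ℕ) (i : ZMod (L n)) : a n (i + 1) ≤ 2 * a n i := by
  unfold a
  rcases of_add_one n i with h | ⟨h1, h2⟩
  · rw [h]; exact al_succ_le n _
  · rw [h1, h2, al_zero, al_eq_H (by have := Z_lt_N n; omega)]
    have := H_pos n; linarith

theorem le_a_add_one (n : ℕ) (i : ZMod (L n)) : a n i ≤ 2 * a n (i + 1) := by
  unfold a
  rcases of_add_one n i with h | ⟨h1, h2⟩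
  · rw [h]; exact le_al_succ n _
  · rw [h1, h2, al_zero, al_eq_H (by have := Z_lt_N n; omega)]
    have := H_pos n; linarith

theorem a_seam {n : ℕ} {i : ZMod (L n)} (h : o n (i + 1) ≠ o n i) : a n i = H n := by
  have h1 : o n (i + 1 - ((1 : ℕ) : ZMod (L n))) ≠ o n (i + 1) := by
    rw [Nat.cast_one, add_sub_cancel_right]; exact h.symm
  have h2 := a_sub_of_ne (show 1 + Z n ≤ N n by have := Z_lt_N n; omega) h1
  rwa [Nat.cast_one, add_sub_cancel_right] at h2

end Pool.Agent.H3.FH
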